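import Pool.Agent.H587R2.MRC.Run

/-!
# Blocks of presence bits
-/

set_option linter.unusedSectionVars false

namespace Pool.Agent.H587R2.MRC

open Finset

open Pool.Agent.H587R2.MRB (Prog)

/-- Pairs of sets. -/
abbrev Pt (R a : ℕ) : Type := (Fin R × Fin a → Prop) × (Fin R × Fin a → Prop)

variable {R a : ℕ}

/-- The output of a product. -/
def cc (p : Fin a × Fin a) : ℕ := p.1.val + p.2.val

/-- The points of the chain. -/
def base (R a r : ℕ) : Pt R a := (fun x => x.1.val < r, fun y => y.1.val < r)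

/-- The true points of the block `r`. -/
def tau (r : Fin R) (p : Fin a × Fin a) : Pt R a :=
  (fun x => x.1.val < r.val ∨ x = (r, p.1), fun y => y.1.val < r.val ∨ y = (r, p.2))

/-- The false points of the block `r`. -/
def zeta (r : Fin R) (γ : ℕ) (T : Finset (Fin a × Fin a)) : Pt R a :=
  (fun x => x.1.val < r.val ∨ (x.1 = r ∧ ∀ p, cc p = γ → p.1 = x.2 → p ∉ T),
   fun y => y.1.val < r.val ∨ (y.1 = r ∧ ∀ p, cc p = γ → p.2 = y.2 → p ∈ T))

theorem sys_cc : Sys (fun p : Fin a × Fin a => p.1) (fun p => p.2) cc where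
  ha := by
    rintro ⟨i, j⟩ ⟨i', j'⟩ h1 h2
    simp only [cc] at h1 h2
    subst h2
    have : j = j' := Fin.ext (by omega)
    rw [this]
  hb := by
    rintro ⟨i, j⟩ ⟨i', j'⟩ h1 h2
    simp only [cc] at h1 h2
    subst h2
    have : i = i' := Fin.ext (by omega)
    rw [this]
  hab := by
    rintro ⟨i, j⟩ ⟨i', j'⟩ h1 h2
    simp only at h1 h2
    rw [h1, h2]

theorem base_mono {r r' : ℕ} (h : r ≤ r') : base R a r ≤ base R a r' :=
  ⟨fun _ h1 => lt_of_lt_of_le h1 h, fun _ h1 => lt_of_lt_of_le h1 h⟩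

theorem base_le_tau (r : Fin R) (p : Fin a × Fin a) : base R a r ≤ tau r p :=
  ⟨fun _ h => Or.inl h, fun _ h => Or.inl h⟩

theorem base_le_zeta (r : Fin R) (γ : ℕ) (T : Finset (Fin a × Fin a)) :
    base R a r ≤ zeta r γ T :=
  ⟨fun _ h => Or.inl h, fun _ h => Or.inl h⟩

theorem tau_le_base (r : Fin R) (p : Fin a × Fin a) : tau r p ≤ base R a (r + 1) := by
  constructor
  · rintro x (h | rfl)
    · exact Nat.lt_succ_of_lt h
    · exact Nat.lt_succ_self _
  · rintro y (h | rfl)
    · exact Nat.lt_succ_of_lt h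
    · exact Nat.lt_succ_self _

theorem zeta_le_base (r : Fin R) (γ : ℕ) (T : Finset (Fin a × Fin a)) :
    zeta r γ T ≤ base R a (r + 1) := by
  constructor
  · rintro x (h | ⟨h, -⟩)
    · exact Nat.lt_succ_of_lt h
    · change x.1.val < r.val + 1
      rw [h]; exact Nat.lt_succ_self _
  · rintro y (h | ⟨h, -⟩)
    · exact Nat.lt_succ_of_lt h
    · change y.1.val < r.val + 1
      rw [h]; exact Nat.lt_succ_self _

theorem tau_le_zeta (r : Fin R) (γ : ℕ) (T : Finset (Fin a × Fin a)) (q : Fin a × Fin a)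
    (h : ¬ Cov (fun p : Fin a × Fin a => p.1) (fun p => p.2) cc γ q T) :
    tau r q ≤ zeta r γ T := by
  unfold Cov at h
  rw [not_or] at h
  push Not at h
  constructor
  · rintro x (h1 | rfl)
    · exact Or.inl h1
    · exact Or.inr ⟨rfl, fun p h2 h3 => h.1 p h2 h3⟩
  · rintro y (h1 | rfl)
    · exact Or.inl h1
    · exact Or.inr ⟨rfl, fun p h2 h3 => h.2 p h2 h3⟩

theorem tau_le_zeta_fst (r : Fin R) (p : Fin a × Fin a) (T : Finset (Fin a × Fin a))
    (h : p ∉ T) : (tau r p).1 ≤ (zeta r (cc p) T).1 := by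
  rintro x (h1 | rfl)
  · exact Or.inl h1
  · refine Or.inr ⟨rfl, fun q h2 h3 => ?_⟩
    have : q = p := sys_cc.ha q p h2 h3
    rwa [this]

theorem tau_le_zeta_snd (r : Fin R) (p : Fin a × Fin a) (T : Finset (Fin a × Fin a))
    (h : p ∈ T) : (tau r p).2 ≤ (zeta r (cc p) T).2 := by
  rintro x (h1 | rfl)
  · exact Or.inl h1
  · refine Or.inr ⟨rfl, fun q h2 h3 => ?_⟩
    have : q = p := sys_cc.hb q p h2 h3
    rwa [this]

open Classical in
/-- The bound in a block in which the outcomes of the tests do not change. -/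
theorem block_bound {ι O : Type} (Pr : Prog ι O) (S : Pt R a → (ι ⊕ ℕ → ℝ)) (hS : Monotone S)
    (hdep : ∀ Q, (∀ A B B', S (A, B) Q = S (A, B') Q) ∨ (∀ A A' B, S (A, B) Q = S (A', B) Q))
    (r : Fin R) (hP : Pr.path (S (base R a r)) = Pr.path (S (base R a (r + 1)))) (o : ℕ → O) :
    ((univ.filter fun x : Σ _ : Fin a × Fin a, Finset (Fin a × Fin a) =>
      Pr.answer (S (zeta r (cc x.1) x.2)) (o (cc x.1)) <
        Pr.answer (S (tau r x.1)) (o (cc x.1))).card : ℝ) ≤
      2580 * 2 ^ (a * a) * Pr.cost (S (base R a r)) + 120 * 2 ^ (a * a) * (2 * a) := by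
  let X := Set.Icc (base R a r) (base R a (r + 1))
  let τ : Fin a × Fin a → X := fun p => ⟨tau r p, base_le_tau _ _, tau_le_base _ _⟩
  let ζ : ℕ → Finset (Fin a × Fin a) → X := fun γ T =>
    ⟨zeta r γ T, base_le_zeta _ _ _, zeta_le_base _ _ _⟩
  let S' : X → (ι ⊕ ℕ → ℝ) := fun x => S x.1
  have hpts : Points (fun p : Fin a × Fin a => p.1) (fun p => p.2) cc τ ζ :=
    { sys := sys_cc
      le := fun γ T q h => tau_le_zeta r γ T q h }
  have hS' : ∀ Q, Monotone fun x => S' x Q := fun Q x y hxy => hS hxy Q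
  have hbase : ∀ x : X, Pr.path (S' x) = Pr.path (S (base R a r)) := fun x =>
    Pr.path_between (hS x.2.1) (hS x.2.2) hP
  have hpath : ∀ x y : X, Pr.path (S' x) = Pr.path (S' y) := fun x y =>
    (hbase x).trans (hbase y).symm
  let x₀ : X := ⟨base R a r, le_refl _, base_mono (Nat.le_succ _)⟩
  have h0 : ∀ Q p, ¬ Mixed cc τ ζ (fun x => S' x Q) p := by
    intro Q p hmix
    rcases hdep Q with h | h
    · obtain ⟨T, hT, hp⟩ := hmix.ex_out
      rw [mem_dset] at hT
      change S (zeta r (cc p) T) Q < S (tau r p) Q at hT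
      have h4 : S (tau r p) Q ≤ S (zeta r (cc p) T) Q := by
        have e1 := h (zeta r (cc p) T).1 (zeta r (cc p) T).2 (tau r p).2
        have e2 : S ((tau r p).1, (tau r p).2) ≤ S ((zeta r (cc p) T).1, (tau r p).2) :=
          hS ⟨tau_le_zeta_fst r p T hp, le_refl _⟩
        calc S (tau r p) Q = S ((tau r p).1, (tau r p).2) Q := rfl
          _ ≤ S ((zeta r (cc p) T).1, (tau r p).2) Q := e2 Q
          _ = S (zeta r (cc p) T) Q := e1.symm
      linarith
    · obtain ⟨T, hT, hp⟩ := hmix.ex_in
      rw [mem_dset] at hT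
      change S (zeta r (cc p) T) Q < S (tau r p) Q at hT
      have h4 : S (tau r p) Q ≤ S (zeta r (cc p) T) Q := by
        have e1 := h (zeta r (cc p) T).1 (tau r p).1 (zeta r (cc p) T).2
        have e2 : S ((tau r p).1, (tau r p).2) ≤ S ((tau r p).1, (zeta r (cc p) T).2) :=
          hS ⟨le_refl _, tau_le_zeta_snd r p T hp⟩
        calc S (tau r p) Q = S ((tau r p).1, (tau r p).2) Q := rfl
          _ ≤ S ((tau r p).1, (zeta r (cc p) T).2) Q := e2 Q
          _ = S (zeta r (cc p) T) Q := e1.symm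
      linarith
  have h := hpts.count Pr S' hS' hpath x₀ h0 o
  have hcard : Fintype.card (Fin a × Fin a) = a * a := by simp
  rw [hcard] at h
  have hout : ∀ inst : DecidableEq ℕ,
      ((@image _ _ inst cc (univ : Finset (Fin a × Fin a))).card : ℝ) ≤ 2 * a := by
    intro inst
    have : (@image _ _ inst cc (univ : Finset (Fin a × Fin a))).card ≤ 2 * a := by
      calc (@image _ _ inst cc (univ : Finset (Fin a × Fin a))).card ≤ (range (2 * a)).card := by
            refine card_le_card fun γ hγ => ?_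
            obtain ⟨p, -, rfl⟩ := mem_image.1 hγ
            rw [mem_range]
            unfold cc
            have := p.1.2
            have := p.2.2
            omega
        _ = 2 * a := card_range _
    exact_mod_cast this
  refine h.trans (add_le_add (le_refl _) ?_)
  exact mul_le_mul_of_nonneg_left (hout _) (by positivity)

/-- The number of blocks in which the outcomes of the tests change. -/
theorem card_changes {ι O : Type} (Pr : Prog ι O) (S : Pt R a → (ι ⊕ ℕ → ℝ)) (hS : Monotone S) :
    ((univ : Finset (Fin R)).filter fun r : Fin R =>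
      Pr.path (S (base R a r)) ≠ Pr.path (S (base R a (r + 1)))).card + 1 ≤ Pr.leaves := by
  classical
  set C := (univ : Finset (Fin R)).filter fun r : Fin R =>
      Pr.path (S (base R a r)) ≠ Pr.path (S (base R a (r + 1))) with hC
  have key' : ∀ b b' : ℕ, b < b' →
      Pr.path (S (base R a b)) = Pr.path (S (base R a b')) →
      Pr.path (S (base R a b)) = Pr.path (S (base R a (b + 1))) := by
    intro b b' hb h
    have h1 := Pr.path_between (hS (base_mono (a := a) (R := R) (Nat.le_succ b)))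
      (hS (base_mono (a := a) (R := R) hb)) h
    exact h1.symm
  have h1 : (C.image fun r : Fin R => Pr.path (S (base R a r))).card = C.card := by
    refine card_image_of_injOn ?_
    intro x hx y hy h
    rw [mem_coe, hC, mem_filter] at hx hy
    simp only at h
    rcases lt_trichotomy x.val y.val with h2 | h2 | h2
    · exact absurd (key' _ _ h2 h) hx.2
    · exact Fin.ext h2
    · exact absurd (key' _ _ h2 h.symm) hy.2
  have h2 : Pr.path (S (base R a R)) ∉ C.image fun r : Fin R => Pr.path (S (base R a r)) := by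
    intro h3
    obtain ⟨x, hx, h4⟩ := mem_image.1 h3
    rw [hC, mem_filter] at hx
    exact hx.2 (key' _ _ x.2 h4)
  rw [← h1, ← card_insert_of_notMem h2]
  refine le_trans (card_le_card ?_) Pr.card_paths_le
  intro l hl
  rw [mem_insert] at hl
  rcases hl with rfl | hl
  · exact Pr.path_mem _
  · obtain ⟨x, _, rfl⟩ := mem_image.1 hl
    exact Pr.path_mem _

open Classical in
theorem avg_bound {ι O : Type} {Ω : Type} [Fintype Ω] (p : Ω → ℝ) (hp : ∀ ω, 0 ≤ p ω)
    (hp1 : ∑ ω, p ω = 1) (Pr : Ω → Prog ι O) {m : ℕ} (hm : ∀ ω, (Pr ω).leaves ≤ m)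
    (S : Pt R a → (ι ⊕ ℕ → ℝ)) (hS : Monotone S)
    (hdep : ∀ Q, (∀ A B B', S (A, B) Q = S (A, B') Q) ∨ (∀ A A' B, S (A, B) Q = S (A', B) Q))
    (out : Fin R → ℕ → O) {δ : ℝ} (good : Ω → Pt R a → Fin R → ℕ → Prop)
    (hgood : ∀ ω x x' r γ, good ω x r γ → good ω x' r γ →
      (∃ i j : Fin a, i.val + j.val = γ ∧ x.1 (r, i) ∧ x.2 (r, j)) →
      (∀ i j : Fin a, i.val + j.val = γ → x'.1 (r, i) → x'.2 (r, j) → False) →
      (Pr ω).answer (S x') (out r γ) < (Pr ω).answer (S x) (out r γ))
    (hprob : ∀ x r γ, γ < 2 * a → 1 / 2 + δ ≤ ∑ ω ∈ univ.filter (fun ω => good ω x r γ), p ω)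
    {c : ℝ} (hc : ∀ x, ∑ ω, p ω * (Pr ω).cost (S x) ≤ c) :
    2 * δ * (R * (a : ℝ) ^ 2) ≤ 2580 * (R * c) + 240 * (R * a) + (m - 1) * (a : ℝ) ^ 2 := by
  -- pairs
  let Q := Σ _ : Fin a × Fin a, Finset (Fin a × Fin a)
  have hQ : Fintype.card Q = a * a * 2 ^ (a * a) := by
    simp only [Q]
    rw [Fintype.card_sigma]
    simp only [Fintype.card_finset, Fintype.card_fin, sum_const, card_univ, Fintype.card_prod,
      smul_eq_mul]
  set M : ℝ := 2 ^ (a * a) with hM
  have hMpos : 0 < M := by positivity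
  let G : Fin R → Ω → Finset Q := fun r ω => univ.filter fun x : Q =>
    good ω (tau r x.1) r (cc x.1) ∧ good ω (zeta r (cc x.1) x.2) r (cc x.1)
  have hm1 : ∀ ω : Ω, 1 ≤ m := fun ω =>
    Nat.succ_le_of_lt (lt_of_lt_of_le (Pr ω).leaves_pos (hm ω))
  -- upper bound for every program
  have hup : ∀ ω, ∑ r, ((G r ω).card : ℝ) ≤
      2580 * M * ∑ r : Fin R, ((Pr ω).cost (S (base R a r)) : ℝ) +
        R * (240 * M * a) + (m - 1) * (a ^ 2 * M) := by
    intro ω
    have h1 : ∀ r : Fin R, ((G r ω).card : ℝ) ≤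
        (2580 * M * ((Pr ω).cost (S (base R a r)) : ℝ) + 240 * M * a) +
        (if (Pr ω).path (S (base R a r)) ≠ (Pr ω).path (S (base R a (r + 1))) then
          (a : ℝ) ^ 2 * M else 0) := by
      intro r
      split_ifs with h
      · have h2 : ((G r ω).card : ℝ) ≤ (a : ℝ) ^ 2 * M := by
          have : (G r ω).card ≤ Fintype.card Q := card_le_univ _
          rw [hQ] at this
          calc ((G r ω).card : ℝ) ≤ ((a * a * 2 ^ (a * a) : ℕ) : ℝ) := by exact_mod_cast this
            _ = (a : ℝ) ^ 2 * M := by rw [hM]; push_cast; ring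
        have h3 : (0 : ℝ) ≤ 2580 * M * ((Pr ω).cost (S (base R a r)) : ℝ) + 240 * M * a := by
          positivity
        linarith
      · rw [not_not] at h
        have h2 := block_bound (Pr ω) S hS hdep r h (fun γ => out r γ)
        rw [add_zero]
        have h3 : ((G r ω).card : ℝ) ≤
            ((univ.filter fun x : Σ _ : Fin a × Fin a, Finset (Fin a × Fin a) =>
              (Pr ω).answer (S (zeta r (cc x.1) x.2)) (out r (cc x.1)) <
              (Pr ω).answer (S (tau r x.1)) (out r (cc x.1))).card : ℝ) := by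
          have : (G r ω).card ≤
              (univ.filter fun x : Σ _ : Fin a × Fin a, Finset (Fin a × Fin a) =>
              (Pr ω).answer (S (zeta r (cc x.1) x.2)) (out r (cc x.1)) <
              (Pr ω).answer (S (tau r x.1)) (out r (cc x.1))).card := by
            refine card_le_card fun x hx => ?_
            rw [mem_filter] at hx ⊢
            refine ⟨mem_univ _, hgood ω _ _ r (cc x.1) hx.2.1 hx.2.2 ?_ ?_⟩
            · exact ⟨x.1.1, x.1.2, rfl, Or.inr rfl, Or.inr rfl⟩
            · intro i j hij hi hj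
              have h4 : (i, j) ∉ x.2 := by
                rcases hi with hi | ⟨-, hi⟩
                · exact absurd hi (lt_irrefl _)
                · exact hi (i, j) hij rfl
              have h5 : (i, j) ∈ x.2 := by
                rcases hj with hj | ⟨-, hj⟩
                · exact absurd hj (lt_irrefl _)
                · exact hj (i, j) hij rfl
              exact h4 h5
          exact_mod_cast this
        refine h3.trans (h2.trans (le_of_eq ?_))
        rw [hM]; ring
    have h2 : ∑ r : Fin R, (if (Pr ω).path (S (base R a r)) ≠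
          (Pr ω).path (S (base R a (r + 1))) then (a : ℝ) ^ 2 * M else 0) ≤
        (m - 1) * (a ^ 2 * M) := by
      rw [← sum_filter, sum_const, nsmul_eq_mul]
      refine mul_le_mul_of_nonneg_right ?_ (by positivity)
      have h3 := (card_changes (Pr ω) S hS).trans (hm ω)
      have h4 : ((univ.filter fun r : Fin R => (Pr ω).path (S (base R a r)) ≠
          (Pr ω).path (S (base R a (r + 1)))).card : ℝ) + 1 ≤ m := by
        have h5 : (univ.filter fun r : Fin R => (Pr ω).path (S (base R a r)) ≠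
          (Pr ω).path (S (base R a (r + 1)))).card + 1 ≤ m := by
          refine le_trans (Nat.add_le_add_right (le_of_eq (congrArg Finset.card ?_)) 1) h3
          ext r
          simp only [mem_filter]
        exact_mod_cast h5
      linarith
    calc ∑ r, ((G r ω).card : ℝ) ≤ ∑ r : Fin R, _ := sum_le_sum fun r _ => h1 r
      _ = ∑ r : Fin R, (2580 * M * ((Pr ω).cost (S (base R a r)) : ℝ) + 240 * M * a) +
          ∑ r : Fin R, (if (Pr ω).path (S (base R a r)) ≠
            (Pr ω).path (S (base R a (r + 1))) then (a : ℝ) ^ 2 * M else 0) := sum_add_distrib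
      _ ≤ _ := by
          refine add_le_add (le_of_eq ?_) h2
          rw [sum_add_distrib, ← mul_sum, sum_const, card_univ, Fintype.card_fin, nsmul_eq_mul]
  -- lower bound on the average
  have hlow : (R : ℝ) * ((a : ℝ) ^ 2 * M) * (2 * δ) ≤
      ∑ ω, p ω * ∑ r, ((G r ω).card : ℝ) := by
    have h1 : ∀ (r : Fin R) (x : Q),
        2 * δ ≤ ∑ ω, p ω * (if x ∈ G r ω then (1 : ℝ) else 0) := by
      intro r x
      have hlt : cc x.1 < 2 * a := by
        unfold cc
        have := x.1.1.2
        have := x.1.2.2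
        omega
      have ha := hprob (tau r x.1) r (cc x.1) hlt
      have hb := hprob (zeta r (cc x.1) x.2) r (cc x.1) hlt
      rw [sum_filter] at ha hb
      have h2 : ∀ ω, (if good ω (tau r x.1) r (cc x.1) then p ω else 0) +
          (if good ω (zeta r (cc x.1) x.2) r (cc x.1) then p ω
          else 0) - p ω ≤ p ω * (if x ∈ G r ω then (1 : ℝ) else 0) := by
        intro ω
        have hpω := hp ω
        by_cases hA : good ω (tau r x.1) r (cc x.1)
        · by_cases hC : good ω (zeta r (cc x.1) x.2) r (cc x.1)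
          · have : x ∈ G r ω := by
              simp only [G, mem_filter, mem_univ, true_and]
              exact ⟨hA, hC⟩
            simp only [hA, hC, this, if_true]
            linarith
          · simp only [hA, hC, if_true, if_false]
            split_ifs <;> linarith
        · simp only [hA, if_false]
          by_cases hC : good ω (zeta r (cc x.1) x.2) r (cc x.1)
          · simp only [hC, if_true]
            split_ifs <;> linarith
          · simp only [hC, if_false]
            split_ifs <;> linarith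
      have h3 := sum_le_sum fun ω (_ : ω ∈ (univ : Finset Ω)) => h2 ω
      rw [sum_sub_distrib, sum_add_distrib, hp1] at h3
      linarith
    have h4 : ∀ r : Fin R, ((a : ℝ) ^ 2 * M) * (2 * δ) ≤ ∑ ω, p ω * ((G r ω).card : ℝ) := by
      intro r
      have h5 : ∀ ω, ((G r ω).card : ℝ) = ∑ x : Q, (if x ∈ G r ω then (1 : ℝ) else 0) := by
        intro ω
        rw [← sum_filter, sum_const, nsmul_eq_mul, mul_one]
        congr 2
        ext x
        simp
      calc ((a : ℝ) ^ 2 * M) * (2 * δ) = ∑ x : Q, 2 * δ := by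
            rw [sum_const, nsmul_eq_mul, card_univ, hQ, hM]; push_cast; ring
        _ ≤ ∑ x : Q, ∑ ω, p ω * (if x ∈ G r ω then (1 : ℝ) else 0) :=
            sum_le_sum fun x _ => h1 r x
        _ = ∑ ω, ∑ x : Q, p ω * (if x ∈ G r ω then (1 : ℝ) else 0) := sum_comm
        _ = ∑ ω, p ω * ((G r ω).card : ℝ) := by
            refine sum_congr rfl fun ω _ => ?_
            rw [h5, mul_sum]
    calc (R : ℝ) * ((a : ℝ) ^ 2 * M) * (2 * δ) =
          ∑ _r : Fin R, ((a : ℝ) ^ 2 * M) * (2 * δ) := by
          rw [sum_const, nsmul_eq_mul, card_univ, Fintype.card_fin]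
          ring
      _ ≤ ∑ r : Fin R, ∑ ω, p ω * ((G r ω).card : ℝ) := sum_le_sum fun r _ => h4 r
      _ = ∑ ω, ∑ r : Fin R, p ω * ((G r ω).card : ℝ) := sum_comm
      _ = ∑ ω, p ω * ∑ r, ((G r ω).card : ℝ) := by
          refine sum_congr rfl fun ω _ => ?_
          rw [← mul_sum]
  have hfin : (2 * δ * (R * (a : ℝ) ^ 2)) * M ≤
      (2580 * (R * c) + 240 * (R * a) + (m - 1) * (a : ℝ) ^ 2) * M := by
    calc (2 * δ * (R * (a : ℝ) ^ 2)) * M
        = (R : ℝ) * ((a : ℝ) ^ 2 * M) * (2 * δ) := by ring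
      _ ≤ ∑ ω, p ω * ∑ r, ((G r ω).card : ℝ) := hlow
      _ ≤ ∑ ω, p ω * (2580 * M * ∑ r : Fin R, ((Pr ω).cost (S (base R a r)) : ℝ) +
        R * (240 * M * a) + (m - 1) * (a ^ 2 * M)) :=
          sum_le_sum fun ω _ => mul_le_mul_of_nonneg_left (hup ω) (hp ω)
      _ = 2580 * M * ∑ r : Fin R, ∑ ω, p ω * ((Pr ω).cost (S (base R a r)) : ℝ) +
          (R * (240 * M * a) + (m - 1) * (a ^ 2 * M)) * ∑ ω, p ω := by
          rw [sum_comm, mul_sum, mul_sum, ← sum_add_distrib]
          refine sum_congr rfl fun ω _ => ?_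
          rw [← mul_sum]; ring
      _ ≤ 2580 * M * (R * c) + (R * (240 * M * a) + (m - 1) * (a ^ 2 * M)) := by
          rw [hp1, mul_one]
          refine add_le_add (mul_le_mul_of_nonneg_left ?_ (by positivity)) (le_refl _)
          calc ∑ r : Fin R, ∑ ω, p ω * ((Pr ω).cost (S (base R a r)) : ℝ)
              ≤ ∑ _r : Fin R, c := sum_le_sum fun r _ => hc _
            _ = R * c := by
              rw [sum_const, nsmul_eq_mul, card_univ, Fintype.card_fin]
      _ = _ := by ring
  exact le_of_mul_le_mul_right hfin hMpos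

end Pool.Agent.H587R2.MRC
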