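import Pool.Agent.H587R2.MRC.Points

/-!
# The charge of a wire is bounded
-/

namespace Pool.Agent.H587R2.MRC

open Finset

open Classical

section greedy

variable {E A B : Type} [Fintype E] (a : E → A) (b : E → B) (ρ : E → ℕ)

/-- The greedy matching. -/
noncomputable def gr : ℕ → Finset E
  | 0 => ∅
  | n + 1 => gr n ∪ univ.filter fun p => ρ p = n ∧ ∀ q ∈ gr n, a q ≠ a p ∧ b q ≠ b p

variable {a b ρ}

theorem gr_succ (n : ℕ) : gr a b ρ (n + 1) =
    gr a b ρ n ∪ univ.filter fun p => ρ p = n ∧ ∀ q ∈ gr a b ρ n, a q ≠ a p ∧ b q ≠ b p := rfl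

theorem mem_gr_succ {n : ℕ} {p : E} : p ∈ gr a b ρ (n + 1) ↔
    p ∈ gr a b ρ n ∨ (ρ p = n ∧ ∀ q ∈ gr a b ρ n, a q ≠ a p ∧ b q ≠ b p) := by
  rw [gr_succ, mem_union, mem_filter]
  simp

theorem gr_mono {m n : ℕ} (h : m ≤ n) : gr a b ρ m ⊆ gr a b ρ n := by
  induction h with
  | refl => exact Subset.refl _
  | step _ ih => exact fun p hp => mem_gr_succ.2 (Or.inl (ih hp))

theorem gr_lt {n : ℕ} {p : E} (hp : p ∈ gr a b ρ n) : ρ p < n := by
  induction n with
  | zero => simp [gr] at hp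
  | succ n ih =>
    rcases mem_gr_succ.1 hp with h | h
    · exact (ih h).trans (Nat.lt_succ_self n)
    · omega

theorem gr_own {n : ℕ} {p : E} (hp : p ∈ gr a b ρ n) : p ∈ gr a b ρ (ρ p + 1) := by
  induction n with
  | zero => simp [gr] at hp
  | succ n ih =>
    rcases mem_gr_succ.1 hp with h | h
    · exact ih h
    · rw [h.1]; exact hp

theorem gr_match (hρ : Function.Injective ρ) {n : ℕ} {p q : E} (hp : p ∈ gr a b ρ n)
    (hq : q ∈ gr a b ρ n) (hne : p ≠ q) : a p ≠ a q ∧ b p ≠ b q := by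
  induction n with
  | zero => simp [gr] at hp
  | succ n ih =>
    rcases mem_gr_succ.1 hp with h | h <;> rcases mem_gr_succ.1 hq with h' | h'
    · exact ih h h'
    · exact h'.2 p h
    · exact ⟨(h.2 q h').1.symm, (h.2 q h').2.symm⟩
    · exact absurd (hρ (h.1.trans h'.1.symm)) hne

theorem gr_touch (p : E) : ∃ q ∈ gr a b ρ (ρ p + 1), a q = a p ∨ b q = b p := by
  by_cases h : ∀ q ∈ gr a b ρ (ρ p), a q ≠ a p ∧ b q ≠ b p
  · exact ⟨p, mem_gr_succ.2 (Or.inr ⟨rfl, h⟩), Or.inl rfl⟩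
  · push Not at h
    obtain ⟨q, hq, hq'⟩ := h
    refine ⟨q, gr_mono (Nat.le_succ _) hq, ?_⟩
    by_cases h1 : a q = a p
    · exact Or.inl h1
    · exact Or.inr (hq' h1)

/-- The number of elements of the greedy matching up to `p`. -/
noncomputable def lev (a : E → A) (b : E → B) (ρ : E → ℕ) (p : E) : ℕ := (gr a b ρ (ρ p + 1)).card

theorem lev_mono {p q : E} (h : ρ p ≤ ρ q) : lev a b ρ p ≤ lev a b ρ q :=
  card_le_card (gr_mono (Nat.succ_le_succ h))

theorem lev_lt {p q : E} {n : ℕ} (hq : q ∈ gr a b ρ n) (h : ρ p < ρ q) :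
    lev a b ρ p < lev a b ρ q := by
  have h1 : gr a b ρ (ρ p + 1) ⊆ gr a b ρ (ρ q) := gr_mono h
  have h2 : q ∈ gr a b ρ (ρ q + 1) := gr_own hq
  refine card_lt_card ⟨fun r hr => gr_mono (Nat.le_succ _) (h1 hr), fun hcon => ?_⟩
  have h3 := gr_lt (hcon h2)
  omega

theorem lev_inj (hρ : Function.Injective ρ) {p q : E} {m n : ℕ} (hp : p ∈ gr a b ρ m)
    (hq : q ∈ gr a b ρ n) (h : lev a b ρ p = lev a b ρ q) : p = q := by
  rcases lt_trichotomy (ρ p) (ρ q) with h1 | h1 | h1
  · have := lev_lt hq h1; omega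
  · exact hρ h1
  · have := lev_lt hp h1; omega

theorem exists_rank (f : E → ℝ) : ∃ ρ : E → ℕ, Function.Injective ρ ∧
    ∀ p q, ρ p ≤ ρ q → f q ≤ f p := by
  let e : E ≃ Fin (Fintype.card E) := Fintype.equivFin E
  let lt : E → E → Prop := fun q p => f p < f q ∨ (f p = f q ∧ e q < e p)
  let ρ : E → ℕ := fun p => (univ.filter fun q => lt q p).card
  have htrans : ∀ x y z, lt x y → lt y z → lt x z := by
    intro x y z h1 h2
    rcases h1 with h1 | ⟨h1, h1'⟩ <;> rcases h2 with h2 | ⟨h2, h2'⟩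
    · exact Or.inl (h2.trans h1)
    · exact Or.inl (h2 ▸ h1)
    · exact Or.inl (h1 ▸ h2)
    · exact Or.inr ⟨h2.trans h1, h1'.trans h2'⟩
  have hirr : ∀ x, ¬ lt x x := by
    rintro x (h | ⟨-, h⟩)
    · exact lt_irrefl _ h
    · exact lt_irrefl _ h
  have hlt : ∀ x y, lt x y → ρ x < ρ y := by
    intro x y h
    refine card_lt_card ⟨fun q hq => ?_, fun hcon => ?_⟩
    · rw [mem_filter] at hq ⊢
      exact ⟨mem_univ _, htrans _ _ _ hq.2 h⟩
    · have : x ∈ univ.filter fun q => lt q y := mem_filter.2 ⟨mem_univ _, h⟩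
      exact hirr x (mem_filter.1 (hcon this)).2
  have htot : ∀ x y, x ≠ y → lt x y ∨ lt y x := by
    intro x y hne
    rcases lt_trichotomy (f x) (f y) with h | h | h
    · exact Or.inr (Or.inl h)
    · rcases lt_trichotomy (e x) (e y) with h' | h' | h'
      · exact Or.inl (Or.inr ⟨h.symm, h'⟩)
      · exact absurd (e.injective h') hne
      · exact Or.inr (Or.inr ⟨h, h'⟩)
    · exact Or.inl (Or.inl h)
  refine ⟨ρ, ?_, ?_⟩
  · intro x y h
    by_contra hne
    rcases htot x y hne with h' | h'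
    · have := hlt _ _ h'; omega
    · have := hlt _ _ h'; omega
  · intro p q h
    by_contra hcon
    rw [not_le] at hcon
    have := hlt q p (Or.inl hcon)
    omega

end greedy

section sums

theorem geom_le (x : ℝ) (h0 : 0 ≤ x) (h1 : x < 1) (N : ℕ) :
    ∑ n ∈ range N, x ^ n ≤ (1 - x)⁻¹ := by
  have h2 : 0 < 1 - x := by linarith
  have h3 : (∑ n ∈ range N, x ^ n) * (1 - x) = 1 - x ^ N := geom_sum_mul_neg x N
  rw [← one_div, le_div_iff₀ h2, h3]
  have : 0 ≤ x ^ N := by positivity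
  linarith

theorem sum_inj_le {V : Type} (U : Finset V) (f : V → ℕ) (hf : Set.InjOn f U) (x : ℝ)
    (h0 : 0 ≤ x) (h1 : x < 1) : ∑ p ∈ U, x ^ f p ≤ (1 - x)⁻¹ := by
  obtain ⟨N, hN⟩ : ∃ N, ∀ p ∈ U, f p < N := ⟨U.sup f + 1, fun p hp =>
    Nat.lt_succ_of_le (le_sup (f := f) hp)⟩
  rw [← sum_image (g := f) (f := fun n => x ^ n) hf]
  refine le_trans ?_ (geom_le x h0 h1 N)
  refine sum_le_sum_of_subset_of_nonneg ?_ fun _ _ _ => by positivity
  intro n hn
  obtain ⟨p, hp, rfl⟩ := mem_image.1 hn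
  exact mem_range.2 (hN p hp)

theorem sum_inj2_le {V : Type} (U : Finset V) (f g : V → ℕ)
    (hf : ∀ p ∈ U, ∀ q ∈ U, f p = f q → g p = g q → p = q) (x y : ℝ)
    (h0 : 0 ≤ x) (h1 : x < 1) (h0' : 0 ≤ y) (h1' : y < 1) :
    ∑ p ∈ U, x ^ f p * y ^ g p ≤ (1 - x)⁻¹ * (1 - y)⁻¹ := by
  obtain ⟨N, hN⟩ : ∃ N, ∀ p ∈ U, f p < N := ⟨U.sup f + 1, fun p hp =>
    Nat.lt_succ_of_le (le_sup (f := f) hp)⟩
  have h2 : ∑ p ∈ U, x ^ f p * y ^ g p =
      ∑ n ∈ range N, ∑ p ∈ U.filter (fun p => f p = n), x ^ f p * y ^ g p :=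
    (sum_fiberwise_of_maps_to (fun p hp => mem_range.2 (hN p hp)) _).symm
  rw [h2]
  calc ∑ n ∈ range N, ∑ p ∈ U.filter (fun p => f p = n), x ^ f p * y ^ g p
      = ∑ n ∈ range N, x ^ n * ∑ p ∈ U.filter (fun p => f p = n), y ^ g p := by
        refine sum_congr rfl fun n _ => ?_
        rw [mul_sum]
        exact sum_congr rfl fun p hp => by rw [(mem_filter.1 hp).2]
    _ ≤ ∑ n ∈ range N, x ^ n * (1 - y)⁻¹ := by
        refine sum_le_sum fun n _ => mul_le_mul_of_nonneg_left ?_ (by positivity)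
        refine sum_inj_le _ g ?_ y h0' h1'
        intro p hp q hq h
        rw [mem_coe, mem_filter] at hp hq
        exact hf p hp.1 q hq.1 (hp.2.trans hq.2.symm) h
    _ = (∑ n ∈ range N, x ^ n) * (1 - y)⁻¹ := by rw [sum_mul]
    _ ≤ _ := mul_le_mul_of_nonneg_right (geom_le x h0 h1 N)
        (inv_nonneg.2 (by linarith))

end sums

variable {E A B C X : Type} [Fintype E] {a : E → A} {b : E → B} {c : E → C}
variable {τ : E → X} {ζ : C → Finset E → X} [Preorder X]

/-- An element of the greedy matching up to `p` uses the variable `x (a p)`. -/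
def TouchA (a : E → A) (b : E → B) (ρ : E → ℕ) (p : E) : Prop :=
  ∃ q ∈ gr a b ρ (ρ p + 1), a q = a p

/-- The part of the charge of a wire outside of the dominating outputs. -/
theorem Points.side_bound (h : Points a b c τ ζ) {W : X → ℝ} (hW : Monotone W) {ρ : E → ℕ}
    (hρ : Function.Injective ρ) (hρW : ∀ p q, ρ p ≤ ρ q → W (τ q) ≤ W (τ p)) (U : Finset E)
    (hU : ∀ p ∈ U, Mixed c τ ζ W p ∧
      lev a b ρ p ≤ 2 * ((gr a b ρ (ρ p + 1)).filter fun q => c q ≠ c p).card) :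
    ∑ p ∈ U, ((dset c τ ζ W p).card : ℝ) ≤ 600 * 2 ^ Fintype.card E := by
  set M : ℝ := 2 ^ Fintype.card E with hM
  have hMpos : 0 < M := by positivity
  -- the bound for one product
  have hone : ∀ p ∈ U, ∀ q ∈ gr a b ρ (ρ p + 1), ∀ B' : Finset E,
      (dset c τ ζ W p).card * 2 ^ B'.card ≤ 4 * 2 ^ Fintype.card E →
      ((dset c τ ζ W p).card : ℝ) ≤
        2 * M * ((977 / 1000) ^ lev a b ρ q * (71 / 100) ^ B'.card) := by
    intro p hp q hq B' hB'
    obtain ⟨hmix, hlev⟩ := hU p hp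
    set Q := (gr a b ρ (ρ p + 1)).filter fun q => c q ≠ c p with hQ
    have h1 : ((dset c τ ζ W p).card : ℝ) ≤ (10 / 11) ^ Q.card * M := by
      refine h.dset_le_cover hW Q ?_ (fun q hq => (mem_filter.1 hq).2) ?_
      · intro q hq
        have := gr_lt (mem_filter.1 hq).1
        exact hρW _ _ (by omega)
      · intro x hx y hy hne
        exact gr_match hρ (mem_filter.1 hx).1 (mem_filter.1 hy).1 hne
    have h2 : ((dset c τ ζ W p).card : ℝ) * 2 ^ B'.card ≤ 4 * M := by
      rw [hM]; exact_mod_cast hB'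
    have hlevq : lev a b ρ q ≤ 2 * Q.card := by
      have : ρ q ≤ ρ p := by have := gr_lt hq; omega
      exact (lev_mono this).trans hlev
    -- square
    have h3 : ((977 : ℝ) / 1000) ^ (2 * Q.card) ≤ (977 / 1000) ^ lev a b ρ q :=
      pow_le_pow_of_le_one (by norm_num) (by norm_num) hlevq
    set d : ℝ := ((dset c τ ζ W p).card : ℝ) with hd
    have hd0 : 0 ≤ d := by positivity
    have h4 : ((10 : ℝ) / 11) ^ Q.card ≤ ((977 / 1000) ^ (2 * Q.card)) ^ 2 := by
      rw [← pow_mul, mul_comm (2 * Q.card) 2, ← mul_assoc, pow_mul]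
      exact pow_le_pow_left₀ (by norm_num) (by norm_num) _
    have h5 : (1 : ℝ) ≤ 2 ^ B'.card * ((71 / 100) ^ B'.card) ^ 2 := by
      rw [← pow_mul, mul_comm B'.card 2, pow_mul, ← mul_pow]
      exact one_le_pow₀ (by norm_num)
    have h6 : d ≤ 4 * M * ((71 / 100) ^ B'.card) ^ 2 := by
      calc d = d * 1 := (mul_one d).symm
        _ ≤ d * (2 ^ B'.card * ((71 / 100) ^ B'.card) ^ 2) := mul_le_mul_of_nonneg_left h5 hd0
        _ = (d * 2 ^ B'.card) * ((71 / 100) ^ B'.card) ^ 2 := by ring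
        _ ≤ (4 * M) * ((71 / 100) ^ B'.card) ^ 2 :=
            mul_le_mul_of_nonneg_right h2 (by positivity)
    have h7 : d ≤ ((977 / 1000) ^ (2 * Q.card)) ^ 2 * M :=
      h1.trans (mul_le_mul_of_nonneg_right h4 hMpos.le)
    have h8 : d ≤ 2 * M * ((977 / 1000) ^ (2 * Q.card) * (71 / 100) ^ B'.card) := by
      refine (pow_le_pow_iff_left₀ hd0 (by positivity) two_ne_zero).1 ?_
      calc d ^ 2 = d * d := sq d
        _ ≤ (((977 / 1000) ^ (2 * Q.card)) ^ 2 * M) * (4 * M * ((71 / 100) ^ B'.card) ^ 2) :=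
            mul_le_mul h7 h6 hd0 (by positivity)
        _ = _ := by ring
    refine h8.trans (mul_le_mul_of_nonneg_left ?_ (by positivity))
    exact mul_le_mul_of_nonneg_right h3 (by positivity)
  -- the two sides
  set Ua := U.filter fun p => TouchA a b ρ p with hUa
  set Ub := U.filter fun p => ¬ TouchA a b ρ p with hUb
  have hsplit : ∑ p ∈ U, ((dset c τ ζ W p).card : ℝ) =
      ∑ p ∈ Ua, ((dset c τ ζ W p).card : ℝ) + ∑ p ∈ Ub, ((dset c τ ζ W p).card : ℝ) :=
    (sum_filter_add_sum_filter_not U _ _).symm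
  have hgeo : (2 : ℝ) * M * ((1 - 977 / 1000)⁻¹ * (1 - 71 / 100)⁻¹) ≤ 300 * M := by
    have : (2 : ℝ) * ((1 - 977 / 1000)⁻¹ * (1 - 71 / 100)⁻¹) ≤ 300 := by norm_num
    nlinarith
  have hA : ∑ p ∈ Ua, ((dset c τ ζ W p).card : ℝ) ≤ 300 * M := by
    have hex : ∀ p ∈ Ua, ∃ q ∈ gr a b ρ (ρ p + 1), a q = a p := fun p hp => (mem_filter.1 hp).2
    choose! f hf1 hf2 using hex
    let Bp : E → Finset E := fun p => univ.filter fun q => a q = a p ∧ ρ q < ρ p
    calc ∑ p ∈ Ua, ((dset c τ ζ W p).card : ℝ)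
        ≤ ∑ p ∈ Ua, 2 * M * ((977 / 1000) ^ lev a b ρ (f p) * (71 / 100) ^ (Bp p).card) := by
          refine sum_le_sum fun p hp => ?_
          have hpU := (mem_filter.1 hp).1
          refine hone p hpU (f p) (hf1 p hp) (Bp p) ?_
          refine h.mixed_a hW (hU p hpU).1 (Bp p) ?_
          intro q hq
          obtain ⟨-, h1, h2⟩ := mem_filter.1 hq
          exact ⟨h1, fun hcon => by rw [hcon] at h2; exact lt_irrefl _ h2, hρW _ _ h2.le⟩
      _ = 2 * M * ∑ p ∈ Ua, ((977 : ℝ) / 1000) ^ lev a b ρ (f p) * (71 / 100) ^ (Bp p).card := by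
          rw [mul_sum]
      _ ≤ 2 * M * ((1 - 977 / 1000)⁻¹ * (1 - 71 / 100)⁻¹) := by
          refine mul_le_mul_of_nonneg_left ?_ (by positivity)
          refine sum_inj2_le Ua _ _ ?_ _ _ (by norm_num) (by norm_num) (by norm_num) (by norm_num)
          intro p hp q hq hl hk
          have h1 := lev_inj hρ (hf1 p hp) (hf1 q hq) hl
          have h2 : a p = a q := by rw [← hf2 p hp, ← hf2 q hq, h1]
          rcases lt_trichotomy (ρ p) (ρ q) with h3 | h3 | h3
          · exfalso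
            have : (Bp p).card < (Bp q).card := by
              refine card_lt_card ⟨fun r hr => ?_, fun hcon => ?_⟩
              · obtain ⟨-, hr1, hr2⟩ := mem_filter.1 hr
                exact mem_filter.2 ⟨mem_univ _, hr1.trans h2, hr2.trans h3⟩
              · have : p ∈ Bp q := mem_filter.2 ⟨mem_univ _, h2, h3⟩
                exact lt_irrefl _ (mem_filter.1 (hcon this)).2.2
            omega
          · exact hρ h3
          · exfalso
            have : (Bp q).card < (Bp p).card := by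
              refine card_lt_card ⟨fun r hr => ?_, fun hcon => ?_⟩
              · obtain ⟨-, hr1, hr2⟩ := mem_filter.1 hr
                exact mem_filter.2 ⟨mem_univ _, hr1.trans h2.symm, hr2.trans h3⟩
              · have : q ∈ Bp p := mem_filter.2 ⟨mem_univ _, h2.symm, h3⟩
                exact lt_irrefl _ (mem_filter.1 (hcon this)).2.2
            omega
      _ ≤ 300 * M := hgeo
  have hB : ∑ p ∈ Ub, ((dset c τ ζ W p).card : ℝ) ≤ 300 * M := by
    have hex : ∀ p ∈ Ub, ∃ q ∈ gr a b ρ (ρ p + 1), b q = b p := by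
      intro p hp
      obtain ⟨q, hq, h1 | h1⟩ := gr_touch (a := a) (b := b) (ρ := ρ) p
      · exact absurd ⟨q, hq, h1⟩ (mem_filter.1 hp).2
      · exact ⟨q, hq, h1⟩
    choose! f hf1 hf2 using hex
    let Bp : E → Finset E := fun p => univ.filter fun q => b q = b p ∧ ρ q < ρ p
    calc ∑ p ∈ Ub, ((dset c τ ζ W p).card : ℝ)
        ≤ ∑ p ∈ Ub, 2 * M * ((977 / 1000) ^ lev a b ρ (f p) * (71 / 100) ^ (Bp p).card) := by
          refine sum_le_sum fun p hp => ?_
          have hpU := (mem_filter.1 hp).1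
          refine hone p hpU (f p) (hf1 p hp) (Bp p) ?_
          refine h.mixed_b hW (hU p hpU).1 (Bp p) ?_
          intro q hq
          obtain ⟨-, h1, h2⟩ := mem_filter.1 hq
          exact ⟨h1, fun hcon => by rw [hcon] at h2; exact lt_irrefl _ h2, hρW _ _ h2.le⟩
      _ = 2 * M * ∑ p ∈ Ub, ((977 : ℝ) / 1000) ^ lev a b ρ (f p) * (71 / 100) ^ (Bp p).card := by
          rw [mul_sum]
      _ ≤ 2 * M * ((1 - 977 / 1000)⁻¹ * (1 - 71 / 100)⁻¹) := by
          refine mul_le_mul_of_nonneg_left ?_ (by positivity)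
          refine sum_inj2_le Ub _ _ ?_ _ _ (by norm_num) (by norm_num) (by norm_num) (by norm_num)
          intro p hp q hq hl hk
          have h1 := lev_inj hρ (hf1 p hp) (hf1 q hq) hl
          have h2 : b p = b q := by rw [← hf2 p hp, ← hf2 q hq, h1]
          rcases lt_trichotomy (ρ p) (ρ q) with h3 | h3 | h3
          · exfalso
            have : (Bp p).card < (Bp q).card := by
              refine card_lt_card ⟨fun r hr => ?_, fun hcon => ?_⟩
              · obtain ⟨-, hr1, hr2⟩ := mem_filter.1 hr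
                exact mem_filter.2 ⟨mem_univ _, hr1.trans h2, hr2.trans h3⟩
              · have : p ∈ Bp q := mem_filter.2 ⟨mem_univ _, h2, h3⟩
                exact lt_irrefl _ (mem_filter.1 (hcon this)).2.2
            omega
          · exact hρ h3
          · exfalso
            have : (Bp q).card < (Bp p).card := by
              refine card_lt_card ⟨fun r hr => ?_, fun hcon => ?_⟩
              · obtain ⟨-, hr1, hr2⟩ := mem_filter.1 hr
                exact mem_filter.2 ⟨mem_univ _, hr1.trans h2.symm, hr2.trans h3⟩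
              · have : q ∈ Bp p := mem_filter.2 ⟨mem_univ _, h2.symm, h3⟩
                exact lt_irrefl _ (mem_filter.1 (hcon this)).2.2
            omega
      _ ≤ 300 * M := hgeo
  rw [hsplit]
  linarith

end Pool.Agent.H587R2.MRC
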