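import Mathlib

/-!
# Random transversals of a matching seldom cover another matching
-/

namespace Pool.Agent.H587R2.MRC

open Finset

open Classical

variable {E A B C : Type} [Fintype E]

/-- A semi-disjoint bilinear system: `E` is the set of all products `x (a p) * y (b p)`, the
product `p` occurs in the output `c p`, no two products of an output share a variable and no
product occurs twice. -/
structure Sys (a : E → A) (b : E → B) (c : E → C) : Prop where
  ha : ∀ p q, c p = c q → a p = a q → p = q
  hb : ∀ p q, c p = c q → b p = b q → p = q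
  hab : ∀ p q, a p = a q → b p = b q → p = q

variable {a : E → A} {b : E → B} {c : E → C}

/-- The set `S` (with the variables `x (a r)`, `r ∈ S`, and `y (b r)`, `r ∉ S` of the output `γ`
equal to `0`) covers the product `q`. -/
def Cov (a : E → A) (b : E → B) (c : E → C) (γ : C) (q : E) (S : Finset E) : Prop :=
  (∃ r, c r = γ ∧ a r = a q ∧ r ∈ S) ∨ ∃ r, c r = γ ∧ b r = b q ∧ r ∉ S

/-- The product of the output `γ` with the variable `x (a q)`. -/
noncomputable def Ra (a : E → A) (c : E → C) (γ : C) (q : E) : Finset E :=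
  univ.filter fun r => c r = γ ∧ a r = a q

/-- The product of the output `γ` with the variable `y (b q)`. -/
noncomputable def Rb (b : E → B) (c : E → C) (γ : C) (q : E) : Finset E :=
  univ.filter fun r => c r = γ ∧ b r = b q

theorem mem_Ra {γ : C} {q r : E} : r ∈ Ra a c γ q ↔ c r = γ ∧ a r = a q := by simp [Ra]

theorem mem_Rb {γ : C} {q r : E} : r ∈ Rb b c γ q ↔ c r = γ ∧ b r = b q := by simp [Rb]

theorem Sys.card_Ra (h : Sys a b c) (γ : C) (q : E) : (Ra a c γ q).card ≤ 1 := by
  rw [card_le_one]
  intro r hr r' hr'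
  rw [mem_Ra] at hr hr'
  exact h.ha _ _ (hr.1.trans hr'.1.symm) (hr.2.trans hr'.2.symm)

theorem Sys.card_Rb (h : Sys a b c) (γ : C) (q : E) : (Rb b c γ q).card ≤ 1 := by
  rw [card_le_one]
  intro r hr r' hr'
  rw [mem_Rb] at hr hr'
  exact h.hb _ _ (hr.1.trans hr'.1.symm) (hr.2.trans hr'.2.symm)

/-- The sets which cover all products of `Q`. -/
noncomputable def covers (a : E → A) (b : E → B) (c : E → C) (γ : C) (Q : Finset E) :
    Finset (Finset E) :=
  univ.filter fun S => ∀ q ∈ Q, Cov a b c γ q S

theorem mem_covers {γ : C} {Q : Finset E} {S : Finset E} :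
    S ∈ covers a b c γ Q ↔ ∀ q ∈ Q, Cov a b c γ q S := by simp [covers]

theorem Sys.cover_step (h : Sys a b c) (γ : C) (q : E) (hq : c q ≠ γ) (Q : Finset E)
    (hQ : ∀ q' ∈ Q, Disjoint (Ra a c γ q' ∪ Rb b c γ q') (Ra a c γ q ∪ Rb b c γ q)) :
    4 * (covers a b c γ (insert q Q)).card ≤ 3 * (covers a b c γ Q).card := by
  set R := Ra a c γ q with hR
  set R' := Rb b c γ q with hR'
  have hdis : Disjoint R R' := by
    rw [Finset.disjoint_left]
    intro r hr hr'
    rw [hR, mem_Ra] at hr
    rw [hR', mem_Rb] at hr'
    have := h.hab _ _ hr.2 hr'.2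
    exact hq (this ▸ hr.1)
  let φ : Finset E → Finset E := fun S => (S \ R) ∪ R'
  have hφ : ∀ S r, r ∈ φ S ↔ (r ∈ S ∧ r ∉ R) ∨ r ∈ R' := by intro S r; simp [φ]
  have hsub : covers a b c γ (insert q Q) ⊆ covers a b c γ Q := by
    intro S hS
    rw [mem_covers] at hS ⊢
    exact fun q' hq' => hS q' (mem_insert_of_mem hq')
  -- the image avoids the covers of `insert q Q`
  have himg : (covers a b c γ (insert q Q)).image φ ⊆
      covers a b c γ Q \ covers a b c γ (insert q Q) := by
    intro U hU
    obtain ⟨S, hS, rfl⟩ := mem_image.1 hU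
    rw [mem_sdiff]
    constructor
    · rw [mem_covers]
      intro q' hq'
      have h1 := (mem_covers.1 (hsub hS)) q' hq'
      have hd := hQ q' hq'
      rw [Finset.disjoint_left] at hd
      rcases h1 with ⟨r, hr1, hr2, hr3⟩ | ⟨r, hr1, hr2, hr3⟩
      · left
        refine ⟨r, hr1, hr2, (hφ _ _).2 (Or.inl ⟨hr3, ?_⟩)⟩
        intro hr
        exact hd (mem_union_left _ (mem_Ra.2 ⟨hr1, hr2⟩)) (mem_union_left _ hr)
      · right
        refine ⟨r, hr1, hr2, ?_⟩
        rw [hφ]
        rintro (hr | hr)
        · exact hr3 hr.1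
        · exact hd (mem_union_right _ (mem_Rb.2 ⟨hr1, hr2⟩)) (mem_union_right _ hr)
    · intro hcon
      rcases (mem_covers.1 hcon) q (mem_insert_self _ _) with ⟨r, hr1, hr2, hr3⟩ | ⟨r, hr1, hr2, hr3⟩
      · have hrR : r ∈ R := mem_Ra.2 ⟨hr1, hr2⟩
        rw [hφ] at hr3
        rcases hr3 with hr3 | hr3
        · exact hr3.2 hrR
        · exact (Finset.disjoint_left.1 hdis) hrR hr3
      · exact hr3 ((hφ _ _).2 (Or.inr (mem_Rb.2 ⟨hr1, hr2⟩)))
  -- the fibres
  have hfib : ∀ U ∈ (covers a b c γ (insert q Q)).image φ,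
      ((covers a b c γ (insert q Q)).filter fun S => φ S = U).card ≤ 3 := by
    intro U _
    have h1 : ((covers a b c γ (insert q Q)).filter fun S => φ S = U).card ≤
        ((R ∪ R').powerset.erase R').card := by
      refine card_le_card_of_injOn (fun S => S ∩ (R ∪ R')) ?_ ?_
      · intro S hS
        rw [mem_coe, mem_filter] at hS
        rw [mem_coe, mem_erase, mem_powerset]
        refine ⟨?_, inter_subset_right⟩
        intro hcon
        change S ∩ (R ∪ R') = R' at hcon
        have hcon' : ∀ r, r ∈ S ∩ (R ∪ R') ↔ r ∈ R' := fun r => by rw [hcon]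
        rcases (mem_covers.1 hS.1) q (mem_insert_self _ _) with
          ⟨r, hr1, hr2, hr3⟩ | ⟨r, hr1, hr2, hr3⟩
        · have hrR : r ∈ R := mem_Ra.2 ⟨hr1, hr2⟩
          have h2 := (hcon' r).1 (mem_inter.2 ⟨hr3, mem_union_left _ hrR⟩)
          exact (Finset.disjoint_left.1 hdis) hrR h2
        · have hrR : r ∈ R' := mem_Rb.2 ⟨hr1, hr2⟩
          exact hr3 (mem_inter.1 ((hcon' r).2 hrR)).1
      · intro S hS S' hS' hSS
        rw [mem_coe, mem_filter] at hS hS'
        simp only at hSS
        ext r
        by_cases hr : r ∈ R ∪ R'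
        · have := congrArg (fun F => r ∈ F) hSS
          simpa [hr] using this
        · have h2 : r ∈ φ S ↔ r ∈ φ S' := by rw [hS.2, hS'.2]
          rw [mem_union, not_or] at hr
          simpa [hφ, hr.1, hr.2] using h2
    refine h1.trans ?_
    rw [card_erase_of_mem (mem_powerset.2 subset_union_right), card_powerset]
    have h2 : (R ∪ R').card ≤ 2 :=
      (card_union_le _ _).trans (add_le_add (h.card_Ra γ q) (h.card_Rb γ q))
    have h3 : 2 ^ (R ∪ R').card ≤ 2 ^ 2 := Nat.pow_le_pow_right (by norm_num) h2
    omega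
  have h1 := card_le_mul_card_image (covers a b c γ (insert q Q)) 3 hfib
  have h2 := card_le_card himg
  rw [card_sdiff_of_subset hsub] at h2
  have h3 := card_le_card hsub
  omega

/-- Few sets cover a large matching. -/
theorem Sys.cover_bound (h : Sys a b c) (γ : C) (Q : Finset E) (hc : ∀ q ∈ Q, c q ≠ γ)
    (h1 : ∀ q ∈ Q, ∀ q' ∈ Q, q ≠ q' → a q ≠ a q' ∧ b q ≠ b q') :
    ((covers a b c γ Q).card : ℝ) ≤ (10 / 11) ^ Q.card * 2 ^ Fintype.card E := by
  induction hn : Q.card using Nat.strong_induction_on generalizing Q with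
  | _ n ih =>
    rcases Q.eq_empty_or_nonempty with hQ | ⟨q, hq⟩
    · subst hQ
      subst hn
      simp only [card_empty, pow_zero, one_mul]
      have : (covers a b c γ ∅).card ≤ Fintype.card (Finset E) := card_le_univ _
      rw [Fintype.card_finset] at this
      exact_mod_cast this
    · set Q' := Q.filter fun q' => q' ≠ q ∧
        Disjoint (Ra a c γ q' ∪ Rb b c γ q') (Ra a c γ q ∪ Rb b c γ q) with hQ'
      have hsub : Q' ⊆ Q := filter_subset _ _
      have hlt : Q'.card < n := by
        rw [← hn]
        refine card_lt_card ⟨hsub, fun hcon => ?_⟩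
        have := hcon hq
        rw [hQ', mem_filter] at this
        exact this.2.1 rfl
      have hih := ih _ hlt Q' (fun q' hq' => hc q' (hsub hq'))
        (fun x hx y hy => h1 x (hsub hx) y (hsub hy)) rfl
      have hstep := h.cover_step γ q (hc q hq) Q' (fun q' hq' => (mem_filter.1 hq').2.2)
      have hmono : (covers a b c γ Q).card ≤ (covers a b c γ (insert q Q')).card := by
        refine card_le_card fun S hS => ?_
        rw [mem_covers] at hS ⊢
        intro q' hq'
        rw [mem_insert] at hq'
        rcases hq' with rfl | hq'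
        · exact hS _ hq
        · exact hS _ (hsub hq')
      -- at most three products are lost
      have hthree : n ≤ Q'.card + 3 := by
        set B1 := Q.filter fun q' => ¬ Disjoint (Rb b c γ q') (Ra a c γ q) with hB1
        set B2 := Q.filter fun q' => ¬ Disjoint (Ra a c γ q') (Rb b c γ q) with hB2
        have hcov : Q ⊆ Q' ∪ ({q} ∪ (B1 ∪ B2)) := by
          intro q' hq'
          by_cases hqq : q' = q
          · subst hqq; simp
          · by_cases hd : Disjoint (Ra a c γ q' ∪ Rb b c γ q') (Ra a c γ q ∪ Rb b c γ q)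
            · exact mem_union_left _ (mem_filter.2 ⟨hq', hqq, hd⟩)
            · refine mem_union_right _ (mem_union_right _ ?_)
              rw [Finset.not_disjoint_iff] at hd
              obtain ⟨r, hr1, hr2⟩ := hd
              rw [mem_union] at hr1 hr2
              rcases hr1 with hr1 | hr1 <;> rcases hr2 with hr2 | hr2
              · exfalso
                rw [mem_Ra] at hr1 hr2
                exact (h1 q' hq' q hq hqq).1 (hr1.2.symm.trans hr2.2)
              · refine mem_union_right _ (mem_filter.2 ⟨hq', ?_⟩)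
                rw [Finset.not_disjoint_iff]
                exact ⟨r, hr1, hr2⟩
              · refine mem_union_left _ (mem_filter.2 ⟨hq', ?_⟩)
                rw [Finset.not_disjoint_iff]
                exact ⟨r, hr1, hr2⟩
              · exfalso
                rw [mem_Rb] at hr1 hr2
                exact (h1 q' hq' q hq hqq).2 (hr1.2.symm.trans hr2.2)
        have hB1c : B1.card ≤ 1 := by
          rw [card_le_one]
          intro x hx y hy
          rw [hB1, mem_filter, Finset.not_disjoint_iff] at hx hy
          obtain ⟨hx, r, hr1, hr2⟩ := hx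
          obtain ⟨hy, s, hs1, hs2⟩ := hy
          by_contra hne
          have hrs : r = s := (card_le_one.1 (h.card_Ra γ q)) r hr2 s hs2
          subst hrs
          rw [mem_Rb] at hr1 hs1
          exact (h1 x hx y hy hne).2 (hr1.2.symm.trans hs1.2)
        have hB2c : B2.card ≤ 1 := by
          rw [card_le_one]
          intro x hx y hy
          rw [hB2, mem_filter, Finset.not_disjoint_iff] at hx hy
          obtain ⟨hx, r, hr1, hr2⟩ := hx
          obtain ⟨hy, s, hs1, hs2⟩ := hy
          by_contra hne
          have hrs : r = s := (card_le_one.1 (h.card_Rb γ q)) r hr2 s hs2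
          subst hrs
          rw [mem_Ra] at hr1 hs1
          exact (h1 x hx y hy hne).1 (hr1.2.symm.trans hs1.2)
        have h5 := card_le_card hcov
        have h6 := card_union_le Q' ({q} ∪ (B1 ∪ B2))
        have h7 := card_union_le {q} (B1 ∪ B2)
        have h8 := card_union_le B1 B2
        rw [card_singleton] at h7
        omega
      have h2 : (0 : ℝ) < 2 ^ Fintype.card E := by positivity
      have h3 : (4 : ℝ) * (covers a b c γ Q).card ≤ 3 * (covers a b c γ Q').card := by
        have : 4 * (covers a b c γ Q).card ≤ 3 * (covers a b c γ Q').card :=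
          le_trans (Nat.mul_le_mul_left 4 hmono) hstep
        exact_mod_cast this
      have h4 : ((10 : ℝ) / 11) ^ (Q'.card + 3) ≤ (10 / 11) ^ n :=
        pow_le_pow_of_le_one (by norm_num) (by norm_num) hthree
      rw [pow_add] at h4
      have h5 : ((10 : ℝ) / 11) ^ Q'.card * 2 ^ Fintype.card E ≤
          (11 / 10) ^ 3 * ((10 / 11) ^ n * 2 ^ Fintype.card E) := by
        nlinarith [pow_pos (show (0 : ℝ) < 10 / 11 by norm_num) Q'.card]
      have h6 : (0 : ℝ) < (10 / 11) ^ n * 2 ^ Fintype.card E := by positivity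
      nlinarith

end Pool.Agent.H587R2.MRC
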