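import Mathlib

/-!
# Monotone data structures for 3SUM-Indexing
-/

namespace Pool.Agent.H587R2.MRC

open Finset

/-- The numbers which a query may read: the value of a nondecreasing function of the first array,
the value of a nondecreasing function of the second array, or the contents of one of the `s`
stored cells. -/
inductive Source (s : ℕ) : Type
  | first (f : Finset ℤ → ℝ) (hf : Monotone f) : Source s
  | second (f : Finset ℤ → ℝ) (hf : Monotone f) : Source s
  | stored (j : Fin s) : Source s

/-- A monotone data structure with `s` cells and `t` probes: every cell contains a nondecreasing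
real function of the two arrays (sets of integers), and the query `z` reads `t` numbers, which
depend only on `z`, and evaluates a nondecreasing real function of them. -/
structure DS (s t : ℕ) : Type where
  /-- The contents of the cells. -/
  store : Fin s → Finset ℤ × Finset ℤ → ℝ
  store_mono : ∀ j, Monotone (store j)
  /-- The probes of the query `z`. -/
  probe : ℤ → Fin t → Source s
  /-- The function which is evaluated by the query `z`. -/
  val : ℤ → (Fin t → ℝ) → ℝ
  val_mono : ∀ z, Monotone (val z)

/-- The number which is read by a probe, if the two arrays are `A`. -/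
def DS.read {s t : ℕ} (D : DS s t) (A : Finset ℤ × Finset ℤ) : Source s → ℝ
  | Source.first f _ => f A.1
  | Source.second f _ => f A.2
  | Source.stored j => D.store j A

/-- The answer to the query `z`, if the two arrays are `A`. -/
def DS.answer {s t : ℕ} (D : DS s t) (A : Finset ℤ × Finset ℤ) (z : ℤ) : ℝ :=
  D.val z fun i => D.read A (D.probe z i)

/-- The answer to the query `z` is correct: it is positive if and only if `z` is the sum of an
element of the first array and an element of the second array. -/
def DS.Correct {s t : ℕ} (D : DS s t) (A : Finset ℤ × Finset ℤ) (z : ℤ) : Prop :=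
  0 < D.answer A z ↔ ∃ x ∈ A.1, ∃ y ∈ A.2, x + y = z

open Classical in
/-- The random data structure `D ω`, where `ω` has probability `p ω`, solves 3SUM-Indexing with
advantage `δ`: for all arrays of at most `n` integers between `-N` and `N` and for all queries
between `-2 * N` and `2 * N` the answer is correct with probability at least `1 / 2 + δ`. -/
def DSSolves (n N : ℕ) (δ : ℝ) {s t : ℕ} {Ω : Type} [Fintype Ω] (p : Ω → ℝ) (D : Ω → DS s t) :
    Prop :=
  (∀ ω, 0 ≤ p ω) ∧ ∑ ω, p ω = 1 ∧
    ∀ A : Finset ℤ × Finset ℤ, A.1.card ≤ n → A.2.card ≤ n → (∀ x ∈ A.1, |x| ≤ (N : ℤ)) →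
      (∀ y ∈ A.2, |y| ≤ (N : ℤ)) → ∀ z : ℤ, |z| ≤ 2 * (N : ℤ) →
      1 / 2 + δ ≤ ∑ ω ∈ univ.filter (fun ω => (D ω).Correct A z), p ω

end Pool.Agent.H587R2.MRC
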