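import Pool.Agent.H587R2.MRC.Total
import Pool.Agent.H587R2.MRC.DSDefs

/-!
# Monotone data structures for 3SUM-Indexing: the proof
-/

set_option linter.unusedSectionVars false

namespace Pool.Agent.H587R2.MRC

open Finset

variable {k r : ℕ}

/-- Pairs of sets of indices. -/
abbrev PtD (k r : ℕ) : Type := (Fin k × Fin r → Prop) × (Fin k × Fin r → Prop)

/-- The products. -/
abbrev ED (k r : ℕ) : Type := (Fin k × Fin r) × (Fin k × Fin r)

/-- The output of a product. -/
def cd (p : ED k r) : Fin k × Fin k × ℕ := (p.1.1, p.2.1, p.1.2.val + p.2.2.val)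

/-- The true points. -/
def tauD (p : ED k r) : PtD k r := (fun x => x = p.1, fun y => y = p.2)

/-- The false points. -/
def zetaD (γ : Fin k × Fin k × ℕ) (T : Finset (ED k r)) : PtD k r :=
  (fun x => ∀ p : ED k r, cd p = γ → p.1 = x → p ∉ T,
   fun y => ∀ p : ED k r, cd p = γ → p.2 = y → p ∈ T)

theorem sys_cd : Sys (fun p : ED k r => p.1) (fun p => p.2) cd where
  ha := by
    rintro ⟨⟨i, j⟩, ⟨i', j'⟩⟩ ⟨⟨l, m⟩, ⟨l', m'⟩⟩ h1 h2
    simp only [cd, Prod.mk.injEq] at h1 h2
    obtain ⟨-, h3, h4⟩ := h1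
    obtain ⟨h5, h6⟩ := h2
    subst h3; subst h5; subst h6
    have : j' = m' := Fin.ext (by omega)
    rw [this]
  hb := by
    rintro ⟨⟨i, j⟩, ⟨i', j'⟩⟩ ⟨⟨l, m⟩, ⟨l', m'⟩⟩ h1 h2
    simp only [cd, Prod.mk.injEq] at h1 h2
    obtain ⟨h3, -, h4⟩ := h1
    obtain ⟨h5, h6⟩ := h2
    subst h3; subst h5; subst h6
    have : j = m := Fin.ext (by omega)
    rw [this]
  hab := by
    intro p q h1 h2
    exact Prod.ext h1 h2

theorem points_cd : Points (fun p : ED k r => p.1) (fun p => p.2) cd tauD zetaD where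
  sys := sys_cd
  le := by
    intro γ T q h
    unfold Cov at h
    rw [not_or] at h
    push Not at h
    constructor
    · rintro x rfl p h2 h3
      exact h.1 p h2 h3
    · rintro y rfl p h2 h3
      exact h.2 p h2 h3

theorem tauD_le_fst (p : ED k r) (T : Finset (ED k r)) (h : p ∉ T) :
    (tauD p).1 ≤ (zetaD (cd p) T).1 := by
  rintro x rfl q h2 h3
  have : q = p := sys_cd.ha q p h2 h3
  rwa [this]

theorem tauD_le_snd (p : ED k r) (T : Finset (ED k r)) (h : p ∈ T) :
    (tauD p).2 ≤ (zetaD (cd p) T).2 := by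
  rintro x rfl q h2 h3
  have : q = p := sys_cd.hb q p h2 h3
  rwa [this]

theorem not_mixed_fst (f : (Fin k × Fin r → Prop) → ℝ) (hf : Monotone f) (p : ED k r) :
    ¬ Mixed cd tauD zetaD (fun x : PtD k r => f x.1) p := by
  intro hmix
  obtain ⟨T, hT, hp⟩ := hmix.ex_out
  rw [mem_dset] at hT
  exact absurd (hf (tauD_le_fst p T hp)) (not_le.2 hT)

theorem not_mixed_snd (f : (Fin k × Fin r → Prop) → ℝ) (hf : Monotone f) (p : ED k r) :
    ¬ Mixed cd tauD zetaD (fun x : PtD k r => f x.2) p := by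
  intro hmix
  obtain ⟨T, hT, hp⟩ := hmix.ex_in
  rw [mem_dset] at hT
  exact absurd (hf (tauD_le_snd p T hp)) (not_le.2 hT)

theorem card_cd (γ : Fin k × Fin k × ℕ) (inst : DecidablePred fun p : ED k r => cd p = γ) :
    (@filter _ (fun p : ED k r => cd p = γ) inst univ).card ≤ r := by
  calc (@filter _ (fun p : ED k r => cd p = γ) inst univ).card ≤
        (univ : Finset (Fin r)).card := by
        refine card_le_card_of_injOn (fun p => p.1.2) (fun _ _ => mem_coe.2 (mem_univ _)) ?_
        intro p hp q hq h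
        rw [mem_coe, mem_filter] at hp hq
        have h1 : cd p = cd q := hp.2.trans hq.2.symm
        refine sys_cd.ha p q h1 (Prod.ext ?_ h)
        exact congrArg (fun x : Fin k × Fin k × ℕ => x.1) h1
    _ = r := by simp

theorem card_image_cd (inst : DecidableEq (Fin k × Fin k × ℕ)) :
    ((@image _ _ inst cd (univ : Finset (ED k r))).card : ℝ) ≤ 2 * k ^ 2 * r := by
  have : (@image _ _ inst cd (univ : Finset (ED k r))).card ≤ k * (k * (2 * r)) := by
    calc (@image _ _ inst cd (univ : Finset (ED k r))).card ≤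
          ((univ : Finset (Fin k)) ×ˢ ((univ : Finset (Fin k)) ×ˢ range (2 * r))).card := by
          refine card_le_card fun γ hγ => ?_
          obtain ⟨p, -, rfl⟩ := mem_image.1 hγ
          simp only [mem_product, mem_univ, true_and, mem_range, cd]
          have := p.1.2.2
          have := p.2.2.2
          omega
      _ = k * (k * (2 * r)) := by simp
  calc ((@image _ _ inst cd (univ : Finset (ED k r))).card : ℝ) ≤
        ((k * (k * (2 * r)) : ℕ) : ℝ) := by exact_mod_cast this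
    _ = 2 * k ^ 2 * r := by push_cast; ring

/-- The elements of the first array. -/
def xd (k r : ℕ) (x : Fin k × Fin r) : ℤ := 2 * r * x.1.val + x.2.val

/-- The elements of the second array. -/
def yd (k r : ℕ) (y : Fin k × Fin r) : ℤ := 2 * r * k * y.1.val + y.2.val

/-- The queries. -/
def zd (k r : ℕ) (γ : Fin k × Fin k × ℕ) : ℤ :=
  2 * r * (γ.1.val + k * γ.2.1.val) + γ.2.2

theorem xd_bounds (x : Fin k × Fin r) : 0 ≤ xd k r x ∧ xd k r x ≤ 2 * r * k ^ 2 := by
  have h1 : ((x.1.val : ℤ)) + 1 ≤ k := by exact_mod_cast x.1.2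
  have h2 : ((x.2.val : ℤ)) + 1 ≤ r := by exact_mod_cast x.2.2
  have h3 : (0 : ℤ) ≤ x.1.val := by positivity
  have h4 : (0 : ℤ) ≤ x.2.val := by positivity
  unfold xd
  constructor
  · positivity
  · have h5 : (r : ℤ) * k * 1 ≤ r * k * k := mul_le_mul_of_nonneg_left (by linarith) (by positivity)
    nlinarith

theorem yd_bounds (y : Fin k × Fin r) : 0 ≤ yd k r y ∧ yd k r y ≤ 2 * r * k ^ 2 := by
  have h1 : ((y.1.val : ℤ)) + 1 ≤ k := by exact_mod_cast y.1.2
  have h2 : ((y.2.val : ℤ)) + 1 ≤ r := by exact_mod_cast y.2.2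
  have h3 : (0 : ℤ) ≤ y.1.val := by positivity
  have h4 : (0 : ℤ) ≤ y.2.val := by positivity
  unfold yd
  constructor
  · positivity
  · have h6 : (r : ℤ) * k * (y.1.val + 1) ≤ r * k * k :=
      mul_le_mul_of_nonneg_left h1 (by positivity)
    have h7 : (r : ℤ) * 1 ≤ r * k := mul_le_mul_of_nonneg_left (by linarith) (by positivity)
    nlinarith

theorem key_sum_d (x y : Fin k × Fin r) (γ : Fin k × Fin k × ℕ) (hγ : γ.2.2 < 2 * r)
    (h : xd k r x + yd k r y = zd k r γ) : cd (x, y) = γ := by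
  obtain ⟨i, i', d⟩ := γ
  simp only at hγ
  have h1 : (2 * r) * (x.1.val + k * y.1.val) + (x.2.val + y.2.val) =
      (2 * r) * (i.val + k * i'.val) + d := by
    unfold xd yd zd at h
    have : (((2 * r) * (x.1.val + k * y.1.val) + (x.2.val + y.2.val) : ℕ) : ℤ) =
      (((2 * r) * (i.val + k * i'.val) + d : ℕ) : ℤ) := by
      push_cast
      linarith
    exact_mod_cast this
  have h2 : x.2.val + y.2.val < 2 * r := by have := x.2.2; have := y.2.2; omega
  have hr : 0 < 2 * r := by omega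
  have h3 := congrArg (· % (2 * r)) h1
  have h4 := congrArg (· / (2 * r)) h1
  simp only [Nat.mul_add_mod, Nat.mod_eq_of_lt h2, Nat.mod_eq_of_lt hγ] at h3
  simp only [Nat.mul_add_div hr, Nat.div_eq_of_lt h2, Nat.div_eq_of_lt hγ, add_zero] at h4
  have hk : 0 < k := by have := i.2; omega
  have h5 := congrArg (· % k) h4
  have h6 := congrArg (· / k) h4
  simp only [Nat.add_mul_mod_self_left, Nat.mod_eq_of_lt x.1.2, Nat.mod_eq_of_lt i.2] at h5
  simp only [Nat.add_mul_div_left _ _ hk, Nat.div_eq_of_lt x.1.2, Nat.div_eq_of_lt i.2,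
    zero_add] at h6
  simp only [cd, Prod.mk.injEq]
  exact ⟨Fin.ext h5, Fin.ext h6, h3⟩

open Classical in
/-- The arrays of a pair of sets of indices. -/
noncomputable def arr (x : PtD k r) : Finset ℤ × Finset ℤ :=
  ((univ.filter fun i => x.1 i).image (xd k r), (univ.filter fun j => x.2 j).image (yd k r))

theorem mem_arr1 {x : PtD k r} {v : ℤ} : v ∈ (arr x).1 ↔ ∃ i, x.1 i ∧ xd k r i = v := by
  simp [arr]

theorem mem_arr2 {x : PtD k r} {v : ℤ} : v ∈ (arr x).2 ↔ ∃ i, x.2 i ∧ yd k r i = v := by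
  simp [arr]

open Classical in
theorem card_arr1 (x : PtD k r) : (arr x).1.card ≤ k * r := by
  unfold arr
  refine card_image_le.trans ((card_filter_le _ _).trans ?_)
  simp

open Classical in
theorem card_arr2 (x : PtD k r) : (arr x).2.card ≤ k * r := by
  unfold arr
  refine card_image_le.trans ((card_filter_le _ _).trans ?_)
  simp

open Classical in
/-- The first array of a set of indices. -/
noncomputable def arr1 (A : Fin k × Fin r → Prop) : Finset ℤ :=
  (univ.filter fun i => A i).image (xd k r)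

open Classical in
/-- The second array of a set of indices. -/
noncomputable def arr2 (A : Fin k × Fin r → Prop) : Finset ℤ :=
  (univ.filter fun i => A i).image (yd k r)

theorem arr1_mono : Monotone (arr1 : (Fin k × Fin r → Prop) → Finset ℤ) := by
  intro A A' h v hv
  simp only [arr1, mem_image, mem_filter, mem_univ, true_and] at hv ⊢
  obtain ⟨i, hi, hv⟩ := hv
  exact ⟨i, h i hi, hv⟩

theorem arr2_mono : Monotone (arr2 : (Fin k × Fin r → Prop) → Finset ℤ) := by
  intro A A' h v hv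
  simp only [arr2, mem_image, mem_filter, mem_univ, true_and] at hv ⊢
  obtain ⟨i, hi, hv⟩ := hv
  exact ⟨i, h i hi, hv⟩

theorem arr_mono : Monotone (arr : PtD k r → Finset ℤ × Finset ℤ) := by
  intro x x' h
  exact ⟨arr1_mono h.1, arr2_mono h.2⟩

open Classical in
/-- The bound with parameters. -/
theorem ds_param {n N s t : ℕ} {δ : ℝ} (hn : k * r ≤ n) (hN : 2 * r * k ^ 2 ≤ N)
    {Ω : Type} [Fintype Ω] (p : Ω → ℝ) (D : Ω → DS s t) (hS : DSSolves n N δ p D) :
    2 * δ * ((k * r) ^ 2 : ℝ) ≤ 240 * (t * (k ^ 2 * r)) + s * (600 + 11 * r) := by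
  obtain ⟨hp, hp1, hprob⟩ := hS
  let E := ED k r
  let Q := Σ _ : E, Finset E
  set M : ℝ := 2 ^ Fintype.card E with hM
  have hMpos : 0 < M := by positivity
  have hE : (Fintype.card E : ℝ) = (k * r) ^ 2 := by
    simp only [E, ED, Fintype.card_prod, Fintype.card_fin]
    push_cast; ring
  have hQ : (Fintype.card Q : ℝ) = (k * r) ^ 2 * M := by
    have : Fintype.card Q = Fintype.card E * 2 ^ Fintype.card E := by
      simp only [Q]
      rw [Fintype.card_sigma]
      simp only [Fintype.card_finset, sum_const, card_univ, smul_eq_mul]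
    rw [this, hM, ← hE]
    push_cast
    ring
  let G : Ω → Finset Q := fun ω => univ.filter fun q : Q =>
    (D ω).Correct (arr (tauD q.1)) (zd k r (cd q.1)) ∧
      (D ω).Correct (arr (zetaD (cd q.1) q.2)) (zd k r (cd q.1))
  -- upper bound
  have hup : ∀ ω, ((G ω).card : ℝ) ≤
      120 * M * (t * (2 * k ^ 2 * r)) + s * ((600 + 11 * r) * M) := by
    intro ω
    let W : Fin s → PtD k r → ℝ := fun j x => (D ω).store j (arr x)
    let V : Fin k × Fin k × ℕ → Fin t → PtD k r → ℝ := fun γ i x =>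
      (D ω).read (arr x) ((D ω).probe (zd k r γ) i)
    have hW : ∀ j, Monotone (W j) := fun j x x' h => (D ω).store_mono j (arr_mono h)
    have hV : ∀ γ i, (∃ j, V γ i = W j) ∨ ∀ p, ¬ Mixed cd tauD zetaD (V γ i) p := by
      intro γ i
      cases hsrc : (D ω).probe (zd k r γ) i with
      | first f hf =>
        right
        intro p
        have h1 : V γ i = fun x : PtD k r => (fun A => f (arr1 A)) x.1 := by
          funext x
          simp only [V, hsrc, DS.read]
          rfl
        rw [h1]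
        exact not_mixed_fst _ (fun A A' h => hf (arr1_mono h)) p
      | second f hf =>
        right
        intro p
        have h1 : V γ i = fun x : PtD k r => (fun A => f (arr2 A)) x.2 := by
          funext x
          simp only [V, hsrc, DS.read]
          rfl
        rw [h1]
        exact not_mixed_snd _ (fun A A' h => hf (arr2_mono h)) p
      | stored j =>
        left
        refine ⟨j, ?_⟩
        funext x
        simp only [V, hsrc, DS.read]
        rfl
    have h1 := (points_cd (k := k) (r := r)).count_ds (fun γ => card_cd γ _) W hW V hV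
      (fun γ => (D ω).val (zd k r γ)) (fun γ => (D ω).val_mono _)
    have h2 : (G ω).card ≤ (univ.filter fun q : Q =>
        (D ω).val (zd k r (cd q.1)) (fun i => V (cd q.1) i (zetaD (cd q.1) q.2)) <
        (D ω).val (zd k r (cd q.1)) (fun i => V (cd q.1) i (tauD q.1))).card := by
      refine card_le_card fun q hq => ?_
      rw [mem_filter] at hq ⊢
      refine ⟨mem_univ _, ?_⟩
      obtain ⟨-, h3, h4⟩ := hq
      have h5 : 0 < (D ω).answer (arr (tauD q.1)) (zd k r (cd q.1)) := by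
        refine h3.2 ⟨xd k r q.1.1, mem_arr1.2 ⟨_, rfl, rfl⟩, yd k r q.1.2,
          mem_arr2.2 ⟨_, rfl, rfl⟩, ?_⟩
        simp only [xd, yd, zd, cd]
        push_cast
        ring
      have h6 : ¬ 0 < (D ω).answer (arr (zetaD (cd q.1) q.2)) (zd k r (cd q.1)) := by
        intro hcon
        obtain ⟨u, hu, v, hv, huv⟩ := h4.1 hcon
        obtain ⟨i, hi, rfl⟩ := mem_arr1.1 hu
        obtain ⟨j, hj, rfl⟩ := mem_arr2.1 hv
        have hlt : (cd q.1).2.2 < 2 * r := by
          simp only [cd]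
          have := q.1.1.2.2
          have := q.1.2.2.2
          omega
        have h7 := key_sum_d i j (cd q.1) hlt huv
        have h8 : (i, j) ∉ q.2 := hi (i, j) h7 rfl
        have h9 : (i, j) ∈ q.2 := hj (i, j) h7 rfl
        exact h8 h9
      exact lt_of_le_of_lt (not_lt.1 h6) h5
    have h3 : ((G ω).card : ℝ) ≤ ((univ.filter fun q : Q =>
        (D ω).val (zd k r (cd q.1)) (fun i => V (cd q.1) i (zetaD (cd q.1) q.2)) <
        (D ω).val (zd k r (cd q.1)) (fun i => V (cd q.1) i (tauD q.1))).card : ℝ) := by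
      exact_mod_cast h2
    refine h3.trans (h1.trans (add_le_add ?_ (le_refl _)))
    refine mul_le_mul_of_nonneg_left ?_ (by positivity)
    exact mul_le_mul_of_nonneg_left (card_image_cd _) (by positivity)
  -- lower bound
  have hlow : (k * r : ℝ) ^ 2 * M * (2 * δ) ≤ ∑ ω, p ω * ((G ω).card : ℝ) := by
    have hx : ∀ x : PtD k r, (arr x).1.card ≤ n ∧ (arr x).2.card ≤ n ∧
        (∀ u ∈ (arr x).1, |u| ≤ (N : ℤ)) ∧ ∀ u ∈ (arr x).2, |u| ≤ (N : ℤ) := by
      intro x
      have hN' : (2 * r * k ^ 2 : ℤ) ≤ N := by exact_mod_cast hN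
      refine ⟨(card_arr1 x).trans hn, (card_arr2 x).trans hn, ?_, ?_⟩
      · intro u hu
        obtain ⟨i, -, rfl⟩ := mem_arr1.1 hu
        have h1 := xd_bounds i
        rw [abs_of_nonneg h1.1]
        exact h1.2.trans hN'
      · intro u hu
        obtain ⟨i, -, rfl⟩ := mem_arr2.1 hu
        have h1 := yd_bounds i
        rw [abs_of_nonneg h1.1]
        exact h1.2.trans hN'
    have hz : ∀ q : E, |zd k r (cd q)| ≤ 2 * (N : ℤ) := by
      intro q
      have h1 := xd_bounds q.1
      have h2 := yd_bounds q.2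
      have h3 : zd k r (cd q) = xd k r q.1 + yd k r q.2 := by
        simp only [xd, yd, zd, cd]
        push_cast
        ring
      have hN' : (2 * r * k ^ 2 : ℤ) ≤ N := by exact_mod_cast hN
      rw [h3, abs_of_nonneg (by linarith)]
      linarith
    have h1 : ∀ q : Q, 2 * δ ≤ ∑ ω, p ω * (if q ∈ G ω then (1 : ℝ) else 0) := by
      intro q
      have ha := hprob (arr (tauD q.1)) (hx _).1 (hx _).2.1 (hx _).2.2.1 (hx _).2.2.2
        (zd k r (cd q.1)) (hz q.1)
      have hb := hprob (arr (zetaD (cd q.1) q.2)) (hx _).1 (hx _).2.1 (hx _).2.2.1 (hx _).2.2.2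
        (zd k r (cd q.1)) (hz q.1)
      rw [sum_filter] at ha hb
      have h2 : ∀ ω, (if (D ω).Correct (arr (tauD q.1)) (zd k r (cd q.1)) then p ω else 0) +
          (if (D ω).Correct (arr (zetaD (cd q.1) q.2)) (zd k r (cd q.1)) then p ω
          else 0) - p ω ≤ p ω * (if q ∈ G ω then (1 : ℝ) else 0) := by
        intro ω
        have hpω := hp ω
        by_cases hA : (D ω).Correct (arr (tauD q.1)) (zd k r (cd q.1))
        · by_cases hC : (D ω).Correct (arr (zetaD (cd q.1) q.2)) (zd k r (cd q.1))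
          · have : q ∈ G ω := by
              simp only [G, mem_filter, mem_univ, true_and]
              exact ⟨hA, hC⟩
            simp only [hA, hC, this, if_true]
            linarith
          · simp only [hA, hC, if_true, if_false]
            split_ifs <;> linarith
        · simp only [hA, if_false]
          by_cases hC : (D ω).Correct (arr (zetaD (cd q.1) q.2)) (zd k r (cd q.1))
          · simp only [hC, if_true]
            split_ifs <;> linarith
          · simp only [hC, if_false]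
            split_ifs <;> linarith
      have h3 := sum_le_sum fun ω (_ : ω ∈ (univ : Finset Ω)) => h2 ω
      rw [sum_sub_distrib, sum_add_distrib, hp1] at h3
      linarith
    have h5 : ∀ ω, ((G ω).card : ℝ) = ∑ x : Q, (if x ∈ G ω then (1 : ℝ) else 0) := by
      intro ω
      simp
    calc (k * r : ℝ) ^ 2 * M * (2 * δ) = ∑ x : Q, 2 * δ := by
          rw [sum_const, nsmul_eq_mul, card_univ, hQ]
      _ ≤ ∑ x : Q, ∑ ω, p ω * (if x ∈ G ω then (1 : ℝ) else 0) :=
          sum_le_sum fun x _ => h1 x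
      _ = ∑ ω, ∑ x : Q, p ω * (if x ∈ G ω then (1 : ℝ) else 0) := sum_comm
      _ = ∑ ω, p ω * ((G ω).card : ℝ) := by
          refine sum_congr rfl fun ω _ => ?_
          rw [h5, mul_sum]
  have hfin : (2 * δ * ((k * r) ^ 2 : ℝ)) * M ≤
      (240 * (t * (k ^ 2 * r)) + s * (600 + 11 * r)) * M := by
    calc (2 * δ * ((k * r) ^ 2 : ℝ)) * M = (k * r : ℝ) ^ 2 * M * (2 * δ) := by ring
      _ ≤ ∑ ω, p ω * ((G ω).card : ℝ) := hlow
      _ ≤ ∑ ω, p ω * (120 * M * (t * (2 * k ^ 2 * r)) + s * ((600 + 11 * r) * M)) :=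
          sum_le_sum fun ω _ => mul_le_mul_of_nonneg_left (hup ω) (hp ω)
      _ = 120 * M * (t * (2 * k ^ 2 * r)) + s * ((600 + 11 * r) * M) := by
          rw [← sum_mul, hp1, one_mul]
      _ = _ := by ring
  exact le_of_mul_le_mul_right hfin hMpos

/-- The space-time tradeoff. -/
theorem ds_bound {n N s t : ℕ} {δ : ℝ} (hδ : 0 < δ) (hδ2 : δ ≤ 1 / 2) (ht : 1 ≤ t)
    (hn : 482 * (t : ℝ) ≤ δ * n) (hN : n ^ 2 ≤ N)
    {Ω : Type} [Fintype Ω] (p : Ω → ℝ) (D : Ω → DS s t) (hS : DSSolves n N δ p D) :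
    δ ^ 2 * (n : ℝ) ^ 2 ≤ 12000 * (s * t) := by
  have ht' : (1 : ℝ) ≤ t := by exact_mod_cast ht
  set r : ℕ := ⌈240 * (t : ℝ) / δ⌉₊ with hr
  have hr1 : 240 * (t : ℝ) / δ ≤ r := Nat.le_ceil _
  have hr1' : 240 * (t : ℝ) ≤ δ * r := by
    have := (div_le_iff₀ hδ).1 hr1
    linarith
  have hr480 : (480 : ℝ) ≤ r := by
    have h1 : (0 : ℝ) ≤ r := by positivity
    nlinarith
  have hr2 : δ * r ≤ 241 * t := by
    have h0 : (r : ℝ) ≤ 240 * (t : ℝ) / δ + 1 :=
      (Nat.ceil_lt_add_one (show 0 ≤ 240 * (t : ℝ) / δ by positivity)).le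
    have h1 : δ * (240 * (t : ℝ) / δ + 1) = 240 * t + δ := by field_simp
    have h2 := mul_le_mul_of_nonneg_left h0 hδ.le
    linarith
  have hrpos : (0 : ℝ) < r := by linarith
  have hrpos' : 0 < r := by exact_mod_cast hrpos
  have hn2r : 2 * (r : ℝ) ≤ n := by
    have h1 : δ * (2 * r) ≤ δ * n := by nlinarith
    exact le_of_mul_le_mul_left h1 hδ
  set k : ℕ := n / r with hk
  have hkr : k * r ≤ n := Nat.div_mul_le_self n r
  have hkr2 : (n : ℝ) ≤ 2 * (k * r) := by
    have h1 : (n : ℝ) < r * (k + 1) := by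
      exact_mod_cast Nat.lt_mul_div_succ n hrpos'
    nlinarith
  have hN' : 2 * r * k ^ 2 ≤ N := by
    refine le_trans ?_ hN
    have h1 : (k * r) ^ 2 ≤ n ^ 2 := Nat.pow_le_pow_left hkr 2
    have h2 : 2 ≤ r := by
      have : (2 : ℝ) ≤ r := by linarith
      exact_mod_cast this
    calc 2 * r * k ^ 2 ≤ r * r * k ^ 2 := Nat.mul_le_mul_right _ (Nat.mul_le_mul_right _ h2)
      _ = (k * r) ^ 2 := by ring
      _ ≤ n ^ 2 := h1
  have h := ds_param (k := k) (r := r) hkr hN' p D hS
  have hs0 : (0 : ℝ) ≤ s := by positivity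
  have h1 : 240 * ((t : ℝ) * (k ^ 2 * r)) ≤ δ * (k * r) ^ 2 := by
    have : (0 : ℝ) ≤ (k : ℝ) ^ 2 * r := by positivity
    calc 240 * ((t : ℝ) * (k ^ 2 * r)) = (240 * t) * (k ^ 2 * r) := by ring
      _ ≤ (δ * r) * (k ^ 2 * r) := mul_le_mul_of_nonneg_right hr1' this
      _ = δ * (k * r) ^ 2 := by ring
  have h2 : (s : ℝ) * (600 + 11 * r) ≤ s * (49 / 4 * r) :=
    mul_le_mul_of_nonneg_left (by linarith) hs0
  have h3 : δ * (k * r : ℝ) ^ 2 ≤ s * (49 / 4 * r) := by linarith
  have h4 : (n : ℝ) ^ 2 ≤ 4 * (k * r) ^ 2 := by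
    have : (n : ℝ) ^ 2 ≤ (2 * (k * r)) ^ 2 := pow_le_pow_left₀ (by positivity) hkr2 2
    linarith
  calc δ ^ 2 * (n : ℝ) ^ 2 ≤ δ ^ 2 * (4 * (k * r) ^ 2) :=
        mul_le_mul_of_nonneg_left h4 (by positivity)
    _ = 4 * δ * (δ * (k * r : ℝ) ^ 2) := by ring
    _ ≤ 4 * δ * (s * (49 / 4 * r)) := mul_le_mul_of_nonneg_left h3 (by positivity)
    _ = 49 * s * (δ * r) := by ring
    _ ≤ 49 * s * (241 * t) := mul_le_mul_of_nonneg_left hr2 (by positivity)
    _ ≤ 12000 * (s * t) := by nlinarith [mul_nonneg hs0 (show (0 : ℝ) ≤ t by positivity)]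

end Pool.Agent.H587R2.MRC
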