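import Mathlib

/-!
# Families of sets which are biased in many coordinates are small
-/

namespace Pool.Agent.H587R2.MRC

open Finset

open Classical

variable {E : Type} [Fintype E]

/-- A family of sets, in which every coordinate of `U` is biased, is small. -/
theorem biased_small (F : Finset (Finset E)) (U : Finset E)
    (h : ∀ p ∈ U, 4 * (F.filter fun S => p ∈ S).card ≤ F.card ∨
      4 * (F.filter fun S => p ∉ S).card ≤ F.card) :
    (F.card : ℝ) ≤ (9 / 10) ^ U.card * 2 ^ Fintype.card E := by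
  -- `mn p S` means that `S` belongs to the minority at `p`
  let mn : E → Finset E → Prop := fun p S =>
    if 4 * (F.filter fun S => p ∈ S).card ≤ F.card then p ∈ S else p ∉ S
  let m : Finset E → ℕ := fun S => (U.filter fun p => mn p S).card
  have hmn : ∀ p ∈ U, 4 * (F.filter fun S => mn p S).card ≤ F.card := by
    intro p hp
    by_cases h1 : 4 * (F.filter fun S => p ∈ S).card ≤ F.card
    · simp only [mn, if_pos h1]; exact h1
    · simp only [mn, if_neg h1]
      exact (h p hp).resolve_left h1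
  have hsum : 4 * ∑ S ∈ F, m S ≤ U.card * F.card := by
    have h1 : ∑ S ∈ F, m S = ∑ p ∈ U, (F.filter fun S => mn p S).card := by
      simp only [m, card_filter]
      exact sum_comm
    rw [h1, mul_sum]
    calc ∑ p ∈ U, 4 * (F.filter fun S => mn p S).card ≤ ∑ _p ∈ U, F.card := sum_le_sum hmn
      _ = U.card * F.card := by simp
  -- the sum over all sets
  have hall : ∑ S : Finset E, ((1 : ℝ) / 2) ^ m S = (3 / 4) ^ U.card * 2 ^ Fintype.card E := by
    have h1 : ∀ S : Finset E, ((1 : ℝ) / 2) ^ m S =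
        (∏ p ∈ S, (if p ∈ U ∧ 4 * (F.filter fun S => p ∈ S).card ≤ F.card then (1 : ℝ) / 2 else 1)) *
        ∏ p ∈ univ \ S,
          (if p ∈ U ∧ ¬ 4 * (F.filter fun S => p ∈ S).card ≤ F.card then (1 : ℝ) / 2 else 1) := by
      intro S
      have h2 : ((1 : ℝ) / 2) ^ m S = ∏ p : E, (if p ∈ U ∧ mn p S then (1 : ℝ) / 2 else 1) := by
        have h3 : (U.filter fun p => mn p S) = univ.filter fun p => p ∈ U ∧ mn p S := by
          ext p
          simp
        rw [prod_ite, prod_const, prod_const_one, mul_one, ← h3]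
      rw [h2, ← prod_sdiff (subset_univ S), mul_comm]
      congr 1
      · refine prod_congr rfl fun p hp => ?_
        by_cases hb : 4 * (F.filter fun S => p ∈ S).card ≤ F.card
        · simp only [mn, if_pos hb, hp, and_true, hb]
        · simp only [mn, if_neg hb, hp, not_true_eq_false, and_false, hb]
      · refine prod_congr rfl fun p hp => ?_
        rw [mem_sdiff] at hp
        by_cases hb : 4 * (F.filter fun S => p ∈ S).card ≤ F.card
        · simp only [mn, if_pos hb, hp.2, and_false, hb, not_true_eq_false]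
        · simp only [mn, if_neg hb, hp.2, not_false_eq_true, and_true, hb]
    rw [sum_congr rfl fun S _ => h1 S]
    have h2 := prod_add
      (fun p => if p ∈ U ∧ 4 * (F.filter fun S => p ∈ S).card ≤ F.card then (1 : ℝ) / 2 else 1)
      (fun p => if p ∈ U ∧ ¬ 4 * (F.filter fun S => p ∈ S).card ≤ F.card then (1 : ℝ) / 2 else 1)
      (univ : Finset E)
    rw [powerset_univ] at h2
    rw [← h2]
    have h3 : ∀ p : E,
        ((if p ∈ U ∧ 4 * (F.filter fun S => p ∈ S).card ≤ F.card then (1 : ℝ) / 2 else 1) +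
        (if p ∈ U ∧ ¬ 4 * (F.filter fun S => p ∈ S).card ≤ F.card then (1 : ℝ) / 2 else 1)) =
        (if p ∈ U then (3 : ℝ) / 4 else 1) * 2 := by
      intro p
      by_cases hp : p ∈ U
      · by_cases hb : 4 * (F.filter fun S => p ∈ S).card ≤ F.card
        · simp only [hp, hb, and_self, if_true, not_true_eq_false, and_false, if_false]; norm_num
        · simp only [hp, hb, and_false, if_false, not_false_eq_true, and_self, if_true]; norm_num
      · simp only [hp, false_and, if_false]; norm_num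
    rw [prod_congr rfl fun p _ => h3 p, prod_mul_distrib, prod_const, card_univ, prod_ite,
      prod_const, prod_const_one, mul_one]
    congr 3
    ext p
    simp
  -- the tangent line
  have hlow : (F.card : ℝ) * (5 / 6) ^ U.card ≤ ∑ S ∈ F, ((1 : ℝ) / 2) ^ m S := by
    set t0 : ℝ := -(Real.log 2 * U.card / 4) with ht0
    have hlog : 0 < Real.log 2 := Real.log_pos (by norm_num)
    have h1 : ((5 : ℝ) / 6) ^ U.card ≤ Real.exp t0 := by
      have h2 : (5 : ℝ) / 6 ≤ Real.exp (-(Real.log 2 / 4)) := by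
        rw [← Real.log_le_iff_le_exp (by norm_num)]
        have h3 : 4 * Real.log (5 / 6) ≤ -Real.log 2 := by
          have h4 : Real.log (((5 : ℝ) / 6) ^ 4) ≤ Real.log (2⁻¹) :=
            Real.log_le_log (by norm_num) (by norm_num)
          rw [Real.log_pow, Real.log_inv] at h4
          exact_mod_cast h4
        linarith
      calc ((5 : ℝ) / 6) ^ U.card ≤ (Real.exp (-(Real.log 2 / 4))) ^ U.card :=
            pow_le_pow_left₀ (by norm_num) h2 _
        _ = Real.exp t0 := by
            rw [← Real.exp_nat_mul, ht0]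
            congr 1
            ring
    have h2 : ∀ S ∈ F, Real.exp t0 * (1 + (-(Real.log 2 * m S) - t0)) ≤ ((1 : ℝ) / 2) ^ m S := by
      intro S _
      have h3 := Real.add_one_le_exp (-(Real.log 2 * m S) - t0)
      have h4 : ((1 : ℝ) / 2) ^ m S = Real.exp t0 * Real.exp (-(Real.log 2 * m S) - t0) := by
        rw [← Real.exp_add]
        have h5 : (1 : ℝ) / 2 = Real.exp (-Real.log 2) := by
          rw [Real.exp_neg, Real.exp_log (by norm_num)]; norm_num
        rw [h5, ← Real.exp_nat_mul]
        congr 1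
        ring
      rw [h4]
      exact mul_le_mul_of_nonneg_left (by linarith) (Real.exp_pos _).le
    have h3 := sum_le_sum h2
    rw [← mul_sum, sum_add_distrib, sum_const, nsmul_eq_mul, mul_one, sum_sub_distrib, sum_neg_distrib,
      ← mul_sum, sum_const, nsmul_eq_mul] at h3
    have h4 : (4 : ℝ) * ∑ S ∈ F, (m S : ℝ) ≤ U.card * F.card := by exact_mod_cast hsum
    have h5 : (F.card : ℝ) ≤ (F.card : ℝ) + (-(Real.log 2 * ∑ S ∈ F, (m S : ℝ)) - F.card * t0) := by
      rw [ht0]
      nlinarith
    calc (F.card : ℝ) * (5 / 6) ^ U.card ≤ F.card * Real.exp t0 :=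
          mul_le_mul_of_nonneg_left h1 (by positivity)
      _ = Real.exp t0 * F.card := mul_comm _ _
      _ ≤ Real.exp t0 * ((F.card : ℝ) + (-(Real.log 2 * ∑ S ∈ F, (m S : ℝ)) - F.card * t0)) :=
          mul_le_mul_of_nonneg_left h5 (Real.exp_pos _).le
      _ ≤ _ := h3
  have hle : ∑ S ∈ F, ((1 : ℝ) / 2) ^ m S ≤ ∑ S : Finset E, ((1 : ℝ) / 2) ^ m S :=
    sum_le_sum_of_subset_of_nonneg (subset_univ _) fun _ _ _ => by positivity
  have hfin : (F.card : ℝ) * (5 / 6) ^ U.card ≤ (3 / 4) ^ U.card * 2 ^ Fintype.card E := by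
    rw [← hall]; exact hlow.trans hle
  have h56 : (0 : ℝ) < (5 / 6) ^ U.card := by positivity
  have h910 : ((9 : ℝ) / 10) ^ U.card * (5 / 6) ^ U.card = (3 / 4) ^ U.card := by
    rw [← mul_pow]; norm_num
  have : (F.card : ℝ) * (5 / 6) ^ U.card ≤
      ((9 / 10) ^ U.card * 2 ^ Fintype.card E) * (5 / 6) ^ U.card := by
    calc (F.card : ℝ) * (5 / 6) ^ U.card ≤ (3 / 4) ^ U.card * 2 ^ Fintype.card E := hfin
      _ = _ := by rw [← h910]; ring
  exact le_of_mul_le_mul_right this h56

/-- The level of a nonempty family. -/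
noncomputable def level (F : Finset (Finset E)) : ℕ := Fintype.card E - Nat.log 2 F.card

theorem level_bounds {F : Finset (Finset E)} (hF : F.Nonempty) :
    (2 : ℝ) ^ Fintype.card E ≤ 2 ^ level F * F.card ∧
      2 ^ level F * (F.card : ℝ) ≤ 2 * 2 ^ Fintype.card E := by
  have h0 : F.card ≠ 0 := (card_pos.2 hF).ne'
  have h1 : 2 ^ Nat.log 2 F.card ≤ F.card := Nat.pow_log_le_self 2 h0
  have h2 : F.card < 2 ^ (Nat.log 2 F.card + 1) := Nat.lt_pow_succ_log_self (by norm_num) _
  have h3 : F.card ≤ 2 ^ Fintype.card E := by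
    have : F.card ≤ Fintype.card (Finset E) := card_le_univ _
    rwa [Fintype.card_finset] at this
  have h4 : Nat.log 2 F.card ≤ Fintype.card E := by
    calc Nat.log 2 F.card ≤ Nat.log 2 (2 ^ Fintype.card E) := Nat.log_mono_right h3
      _ = Fintype.card E := Nat.log_pow (by norm_num) _
  have h5 : level F + Nat.log 2 F.card = Fintype.card E := by unfold level; omega
  constructor
  · rw [← h5, pow_add]
    have : ((2 : ℝ) ^ Nat.log 2 F.card) ≤ F.card := by exact_mod_cast h1
    exact mul_le_mul_of_nonneg_left this (by positivity)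
  · rw [← h5, pow_add]
    have : (F.card : ℝ) ≤ 2 ^ (Nat.log 2 F.card + 1) := by exact_mod_cast h2.le
    rw [pow_succ] at this
    nlinarith [pow_pos (show (0 : ℝ) < 2 by norm_num) (level F)]

/-- The sum of `n * y ^ n`. -/
theorem sum_mul_pow_le (N : ℕ) : ∑ n ∈ range N, 7 * (n : ℝ) * (71 / 100) ^ n ≤ 60 := by
  have h : ∀ N : ℕ, ∑ n ∈ range N, 7 * (n : ℝ) * (71 / 100) ^ n ≤
      60 - (71 / 100) ^ N * (60 + 242 / 10 * N) := by
    intro N
    induction N with
    | zero => norm_num
    | succ N ih =>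
      rw [sum_range_succ]
      have h1 : (0 : ℝ) ≤ (71 / 100) ^ N := by positivity
      have h2 : (0 : ℝ) ≤ N := by positivity
      push_cast
      rw [pow_succ]
      nlinarith [mul_nonneg h1 h2]
  refine (h N).trans ?_
  have : (0 : ℝ) ≤ (71 / 100) ^ N * (60 + 242 / 10 * N) := by positivity
  linarith

/-- The sum over a set with few elements of every level. -/
theorem sum_level_le {V : Type} (U : Finset V) (s : V → ℕ)
    (h : ∀ n, (U.filter fun p => s p = n).card ≤ 7 * n) :
    ∑ p ∈ U, ((71 : ℝ) / 100) ^ s p ≤ 60 := by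
  obtain ⟨N, hN⟩ : ∃ N, ∀ p ∈ U, s p < N := ⟨U.sup s + 1, fun p hp =>
    Nat.lt_succ_of_le (le_sup (f := s) hp)⟩
  have h1 : ∑ p ∈ U, ((71 : ℝ) / 100) ^ s p =
      ∑ n ∈ range N, ∑ p ∈ U.filter (fun p => s p = n), ((71 : ℝ) / 100) ^ s p :=
    (sum_fiberwise_of_maps_to (fun p hp => mem_range.2 (hN p hp)) _).symm
  rw [h1]
  refine le_trans (sum_le_sum fun n _ => ?_) (sum_mul_pow_le N)
  calc ∑ p ∈ U.filter (fun p => s p = n), ((71 : ℝ) / 100) ^ s p
      = ∑ _p ∈ U.filter (fun p => s p = n), ((71 : ℝ) / 100) ^ n :=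
        sum_congr rfl fun p hp => by rw [(mem_filter.1 hp).2]
    _ = ((U.filter fun p => s p = n).card : ℝ) * (71 / 100) ^ n := by
        rw [sum_const, nsmul_eq_mul]
    _ ≤ (7 * n : ℝ) * (71 / 100) ^ n := by
        refine mul_le_mul_of_nonneg_right ?_ (by positivity)
        exact_mod_cast h n

end Pool.Agent.H587R2.MRC
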