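import Pool.Agent.H587R2.MRC.Cover
import Pool.Agent.H587R2.MRC.Entropy

/-!
# Mixed products
-/

namespace Pool.Agent.H587R2.MRC

open Finset

open Classical

variable {E A B C X : Type} [Fintype E] {a : E → A} {b : E → B} {c : E → C}

/-- The sets `S` for which `W` distinguishes the true point of `p` from the false point. -/
noncomputable def dset (c : E → C) (τ : E → X) (ζ : C → Finset E → X) (W : X → ℝ) (p : E) :
    Finset (Finset E) :=
  univ.filter fun S => W (ζ (c p) S) < W (τ p)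

/-- Mixed products: neither `x (a p)` nor `y (b p)` is `0` in more than `7 / 8` of the sets which
are distinguished. -/
def Mixed (c : E → C) (τ : E → X) (ζ : C → Finset E → X) (W : X → ℝ) (p : E) : Prop :=
  (dset c τ ζ W p).Nonempty ∧
    (dset c τ ζ W p).card ≤ 8 * ((dset c τ ζ W p).filter fun S => p ∈ S).card ∧
    (dset c τ ζ W p).card ≤ 8 * ((dset c τ ζ W p).filter fun S => p ∉ S).card

variable {τ : E → X} {ζ : C → Finset E → X}

theorem mem_dset {W : X → ℝ} {p : E} {S : Finset E} :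
    S ∈ dset c τ ζ W p ↔ W (ζ (c p) S) < W (τ p) := by simp [dset]

variable [Preorder X]

/-- The hypotheses on the points. -/
structure Points (a : E → A) (b : E → B) (c : E → C) (τ : E → X) (ζ : C → Finset E → X) :
    Prop where
  sys : Sys a b c
  le : ∀ γ S q, ¬ Cov a b c γ q S → τ q ≤ ζ γ S

theorem Points.cov (h : Points a b c τ ζ) {W : X → ℝ} (hW : Monotone W) {p q : E} {S : Finset E}
    (hS : S ∈ dset c τ ζ W p) (hpq : W (τ p) ≤ W (τ q)) : Cov a b c (c p) q S := by
  by_contra hcon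
  have h1 := hW (h.le _ _ _ hcon)
  rw [mem_dset] at hS
  linarith

theorem Points.dset_le_cover (h : Points a b c τ ζ) {W : X → ℝ} (hW : Monotone W) {p : E}
    (Q : Finset E) (hQ : ∀ q ∈ Q, W (τ p) ≤ W (τ q)) (hc : ∀ q ∈ Q, c q ≠ c p)
    (h1 : ∀ q ∈ Q, ∀ q' ∈ Q, q ≠ q' → a q ≠ a q' ∧ b q ≠ b q') :
    ((dset c τ ζ W p).card : ℝ) ≤ (10 / 11) ^ Q.card * 2 ^ Fintype.card E := by
  refine le_trans ?_ (h.sys.cover_bound (c p) Q hc h1)
  have : (dset c τ ζ W p).card ≤ (covers a b c (c p) Q).card := by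
    refine card_le_card fun S hS => ?_
    rw [mem_covers]
    exact fun q hq => h.cov hW hS (hQ q hq)
  exact_mod_cast this

theorem card_disjoint (F : Finset (Finset E)) (R : Finset E) (h : ∀ S ∈ F, Disjoint S R) :
    F.card * 2 ^ R.card ≤ 2 ^ Fintype.card E := by
  have h1 : F.card ≤ (Rᶜ.powerset).card := by
    refine card_le_card fun S hS => ?_
    rw [mem_powerset]
    intro r hr
    rw [mem_compl]
    exact Finset.disjoint_left.1 (h S hS) hr
  rw [card_powerset, card_compl] at h1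
  have h2 : R.card ≤ Fintype.card E := card_le_univ _
  calc F.card * 2 ^ R.card ≤ 2 ^ (Fintype.card E - R.card) * 2 ^ R.card :=
        Nat.mul_le_mul_right _ h1
    _ = 2 ^ Fintype.card E := by rw [← pow_add, Nat.sub_add_cancel h2]

theorem card_superset (F : Finset (Finset E)) (R : Finset E) (h : ∀ S ∈ F, R ⊆ S) :
    F.card * 2 ^ R.card ≤ 2 ^ Fintype.card E := by
  have h1 : (F.image compl).card = F.card := card_image_of_injective _ compl_injective
  rw [← h1]
  refine card_disjoint _ R fun S hS => ?_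
  obtain ⟨S', hS', rfl⟩ := mem_image.1 hS
  rw [Finset.disjoint_left]
  intro r hr hr'
  rw [mem_compl] at hr
  exact hr (h S' hS' hr')

/-- A star at `x (a p)` of products with larger values makes the set of a mixed product small. -/
theorem Points.mixed_a (h : Points a b c τ ζ) {W : X → ℝ} (hW : Monotone W) {p : E}
    (hp : Mixed c τ ζ W p) (B' : Finset E)
    (hB : ∀ q ∈ B', a q = a p ∧ q ≠ p ∧ W (τ p) ≤ W (τ q)) :
    (dset c τ ζ W p).card * 2 ^ B'.card ≤ 4 * 2 ^ Fintype.card E := by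
  obtain ⟨hne, -, h8⟩ := hp
  set D := dset c τ ζ W p with hD
  set D' := D.filter fun S => p ∉ S with hD'
  have hpos : 0 < D'.card := by
    have := card_pos.2 hne
    omega
  obtain ⟨S0, hS0⟩ := card_pos.1 hpos
  have hkey : ∀ S ∈ D', ∀ q ∈ B', ∃ r, c r = c p ∧ b r = b q ∧ r ∉ S := by
    intro S hS q hq
    rw [hD', mem_filter] at hS
    obtain ⟨h1, h2, h3⟩ := hB q hq
    rcases h.cov hW hS.1 h3 with ⟨r, hr1, hr2, hr3⟩ | hr
    · exfalso
      have : r = p := h.sys.ha _ _ hr1 (hr2.trans h1)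
      subst this
      exact hS.2 hr3
    · exact hr
  set R := univ.filter fun r => c r = c p ∧ ∃ q ∈ B', b r = b q with hR
  have hBR : B'.card ≤ R.card := by
    choose! f hf using hkey S0 hS0
    refine card_le_card_of_injOn f ?_ ?_
    · intro q hq
      rw [mem_coe] at hq
      rw [mem_coe, hR, mem_filter]
      exact ⟨mem_univ _, (hf q hq).1, q, hq, (hf q hq).2.1⟩
    · intro q hq q' hq' hff
      rw [mem_coe] at hq hq'
      have e1 := (hf q hq).2.1
      have e2 := (hf q' hq').2.1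
      rw [hff] at e1
      exact h.sys.hab _ _ ((hB q hq).1.trans (hB q' hq').1.symm) (e1.symm.trans e2)
  have hpR : p ∉ R := by
    intro hcon
    rw [hR, mem_filter] at hcon
    obtain ⟨-, -, q, hq, hbq⟩ := hcon
    exact (hB q hq).2.1 (h.sys.hab _ _ (hB q hq).1 hbq.symm)
  have hdis : ∀ S ∈ D', Disjoint S (insert p R) := by
    intro S hS
    rw [Finset.disjoint_right]
    intro r hr
    rw [mem_insert] at hr
    rcases hr with rfl | hr
    · exact (mem_filter.1 hS).2
    · rw [hR, mem_filter] at hr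
      obtain ⟨-, hcr, q, hq, hbq⟩ := hr
      obtain ⟨r', hr1, hr2, hr3⟩ := hkey S hS q hq
      have : r = r' := h.sys.hb _ _ (hcr.trans hr1.symm) (hbq.trans hr2.symm)
      rwa [this]
  have h1 := card_disjoint D' (insert p R) hdis
  rw [card_insert_of_notMem hpR, pow_succ] at h1
  have h2 : 2 ^ B'.card ≤ 2 ^ R.card := Nat.pow_le_pow_right (by norm_num) hBR
  calc D.card * 2 ^ B'.card ≤ (8 * D'.card) * 2 ^ R.card := Nat.mul_le_mul h8 h2
    _ = 4 * (D'.card * (2 ^ R.card * 2)) := by ring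
    _ ≤ 4 * 2 ^ Fintype.card E := Nat.mul_le_mul_left 4 h1

/-- A star at `y (b p)` of products with larger values makes the set of a mixed product small. -/
theorem Points.mixed_b (h : Points a b c τ ζ) {W : X → ℝ} (hW : Monotone W) {p : E}
    (hp : Mixed c τ ζ W p) (B' : Finset E)
    (hB : ∀ q ∈ B', b q = b p ∧ q ≠ p ∧ W (τ p) ≤ W (τ q)) :
    (dset c τ ζ W p).card * 2 ^ B'.card ≤ 4 * 2 ^ Fintype.card E := by
  obtain ⟨hne, h8, -⟩ := hp
  set D := dset c τ ζ W p with hD
  set D' := D.filter fun S => p ∈ S with hD'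
  have hpos : 0 < D'.card := by
    have := card_pos.2 hne
    omega
  obtain ⟨S0, hS0⟩ := card_pos.1 hpos
  have hkey : ∀ S ∈ D', ∀ q ∈ B', ∃ r, c r = c p ∧ a r = a q ∧ r ∈ S := by
    intro S hS q hq
    rw [hD', mem_filter] at hS
    obtain ⟨h1, h2, h3⟩ := hB q hq
    rcases h.cov hW hS.1 h3 with hr | ⟨r, hr1, hr2, hr3⟩
    · exact hr
    · exfalso
      have : r = p := h.sys.hb _ _ hr1 (hr2.trans h1)
      subst this
      exact hr3 hS.2
  set R := univ.filter fun r => c r = c p ∧ ∃ q ∈ B', a r = a q with hR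
  have hBR : B'.card ≤ R.card := by
    choose! f hf using hkey S0 hS0
    refine card_le_card_of_injOn f ?_ ?_
    · intro q hq
      rw [mem_coe] at hq
      rw [mem_coe, hR, mem_filter]
      exact ⟨mem_univ _, (hf q hq).1, q, hq, (hf q hq).2.1⟩
    · intro q hq q' hq' hff
      rw [mem_coe] at hq hq'
      have e1 := (hf q hq).2.1
      have e2 := (hf q' hq').2.1
      rw [hff] at e1
      exact h.sys.hab _ _ (e1.symm.trans e2) ((hB q hq).1.trans (hB q' hq').1.symm)
  have hpR : p ∉ R := by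
    intro hcon
    rw [hR, mem_filter] at hcon
    obtain ⟨-, -, q, hq, haq⟩ := hcon
    exact (hB q hq).2.1 (h.sys.hab _ _ haq.symm (hB q hq).1)
  have hsup : ∀ S ∈ D', insert p R ⊆ S := by
    intro S hS r hr
    rw [mem_insert] at hr
    rcases hr with rfl | hr
    · exact (mem_filter.1 hS).2
    · rw [hR, mem_filter] at hr
      obtain ⟨-, hcr, q, hq, haq⟩ := hr
      obtain ⟨r', hr1, hr2, hr3⟩ := hkey S hS q hq
      have : r = r' := h.sys.ha _ _ (hcr.trans hr1.symm) (haq.trans hr2.symm)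
      rwa [this]
  have h1 := card_superset D' (insert p R) hsup
  rw [card_insert_of_notMem hpR, pow_succ] at h1
  have h2 : 2 ^ B'.card ≤ 2 ^ R.card := Nat.pow_le_pow_right (by norm_num) hBR
  calc D.card * 2 ^ B'.card ≤ (8 * D'.card) * 2 ^ R.card := Nat.mul_le_mul h8 h2
    _ = 4 * (D'.card * (2 ^ R.card * 2)) := by ring
    _ ≤ 4 * 2 ^ Fintype.card E := Nat.mul_le_mul_left 4 h1

omit [Preorder X] in
/-- Few products of an output which are not mixed have sets of a given size. -/
theorem card_level (W : X → ℝ) (γ : C) (U : Finset E)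
    (hU : ∀ p ∈ U, c p = γ ∧ ¬ Mixed c τ ζ W p ∧ (dset c τ ζ W p).Nonempty) (n : ℕ) :
    (U.filter fun p => level (dset c τ ζ W p) = n).card ≤ 7 * n := by
  set V := U.filter fun p => level (dset c τ ζ W p) = n with hV
  rcases V.eq_empty_or_nonempty with h0 | h0
  · rw [h0]; simp
  obtain ⟨p₀, hp₀, hmin⟩ := exists_min_image V (fun p => W (τ p)) h0
  have hp₀' := mem_filter.1 hp₀
  obtain ⟨hc₀, hm₀, hne₀⟩ := hU p₀ hp₀'.1
  have hb₀ := level_bounds hne₀
  rw [hp₀'.2] at hb₀
  have h1 : ∀ p ∈ V, 4 * ((dset c τ ζ W p₀).filter fun S => p ∈ S).card ≤ (dset c τ ζ W p₀).card ∨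
      4 * ((dset c τ ζ W p₀).filter fun S => p ∉ S).card ≤ (dset c τ ζ W p₀).card := by
    intro p hp
    have hp' := mem_filter.1 hp
    obtain ⟨hcp, hmp, hnep⟩ := hU p hp'.1
    have hbp := level_bounds hnep
    rw [hp'.2] at hbp
    have hsub : dset c τ ζ W p₀ ⊆ dset c τ ζ W p := by
      intro S hS
      rw [mem_dset] at hS ⊢
      rw [hcp, ← hc₀]
      exact lt_of_lt_of_le hS (hmin p hp)
    have h2 : (dset c τ ζ W p).card ≤ 2 * (dset c τ ζ W p₀).card := by
      have h3 : (2 : ℝ) ^ n * (dset c τ ζ W p).card ≤ 2 ^ n * (2 * (dset c τ ζ W p₀).card) := by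
        linarith [hbp.2, hb₀.1]
      have h4 := le_of_mul_le_mul_left h3 (by positivity)
      exact_mod_cast h4
    have hI : ((dset c τ ζ W p₀).filter fun S => p ∈ S).card ≤
        ((dset c τ ζ W p).filter fun S => p ∈ S).card :=
      card_le_card (filter_subset_filter _ hsub)
    have hO : ((dset c τ ζ W p₀).filter fun S => p ∉ S).card ≤
        ((dset c τ ζ W p).filter fun S => p ∉ S).card :=
      card_le_card (filter_subset_filter _ hsub)
    by_contra hcon
    rw [not_or, not_le, not_le] at hcon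
    refine hmp ⟨hnep, ?_, ?_⟩ <;> omega
  have h2 := biased_small _ V h1
  by_contra hcon
  rw [not_le] at hcon
  have h3 : ((9 : ℝ) / 10) ^ V.card ≤ (9 / 10) ^ (7 * n + 1) :=
    pow_le_pow_of_le_one (by norm_num) (by norm_num) hcon
  have h4 : ((9 : ℝ) / 10) ^ (7 * n + 1) ≤ (1 / 2) ^ n * (9 / 10) := by
    rw [pow_succ, pow_mul]
    refine mul_le_mul_of_nonneg_right ?_ (by norm_num)
    exact pow_le_pow_left₀ (by norm_num) (by norm_num) n
  have h5 : (0 : ℝ) < 2 ^ Fintype.card E := by positivity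
  have h6 : (2 : ℝ) ^ n * (1 / 2) ^ n = 1 := by rw [← mul_pow]; norm_num
  have h7 : (2 : ℝ) ^ Fintype.card E ≤ (9 / 10) * 2 ^ Fintype.card E := by
    calc (2 : ℝ) ^ Fintype.card E ≤ 2 ^ n * (dset c τ ζ W p₀).card := hb₀.1
      _ ≤ 2 ^ n * (((1 / 2) ^ n * (9 / 10)) * 2 ^ Fintype.card E) := by
          refine mul_le_mul_of_nonneg_left ?_ (by positivity)
          exact h2.trans (mul_le_mul_of_nonneg_right (h3.trans h4) h5.le)
      _ = (2 ^ n * (1 / 2) ^ n) * ((9 / 10) * 2 ^ Fintype.card E) := by ring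
      _ = _ := by rw [h6, one_mul]
  linarith

omit [Preorder X] in
/-- The products of an output which are not mixed. -/
theorem sum_unmixed (W : X → ℝ) (γ : C) (U : Finset E)
    (hU : ∀ p ∈ U, c p = γ ∧ ¬ Mixed c τ ζ W p ∧ (dset c τ ζ W p).Nonempty) :
    ∑ p ∈ U, ((71 : ℝ) / 100) ^ level (dset c τ ζ W p) ≤ 60 :=
  sum_level_le U _ (card_level W γ U hU)

omit [Preorder X] in
theorem card_unmixed (W : X → ℝ) (γ : C) (U : Finset E)
    (hU : ∀ p ∈ U, c p = γ ∧ ¬ Mixed c τ ζ W p) :
    ((∑ p ∈ U, (dset c τ ζ W p).card : ℕ) : ℝ) ≤ 120 * 2 ^ Fintype.card E := by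
  set U' := U.filter fun p => (dset c τ ζ W p).Nonempty with hU'
  have h1 : ∑ p ∈ U, (dset c τ ζ W p).card = ∑ p ∈ U', (dset c τ ζ W p).card := by
    rw [hU', sum_filter]
    refine sum_congr rfl fun p _ => ?_
    split_ifs with hp
    · rfl
    · rw [not_nonempty_iff_eq_empty] at hp
      rw [hp, card_empty]
  have h2 := sum_unmixed (τ := τ) (ζ := ζ) W γ U' (fun p hp =>
    ⟨(hU p (mem_filter.1 hp).1).1, (hU p (mem_filter.1 hp).1).2, (mem_filter.1 hp).2⟩)
  have h3 : (0 : ℝ) < 2 ^ Fintype.card E := by positivity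
  rw [h1]
  push_cast
  calc ∑ p ∈ U', ((dset c τ ζ W p).card : ℝ)
      ≤ ∑ p ∈ U', 2 * 2 ^ Fintype.card E * (71 / 100) ^ level (dset c τ ζ W p) := by
        refine sum_le_sum fun p hp => ?_
        have hb := (level_bounds (mem_filter.1 hp).2).2
        set n := level (dset c τ ζ W p)
        have h4 : (0 : ℝ) < 2 ^ n := by positivity
        have h5 : (1 : ℝ) ≤ (2 : ℝ) ^ n * (71 / 100) ^ n := by
          rw [← mul_pow]
          exact one_le_pow₀ (by norm_num)
        have h6 : (2 : ℝ) ^ n * (dset c τ ζ W p).card ≤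
            2 ^ n * (2 * 2 ^ Fintype.card E * (71 / 100) ^ n) := by
          calc (2 : ℝ) ^ n * (dset c τ ζ W p).card ≤ 2 * 2 ^ Fintype.card E := hb
            _ = 2 * 2 ^ Fintype.card E * 1 := by ring
            _ ≤ 2 * 2 ^ Fintype.card E * ((2 : ℝ) ^ n * (71 / 100) ^ n) :=
                mul_le_mul_of_nonneg_left h5 (by positivity)
            _ = _ := by ring
        exact le_of_mul_le_mul_left h6 h4
    _ = 2 * 2 ^ Fintype.card E * ∑ p ∈ U', ((71 : ℝ) / 100) ^ level (dset c τ ζ W p) := by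
        rw [mul_sum]
    _ ≤ 2 * 2 ^ Fintype.card E * 60 := mul_le_mul_of_nonneg_left h2 (by positivity)
    _ = _ := by ring

end Pool.Agent.H587R2.MRC
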