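import Pool.Agent.H587R2.MRC.Wire
import Pool.Agent.H587R2.MRB.Core

/-!
# Monotone real programs for semi-disjoint bilinear systems
-/

set_option linter.unusedSectionVars false

namespace Pool.Agent.H587R2.MRC

open Finset

open Pool.Agent.H587R2.MRB (Prog)

section

open Classical

variable {E A B C X : Type} [Fintype E] {a : E → A} {b : E → B} {c : E → C}
variable {τ : E → X} {ζ : C → Finset E → X} [Preorder X]

theorem Mixed.ex_in {W : X → ℝ} {p : E} (h : Mixed c τ ζ W p) :
    ∃ S ∈ dset c τ ζ W p, p ∈ S := by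
  obtain ⟨hne, h1, -⟩ := h
  have hpos := card_pos.2 hne
  have h3 : 0 < ((dset c τ ζ W p).filter fun S => p ∈ S).card := by omega
  obtain ⟨T, hT⟩ := card_pos.1 h3
  exact ⟨T, (mem_filter.1 hT).1, (mem_filter.1 hT).2⟩

theorem Mixed.ex_out {W : X → ℝ} {p : E} (h : Mixed c τ ζ W p) :
    ∃ S ∈ dset c τ ζ W p, p ∉ S := by
  obtain ⟨hne, -, h1⟩ := h
  have hpos := card_pos.2 hne
  have h3 : 0 < ((dset c τ ζ W p).filter fun S => p ∉ S).card := by omega
  obtain ⟨T, hT⟩ := card_pos.1 h3
  exact ⟨T, (mem_filter.1 hT).1, (mem_filter.1 hT).2⟩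

/-- The pairs which are charged to a wire. -/
noncomputable def wire (c : E → C) (τ : E → X) (ζ : C → Finset E → X) (Wg Wa : X → ℝ) :
    Finset (Σ _ : E, Finset E) :=
  (univ.filter fun p => Mixed c τ ζ Wg p ∧ ¬ Mixed c τ ζ Wa p).sigma fun p =>
    dset c τ ζ Wg p ∩ dset c τ ζ Wa p

theorem Points.card_wire (h : Points a b c τ ζ) {Wg : X → ℝ} (hWg : Monotone Wg) (Wa : X → ℝ) :
    ((wire c τ ζ Wg Wa).card : ℝ) ≤ 2580 * 2 ^ Fintype.card E := by
  rw [wire, card_sigma]
  push_cast
  exact h.wire_bound hWg Wa

variable {ι O : Type}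

/-- Every mixed pair of an answer is in one of few places, or it comes from the registers at the
start. -/
theorem exists_places (hX : Points a b c τ ζ) (P : Prog ι O) (S : X → (ι ⊕ ℕ → ℝ))
    (hS : ∀ R, Monotone fun x => S x R) (hP : ∀ x y, P.path (S x) = P.path (S y)) (x₀ : X) :
    ∃ F : Finset (Σ _ : E, Finset E),
      (F.card : ℝ) ≤ 2580 * 2 ^ Fintype.card E * P.cost (S x₀) ∧
      ∀ (o : O) (p : E) (T : Finset E), T ∈ dset c τ ζ (fun x => P.answer (S x) o) p →
        Mixed c τ ζ (fun x => P.answer (S x) o) p →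
        ⟨p, T⟩ ∈ F ∨ ∃ R, T ∈ dset c τ ζ (fun x => S x R) p ∧
          Mixed c τ ζ (fun x => S x R) p := by
  induction P generalizing S with
  | stop out =>
    refine ⟨∅, by simp, ?_⟩
    intro o p T h1 h2
    right
    exact ⟨out o, h1, h2⟩
  | gate m src f hf dst next ih =>
    simp only [Prog.path] at hP
    simp only [Prog.answer, Prog.cost]
    set S' : X → (ι ⊕ ℕ → ℝ) := fun x => Function.update (S x) dst (f fun a => S x (src a))
      with hS'def
    have hS' : ∀ R, Monotone fun x => S' x R := by
      intro R x y hxy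
      exact Prog.update_mono hf (fun R => hS R hxy) R
    obtain ⟨F, hF, hF'⟩ := ih S' hS' hP
    refine ⟨F ∪ univ.biUnion fun a : Fin m =>
      wire c τ ζ (fun x => S' x dst) (fun x => S x (src a)), ?_, ?_⟩
    · have h0 : ((F ∪ univ.biUnion fun a : Fin m =>
          wire c τ ζ (fun x => S' x dst) (fun x => S x (src a))).card : ℝ) ≤
          F.card + (univ.biUnion fun a : Fin m =>
            wire c τ ζ (fun x => S' x dst) (fun x => S x (src a))).card := by
        exact_mod_cast card_union_le _ _
      have h1 : ((univ.biUnion fun a : Fin m =>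
          wire c τ ζ (fun x => S' x dst) (fun x => S x (src a))).card : ℝ) ≤
            m * (2580 * 2 ^ Fintype.card E) := by
        calc ((univ.biUnion fun a : Fin m =>
              wire c τ ζ (fun x => S' x dst) (fun x => S x (src a))).card : ℝ)
            ≤ ∑ a : Fin m, ((wire c τ ζ (fun x => S' x dst) (fun x => S x (src a))).card : ℝ) := by
              exact_mod_cast card_biUnion_le
          _ ≤ ∑ _a : Fin m, (2580 * 2 ^ Fintype.card E : ℝ) :=
              sum_le_sum fun a _ => hX.card_wire (hS' dst) _
          _ = m * (2580 * 2 ^ Fintype.card E) := by simp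
      refine h0.trans ((add_le_add hF h1).trans (le_of_eq ?_))
      have h2 : S' x₀ = Function.update (S x₀) dst (f fun a => S x₀ (src a)) := rfl
      rw [h2]
      push_cast
      ring
    · intro o p T h1 h2
      rcases hF' o p T h1 h2 with h | ⟨R, hR1, hR2⟩
      · exact Or.inl (mem_union_left _ h)
      · by_cases hR : R = dst
        · subst hR
          have hval : ∀ x, S' x R = f (fun a => S x (src a)) := by
            intro x; simp [hS'def]
          have hD : f (fun a => S (ζ (c p) T) (src a)) < f (fun a => S (τ p) (src a)) := by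
            rw [← hval, ← hval]; exact mem_dset.1 hR1
          obtain ⟨a, ha⟩ := Prog.gate_D hf hD
          by_cases hc : Mixed c τ ζ (fun x => S x (src a)) p
          · exact Or.inr ⟨src a, mem_dset.2 ha, hc⟩
          · left
            refine mem_union_right _ (mem_biUnion.2 ⟨a, mem_univ _, ?_⟩)
            rw [wire, mem_sigma]
            exact ⟨mem_filter.2 ⟨mem_univ _, hR2, hc⟩, mem_inter.2 ⟨hR1, mem_dset.2 ha⟩⟩
        · have hval : ∀ x, S' x R = S x R := by
            intro x; simp [hS'def, Function.update_of_ne hR]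
          simp only [hval] at hR1 hR2
          exact Or.inr ⟨R, hR1, hR2⟩
  | test R t yes no ih1 ih2 =>
    by_cases hs : S x₀ R < t
    · have hall : ∀ z, S z R < t := by
        intro z
        by_contra hz
        have := hP x₀ z
        simp [Prog.path, hs, hz] at this
      have := ih1 S hS (fun z w => by
        have := hP z w
        simpa [Prog.path, hall z, hall w] using this)
      simpa only [Prog.answer, Prog.cost, hall, if_true] using this
    · have hall : ∀ z, ¬ S z R < t := by
        intro z hz
        have := hP x₀ z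
        simp [Prog.path, hs, hz] at this
      have := ih2 S hS (fun z w => by
        have := hP z w
        simpa [Prog.path, hall z, hall w] using this)
      simpa only [Prog.answer, Prog.cost, hall, if_false] using this

/-- The number of pairs which are distinguished by the outputs. -/
theorem Points.count (hX : Points a b c τ ζ) (P : Prog ι O) (S : X → (ι ⊕ ℕ → ℝ))
    (hS : ∀ R, Monotone fun x => S x R) (hP : ∀ x y, P.path (S x) = P.path (S y)) (x₀ : X)
    (h0 : ∀ R p, ¬ Mixed c τ ζ (fun x => S x R) p) (o : C → O) :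
    ((univ.filter fun q : Σ _ : E, Finset E =>
      P.answer (S (ζ (c q.1) q.2)) (o (c q.1)) < P.answer (S (τ q.1)) (o (c q.1))).card : ℝ) ≤
      2580 * 2 ^ Fintype.card E * P.cost (S x₀) +
        120 * 2 ^ Fintype.card E * ((univ : Finset E).image c).card := by
  obtain ⟨F, hF1, hF2⟩ := exists_places hX P S hS hP x₀
  let W : C → X → ℝ := fun γ x => P.answer (S x) (o γ)
  let s : C → Finset E := fun γ => univ.filter fun p => c p = γ ∧ ¬ Mixed c τ ζ (W γ) p
  let U : Finset (Σ _ : E, Finset E) := ((univ : Finset E).image c).biUnion fun γ =>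
    (s γ).sigma fun p => dset c τ ζ (W γ) p
  have hU : (U.card : ℝ) ≤ 120 * 2 ^ Fintype.card E * ((univ : Finset E).image c).card := by
    calc (U.card : ℝ) ≤ ∑ γ ∈ (univ : Finset E).image c,
          (((s γ).sigma fun p => dset c τ ζ (W γ) p).card : ℝ) := by
          exact_mod_cast card_biUnion_le
      _ ≤ ∑ _γ ∈ (univ : Finset E).image c, (120 * 2 ^ Fintype.card E : ℝ) := by
          refine sum_le_sum fun γ _ => ?_
          rw [card_sigma]
          exact card_unmixed (W γ) γ (s γ) fun p hp => (mem_filter.1 hp).2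
      _ = _ := by rw [sum_const, nsmul_eq_mul]; ring
  have hsub : (univ.filter fun q : Σ _ : E, Finset E =>
      P.answer (S (ζ (c q.1) q.2)) (o (c q.1)) < P.answer (S (τ q.1)) (o (c q.1))) ⊆ F ∪ U := by
    rintro ⟨p, T⟩ hq
    rw [mem_filter] at hq
    have hT : T ∈ dset c τ ζ (W (c p)) p := mem_dset.2 hq.2
    by_cases hm : Mixed c τ ζ (W (c p)) p
    · rcases hF2 (o (c p)) p T hT hm with h | ⟨R, _, hR⟩
      · exact mem_union_left _ h
      · exact absurd hR (h0 R p)
    · refine mem_union_right _ (mem_biUnion.2 ⟨c p, mem_image_of_mem c (mem_univ _), ?_⟩)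
      rw [mem_sigma]
      exact ⟨mem_filter.2 ⟨mem_univ _, rfl, hm⟩, hT⟩
  have h1 : ((univ.filter fun q : Σ _ : E, Finset E =>
      P.answer (S (ζ (c q.1) q.2)) (o (c q.1)) < P.answer (S (τ q.1)) (o (c q.1))).card : ℝ) ≤
      (F.card : ℝ) + U.card := by
    exact_mod_cast (card_le_card hsub).trans (card_union_le _ _)
  exact h1.trans (add_le_add hF1 hU)

end

end Pool.Agent.H587R2.MRC
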