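import Mathlib

/-!
# Monotone data structures for set intersection queries
-/

namespace Pool.Agent.H587R2.MRC.SI

open Finset

/-- The function `f` of a family does not depend on the set with the index `i`. -/
def Ignores {N : ℕ} (f : (Fin N → Finset ℕ) → ℝ) (i : Fin N) : Prop :=
  ∀ F F' : Fin N → Finset ℕ, (∀ l, l ≠ i → F l = F' l) → f F = f F'

/-- The numbers which the query with the indices `i` and `j` may read: the value of a
nondecreasing function of the family which does not depend on the set `i` or does not depend on
the set `j`, or the contents of one of the `s` stored cells. -/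
inductive Source (N s : ℕ) (i j : Fin N) : Type
  | free (f : (Fin N → Finset ℕ) → ℝ) (hf : Monotone f) (h : Ignores f i ∨ Ignores f j) :
      Source N s i j
  | stored (c : Fin s) : Source N s i j

/-- A monotone data structure with `s` cells and `t` probes for families of `N` sets: every cell
contains a nondecreasing real function of the family, and the query with the indices `i` and `j`
reads `t` numbers, which depend only on `i` and `j`, and evaluates a nondecreasing real function
of them. -/
structure DS (N s t : ℕ) : Type where
  /-- The contents of the cells. -/
  store : Fin s → (Fin N → Finset ℕ) → ℝ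
  store_mono : ∀ c, Monotone (store c)
  /-- The probes of a query. -/
  probe : (i j : Fin N) → Fin t → Source N s i j
  /-- The function which is evaluated by a query. -/
  val : Fin N → Fin N → (Fin t → ℝ) → ℝ
  val_mono : ∀ i j, Monotone (val i j)

/-- The number which is read by a probe, if the family is `F`. -/
def DS.read {N s t : ℕ} (D : DS N s t) (F : Fin N → Finset ℕ) {i j : Fin N} :
    Source N s i j → ℝ
  | Source.free f _ _ => f F
  | Source.stored c => D.store c F

/-- The answer to the query with the indices `i` and `j`, if the family is `F`. -/
def DS.answer {N s t : ℕ} (D : DS N s t) (F : Fin N → Finset ℕ) (i j : Fin N) : ℝ :=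
  D.val i j fun l => D.read F (D.probe i j l)

/-- The answer to the query is correct: it is positive if and only if the two sets intersect. -/
def DS.Correct {N s t : ℕ} (D : DS N s t) (F : Fin N → Finset ℕ) (i j : Fin N) : Prop :=
  0 < D.answer F i j ↔ (F i ∩ F j).Nonempty

/-- The data structure answers all queries about all families of subsets of the sets `U l`
correctly. -/
def DS.AlwaysCorrect {N s t : ℕ} (D : DS N s t) (U : Fin N → Finset ℕ) : Prop :=
  ∀ F : Fin N → Finset ℕ, (∀ l, F l ⊆ U l) → ∀ i j : Fin N, i ≠ j → D.Correct F i j

open Classical in
/-- The random data structure `D ω`, where `ω` has probability `p ω`, decides whether two sets of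
the family intersect, with advantage `δ`: for all families `F` of `N` sets with `F l ⊆ U l` and
for all queries the answer is correct with probability at least `1 / 2 + δ`. -/
def DSSolves {N : ℕ} (U : Fin N → Finset ℕ) (δ : ℝ) {s t : ℕ} {Ω : Type} [Fintype Ω]
    (p : Ω → ℝ) (D : Ω → DS N s t) : Prop :=
  (∀ ω, 0 ≤ p ω) ∧ ∑ ω, p ω = 1 ∧
    ∀ F : Fin N → Finset ℕ, (∀ l, F l ⊆ U l) → ∀ i j : Fin N, i ≠ j →
      1 / 2 + δ ≤ ∑ ω ∈ univ.filter (fun ω => (D ω).Correct F i j), p ω

end Pool.Agent.H587R2.MRC.SI
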