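import Pool.Agent.H587R2.MRC.Total
import Pool.Agent.H587R2.MRC.SIDefs

/-!
# Monotone data structures for set intersection queries: the proof
-/

set_option linter.unusedSectionVars false

namespace Pool.Agent.H587R2.MRC

open Finset

open Classical in
/-- The number of pairs which are distinguished by the answers of a data structure with the cells
`W`, where the query `γ` evaluates a nondecreasing function of the `t` numbers `V γ i`, which are
contents of cells or not mixed for the products of `γ`. -/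
theorem Points.count_ds' {E A B C X : Type} [Fintype E] {a : E → A} {b : E → B} {c : E → C}
    {τ : E → X} {ζ : C → Finset E → X} [Preorder X] (h : Points a b c τ ζ) {s t r : ℕ}
    (hr : ∀ γ, (univ.filter fun p => c p = γ).card ≤ r) (W : Fin s → X → ℝ)
    (hW : ∀ j, Monotone (W j)) (V : C → Fin t → X → ℝ)
    (hV : ∀ γ i, (∃ j, V γ i = W j) ∨ ∀ p, c p = γ → ¬ Mixed c τ ζ (V γ i) p)
    (g : C → (Fin t → ℝ) → ℝ) (hg : ∀ γ, Monotone (g γ)) :
    ((univ.filter fun q : Σ _ : E, Finset E =>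
      g (c q.1) (fun i => V (c q.1) i (ζ (c q.1) q.2)) <
        g (c q.1) (fun i => V (c q.1) i (τ q.1))).card : ℝ) ≤
      120 * 2 ^ Fintype.card E * (t * ((univ : Finset E).image c).card) +
        s * ((600 + 11 * r) * 2 ^ Fintype.card E) := by
  set M : ℝ := 2 ^ Fintype.card E with hM
  have hMpos : 0 < M := by positivity
  -- the pairs of the cells
  let F : Finset (Σ _ : E, Finset E) := univ.biUnion fun j : Fin s =>
    (univ.filter fun p => Mixed c τ ζ (W j) p).sigma fun p => dset c τ ζ (W j) p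
  -- the pairs of the probes
  let G : Finset (Σ _ : E, Finset E) := ((univ : Finset E).image c).biUnion fun γ =>
    univ.biUnion fun i : Fin t =>
      (univ.filter fun p => c p = γ ∧ ¬ Mixed c τ ζ (V γ i) p).sigma fun p =>
        dset c τ ζ (V γ i) p
  have hF : (F.card : ℝ) ≤ s * ((600 + 11 * r) * M) := by
    calc (F.card : ℝ) ≤ ∑ j : Fin s, (((univ.filter fun p => Mixed c τ ζ (W j) p).sigma fun p =>
          dset c τ ζ (W j) p).card : ℝ) := by exact_mod_cast card_biUnion_le
      _ ≤ ∑ _j : Fin s, (600 + 11 * r) * M := by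
          refine sum_le_sum fun j _ => ?_
          rw [card_sigma]
          push_cast
          exact h.mixed_total (hW j) hr
      _ = _ := by rw [sum_const, card_univ, Fintype.card_fin, nsmul_eq_mul]
  have hG : (G.card : ℝ) ≤ 120 * M * (t * ((univ : Finset E).image c).card) := by
    calc (G.card : ℝ) ≤ ∑ γ ∈ (univ : Finset E).image c, ((univ.biUnion fun i : Fin t =>
          (univ.filter fun p => c p = γ ∧ ¬ Mixed c τ ζ (V γ i) p).sigma fun p =>
            dset c τ ζ (V γ i) p).card : ℝ) := by exact_mod_cast card_biUnion_le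
      _ ≤ ∑ _γ ∈ (univ : Finset E).image c, t * (120 * M) := by
          refine sum_le_sum fun γ _ => ?_
          calc ((univ.biUnion fun i : Fin t =>
                (univ.filter fun p => c p = γ ∧ ¬ Mixed c τ ζ (V γ i) p).sigma fun p =>
                dset c τ ζ (V γ i) p).card : ℝ)
              ≤ ∑ i : Fin t, (((univ.filter fun p => c p = γ ∧
                  ¬ Mixed c τ ζ (V γ i) p).sigma fun p =>
                  dset c τ ζ (V γ i) p).card : ℝ) := by exact_mod_cast card_biUnion_le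
            _ ≤ ∑ _i : Fin t, 120 * M := by
                refine sum_le_sum fun i _ => ?_
                rw [card_sigma]
                exact card_unmixed (V γ i) γ _ fun p hp => (mem_filter.1 hp).2
            _ = _ := by rw [sum_const, card_univ, Fintype.card_fin, nsmul_eq_mul]
      _ = _ := by rw [sum_const, nsmul_eq_mul]; ring
  have hsub : (univ.filter fun q : Σ _ : E, Finset E =>
      g (c q.1) (fun i => V (c q.1) i (ζ (c q.1) q.2)) <
        g (c q.1) (fun i => V (c q.1) i (τ q.1))) ⊆ F ∪ G := by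
    rintro ⟨p, T⟩ hq
    rw [mem_filter] at hq
    obtain ⟨i, hi⟩ := MRB.Prog.gate_D (hg (c p)) hq.2
    have hT : T ∈ dset c τ ζ (V (c p) i) p := mem_dset.2 hi
    by_cases hm : Mixed c τ ζ (V (c p) i) p
    · rcases hV (c p) i with ⟨j, hj⟩ | hj
      · refine mem_union_left _ (mem_biUnion.2 ⟨j, mem_univ _, ?_⟩)
        rw [hj] at hm hT
        rw [mem_sigma]
        exact ⟨mem_filter.2 ⟨mem_univ _, hm⟩, hT⟩
      · exact absurd hm (hj p rfl)
    · refine mem_union_right _ (mem_biUnion.2 ⟨c p, mem_image_of_mem c (mem_univ _), ?_⟩)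
      refine mem_biUnion.2 ⟨i, mem_univ _, ?_⟩
      rw [mem_sigma]
      exact ⟨mem_filter.2 ⟨mem_univ _, rfl, hm⟩, hT⟩
  have h1 : ((univ.filter fun q : Σ _ : E, Finset E =>
      g (c q.1) (fun i => V (c q.1) i (ζ (c q.1) q.2)) <
        g (c q.1) (fun i => V (c q.1) i (τ q.1))).card : ℝ) ≤ (F.card : ℝ) + G.card := by
    exact_mod_cast (card_le_card hsub).trans (card_union_le _ _)
  linarith

namespace SI

variable {k r N : ℕ}

/-- The points: two `k`-tuples of subsets of `Fin r`. -/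
abbrev Pt (k r : ℕ) : Type := (Fin k × Fin r → Prop) × (Fin k × Fin r → Prop)

/-- The products. -/
abbrev E (k r : ℕ) : Type := Fin k × Fin k × Fin r

/-- The element of the first set. -/
def ax (p : E k r) : Fin k × Fin r := (p.1, p.2.2)

/-- The element of the second set. -/
def bx (p : E k r) : Fin k × Fin r := (p.2.1, p.2.2)

/-- The query of a product. -/
def cx (p : E k r) : Fin k × Fin k := (p.1, p.2.1)

/-- The true points. -/
def tau (p : E k r) : Pt k r := (fun x => x = ax p, fun y => y = bx p)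

/-- The false points. -/
def zeta (γ : Fin k × Fin k) (T : Finset (E k r)) : Pt k r :=
  (fun x => ∀ p : E k r, cx p = γ → ax p = x → p ∉ T,
   fun y => ∀ p : E k r, cx p = γ → bx p = y → p ∈ T)

theorem sys_cx : Sys (ax : E k r → Fin k × Fin r) bx cx where
  ha := by
    rintro ⟨i, j, u⟩ ⟨i', j', u'⟩ h1 h2
    simp only [cx, ax, Prod.mk.injEq] at h1 h2
    obtain ⟨rfl, rfl⟩ := h1
    obtain ⟨-, rfl⟩ := h2
    rfl
  hb := by
    rintro ⟨i, j, u⟩ ⟨i', j', u'⟩ h1 h2
    simp only [cx, bx, Prod.mk.injEq] at h1 h2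
    obtain ⟨rfl, rfl⟩ := h1
    obtain ⟨-, rfl⟩ := h2
    rfl
  hab := by
    rintro ⟨i, j, u⟩ ⟨i', j', u'⟩ h1 h2
    simp only [ax, bx, Prod.mk.injEq] at h1 h2
    obtain ⟨rfl, rfl⟩ := h1
    obtain ⟨rfl, -⟩ := h2
    rfl

theorem points_cx : Points (ax : E k r → Fin k × Fin r) bx cx tau zeta where
  sys := sys_cx
  le := by
    intro γ T q h
    unfold Cov at h
    rw [not_or] at h
    push Not at h
    constructor
    · rintro x rfl p h2 h3
      exact h.1 p h2 h3
    · rintro y rfl p h2 h3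
      exact h.2 p h2 h3

theorem card_cx (γ : Fin k × Fin k) (inst : DecidablePred fun p : E k r => cx p = γ) :
    (@filter _ (fun p : E k r => cx p = γ) inst univ).card ≤ r := by
  calc (@filter _ (fun p : E k r => cx p = γ) inst univ).card ≤
        (univ : Finset (Fin r)).card := by
        refine card_le_card_of_injOn (fun p => p.2.2) (fun _ _ => mem_coe.2 (mem_univ _)) ?_
        intro p hp q hq h
        rw [mem_coe, mem_filter] at hp hq
        have h1 : cx p = cx q := hp.2.trans hq.2.symm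
        refine sys_cx.ha p q h1 (Prod.ext ?_ h)
        exact congrArg (fun x : Fin k × Fin k => x.1) h1
    _ = r := by simp

theorem card_image_cx (inst : DecidableEq (Fin k × Fin k)) :
    ((@image _ _ inst cx (univ : Finset (E k r))).card : ℝ) ≤ k ^ 2 := by
  have : (@image _ _ inst cx (univ : Finset (E k r))).card ≤ k * k := by
    calc (@image _ _ inst cx (univ : Finset (E k r))).card ≤
          (univ : Finset (Fin k × Fin k)).card := card_le_card (subset_univ _)
      _ = k * k := by simp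
  calc ((@image _ _ inst cx (univ : Finset (E k r))).card : ℝ) ≤ ((k * k : ℕ) : ℝ) := by
        exact_mod_cast this
    _ = k ^ 2 := by push_cast; ring

open Classical in
/-- The family of a point. -/
noncomputable def fam (N : ℕ) (x : Pt k r) (l : Fin N) : Finset ℕ :=
  (range r).filter fun u => (∃ (h1 : l.val < k) (h2 : u < r), x.1 (⟨l.val, h1⟩, ⟨u, h2⟩)) ∨
    ∃ (i : Fin k) (h2 : u < r), l.val = k + i.val ∧ x.2 (i, ⟨u, h2⟩)

open Classical in
theorem mem_fam {x : Pt k r} {l : Fin N} {u : ℕ} : u ∈ fam N x l ↔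
    (∃ (h1 : l.val < k) (h2 : u < r), x.1 (⟨l.val, h1⟩, ⟨u, h2⟩)) ∨
    ∃ (i : Fin k) (h2 : u < r), l.val = k + i.val ∧ x.2 (i, ⟨u, h2⟩) := by
  unfold fam
  rw [mem_filter, mem_range]
  constructor
  · exact fun h => h.2
  · intro h
    refine ⟨?_, h⟩
    rcases h with ⟨-, h2, -⟩ | ⟨-, h2, -⟩
    · exact h2
    · exact h2

theorem mem_fam1 {x : Pt k r} {l : Fin N} {u : ℕ} (h1 : l.val < k) : u ∈ fam N x l ↔
    ∃ (h2 : u < r), x.1 (⟨l.val, h1⟩, ⟨u, h2⟩) := by
  rw [mem_fam]
  constructor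
  · rintro (⟨h3, h2, h4⟩ | ⟨i, h2, h3, h4⟩)
    · exact ⟨h2, h4⟩
    · omega
  · rintro ⟨h2, h3⟩
    exact Or.inl ⟨h1, h2, h3⟩

theorem mem_fam2 {x : Pt k r} {l : Fin N} {u : ℕ} (i : Fin k) (hl : l.val = k + i.val) :
    u ∈ fam N x l ↔ ∃ (h2 : u < r), x.2 (i, ⟨u, h2⟩) := by
  rw [mem_fam]
  constructor
  · rintro (⟨h3, h2, h4⟩ | ⟨i', h2, h3, h4⟩)
    · omega
    · have : i' = i := Fin.ext (by omega)
      rw [this] at h4
      exact ⟨h2, h4⟩
  · rintro ⟨h2, h3⟩
    exact Or.inr ⟨i, h2, hl, h3⟩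

theorem fam_mono : Monotone (fam N : Pt k r → Fin N → Finset ℕ) := by
  intro x x' h l u hu
  rw [mem_fam] at hu ⊢
  rcases hu with ⟨h1, h2, h3⟩ | ⟨i, h2, h3, h4⟩
  · exact Or.inl ⟨h1, h2, h.1 _ h3⟩
  · exact Or.inr ⟨i, h2, h3, h.2 _ h4⟩

theorem fam_empty (x : Pt k r) (l : Fin N) (h : 2 * k ≤ l.val) : fam N x l = ∅ := by
  rw [eq_empty_iff_forall_notMem]
  intro u hu
  rw [mem_fam] at hu
  rcases hu with ⟨h1, -, -⟩ | ⟨i, -, h3, -⟩
  · omega
  · have := i.2
    omega

open Classical in
theorem card_fam (x : Pt k r) (l : Fin N) : (fam N x l).card ≤ r := by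
  unfold fam
  refine (card_filter_le _ _).trans ?_
  simp

theorem sum_card_fam (x : Pt k r) : ∑ l, (fam N x l).card ≤ 2 * k * r := by
  classical
  calc ∑ l, (fam N x l).card = ∑ l ∈ univ.filter (fun l : Fin N => l.val < 2 * k),
        (fam N x l).card := by
        symm
        refine sum_subset (subset_univ _) fun l _ hl => ?_
        rw [mem_filter, not_and] at hl
        have := hl (mem_univ _)
        rw [fam_empty x l (by omega), card_empty]
    _ ≤ ∑ _l ∈ univ.filter (fun l : Fin N => l.val < 2 * k), r :=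
        sum_le_sum fun l _ => card_fam x l
    _ = (univ.filter (fun l : Fin N => l.val < 2 * k)).card * r := by
        rw [sum_const, smul_eq_mul]
    _ ≤ 2 * k * r := by
        refine Nat.mul_le_mul_right _ ?_
        calc (univ.filter (fun l : Fin N => l.val < 2 * k)).card ≤ (range (2 * k)).card := by
              refine card_le_card_of_injOn (fun l => l.val) ?_ ?_
              · intro l hl
                rw [mem_coe, mem_filter] at hl
                exact mem_coe.2 (mem_range.2 hl.2)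
              · intro l _ l' _ h
                exact Fin.ext h
          _ = 2 * k := card_range _

/-- The universes. -/
noncomputable def uni (N k r : ℕ) : Fin N → Finset ℕ :=
  fam N ((fun _ => True, fun _ => True) : Pt k r)

theorem fam_le_uni (x : Pt k r) (l : Fin N) : fam N x l ⊆ uni N k r l := by
  have h : x ≤ ((fun _ => True, fun _ => True) : Pt k r) :=
    ⟨fun _ _ => trivial, fun _ _ => trivial⟩
  exact fam_mono h l

/-- The index of a set of the first half. -/
def ix (h : 2 * k ≤ N) (i : Fin k) : Fin N := ⟨i.val, by have := i.2; omega⟩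

/-- The index of a set of the second half. -/
def jx (h : 2 * k ≤ N) (i : Fin k) : Fin N := ⟨k + i.val, by have := i.2; omega⟩

theorem ix_ne_jx (h : 2 * k ≤ N) (i j : Fin k) : ix h i ≠ jx h j := by
  intro hcon
  have h1 := congrArg Fin.val hcon
  simp only [ix, jx] at h1
  have := i.2
  omega

/-- A function which ignores the second set of the query has no mixed products. -/
theorem not_mixed_j (h : 2 * k ≤ N) (f : (Fin N → Finset ℕ) → ℝ) (hf : Monotone f) (p : E k r)
    (hi : Ignores f (jx h p.2.1)) :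
    ¬ Mixed cx tau zeta (fun x : Pt k r => f (fam N x)) p := by
  classical
  intro hmix
  obtain ⟨T, hT, hp⟩ := hmix.ex_out
  rw [mem_dset] at hT
  refine absurd ?_ (not_le.2 hT)
  -- change the set `j` of the true point
  let F : Fin N → Finset ℕ := fun l =>
    if l = jx h p.2.1 then ∅ else fam N (tau p) l
  have h1 : f (fam N (tau p)) = f F := hi _ _ fun l hl => by simp [F, hl]
  change f (fam N (tau p)) ≤ f (fam N (zeta (cx p) T))
  rw [h1]
  refine hf fun l u hu => ?_
  by_cases hl : l = jx h p.2.1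
  · simp [F, hl] at hu
  · simp only [F, hl, if_false] at hu
    rw [mem_fam] at hu ⊢
    rcases hu with ⟨h2, h3, h4⟩ | ⟨i, h3, h4, h5⟩
    · refine Or.inl ⟨h2, h3, ?_⟩
      intro q hq1 hq2
      have h6 : ax q = ax p := hq2.trans h4
      have h7 : q = p := sys_cx.ha q p hq1 h6
      rwa [h7]
    · exfalso
      apply hl
      have h6 : i = p.2.1 := congrArg (fun x : Fin k × Fin r => x.1) h5
      exact Fin.ext (by simp only [jx]; rw [h4, h6])

/-- A function which ignores the first set of the query has no mixed products. -/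
theorem not_mixed_i (h : 2 * k ≤ N) (f : (Fin N → Finset ℕ) → ℝ) (hf : Monotone f) (p : E k r)
    (hi : Ignores f (ix h p.1)) :
    ¬ Mixed cx tau zeta (fun x : Pt k r => f (fam N x)) p := by
  classical
  intro hmix
  obtain ⟨T, hT, hp⟩ := hmix.ex_in
  rw [mem_dset] at hT
  refine absurd ?_ (not_le.2 hT)
  let F : Fin N → Finset ℕ := fun l =>
    if l = ix h p.1 then ∅ else fam N (tau p) l
  have h1 : f (fam N (tau p)) = f F := hi _ _ fun l hl => by simp [F, hl]
  change f (fam N (tau p)) ≤ f (fam N (zeta (cx p) T))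
  rw [h1]
  refine hf fun l u hu => ?_
  by_cases hl : l = ix h p.1
  · simp [F, hl] at hu
  · simp only [F, hl, if_false] at hu
    rw [mem_fam] at hu ⊢
    rcases hu with ⟨h2, h3, h4⟩ | ⟨i, h3, h4, h5⟩
    · exfalso
      apply hl
      have h6 : (⟨l.val, h2⟩ : Fin k) = p.1 := congrArg (fun x : Fin k × Fin r => x.1) h4
      have h7 := congrArg Fin.val h6
      exact Fin.ext h7
    · refine Or.inr ⟨i, h3, h4, ?_⟩
      intro q hq1 hq2
      have h6 : bx q = bx p := hq2.trans h5
      have h7 : q = p := sys_cx.hb q p hq1 h6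
      rwa [h7]

open Classical in
/-- The bound with parameters. -/
theorem ds_param {s t : ℕ} {δ : ℝ} (hk : 2 * k ≤ N)
    {Ω : Type} [Fintype Ω] (p : Ω → ℝ) (D : Ω → DS N s t) (hS : DSSolves (uni N k r) δ p D) :
    2 * δ * ((k : ℝ) ^ 2 * r) ≤ 120 * (t * k ^ 2) + s * (600 + 11 * r) := by
  obtain ⟨hp, hp1, hprob⟩ := hS
  let Q := Σ _ : E k r, Finset (E k r)
  set M : ℝ := 2 ^ Fintype.card (E k r) with hM
  have hMpos : 0 < M := by positivity
  have hE : (Fintype.card (E k r) : ℝ) = (k : ℝ) ^ 2 * r := by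
    simp only [E, Fintype.card_prod, Fintype.card_fin]
    push_cast; ring
  have hQ : (Fintype.card Q : ℝ) = (k : ℝ) ^ 2 * r * M := by
    have : Fintype.card Q = Fintype.card (E k r) * 2 ^ Fintype.card (E k r) := by
      simp only [Q]
      rw [Fintype.card_sigma]
      simp only [Fintype.card_finset, sum_const, card_univ, smul_eq_mul]
    rw [this, hM, ← hE]
    push_cast
    ring
  let G : Ω → Finset Q := fun ω => univ.filter fun q : Q =>
    (D ω).Correct (fam N (tau q.1)) (ix hk q.1.1) (jx hk q.1.2.1) ∧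
      (D ω).Correct (fam N (zeta (cx q.1) q.2)) (ix hk q.1.1) (jx hk q.1.2.1)
  -- upper bound
  have hup : ∀ ω, ((G ω).card : ℝ) ≤
      120 * M * (t * (k : ℝ) ^ 2) + s * ((600 + 11 * r) * M) := by
    intro ω
    let W : Fin s → Pt k r → ℝ := fun j x => (D ω).store j (fam N x)
    let V : Fin k × Fin k → Fin t → Pt k r → ℝ := fun γ i x =>
      (D ω).read (fam N x) ((D ω).probe (ix hk γ.1) (jx hk γ.2) i)
    have hW : ∀ j, Monotone (W j) := fun j x x' h => (D ω).store_mono j (fam_mono h)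
    have hV : ∀ γ i, (∃ j, V γ i = W j) ∨
        ∀ p, cx p = γ → ¬ Mixed cx tau zeta (V γ i) p := by
      intro γ i
      cases hsrc : (D ω).probe (ix hk γ.1) (jx hk γ.2) i with
      | free f hf hig =>
        right
        intro p hpγ
        have h1 : V γ i = fun x : Pt k r => f (fam N x) := by
          funext x
          simp only [V, hsrc, DS.read]
        rw [h1]
        subst hpγ
        rcases hig with hig | hig
        · exact not_mixed_i hk f hf p hig
        · exact not_mixed_j hk f hf p hig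
      | stored j =>
        left
        refine ⟨j, ?_⟩
        funext x
        simp only [V, hsrc, DS.read]
        rfl
    have h1 := (points_cx (k := k) (r := r)).count_ds' (fun γ => card_cx γ _) W hW V hV
      (fun γ => (D ω).val (ix hk γ.1) (jx hk γ.2)) (fun γ => (D ω).val_mono _ _)
    have h2 : (G ω).card ≤ (univ.filter fun q : Q =>
        (D ω).val (ix hk (cx q.1).1) (jx hk (cx q.1).2)
          (fun i => V (cx q.1) i (zeta (cx q.1) q.2)) <
        (D ω).val (ix hk (cx q.1).1) (jx hk (cx q.1).2)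
          (fun i => V (cx q.1) i (tau q.1))).card := by
      refine card_le_card fun q hq => ?_
      rw [mem_filter] at hq ⊢
      refine ⟨mem_univ _, ?_⟩
      obtain ⟨-, h3, h4⟩ := hq
      have h5 : 0 < (D ω).answer (fam N (tau q.1)) (ix hk q.1.1) (jx hk q.1.2.1) := by
        refine h3.2 ⟨q.1.2.2.val, mem_inter.2 ⟨?_, ?_⟩⟩
        · exact (mem_fam1 (l := ix hk q.1.1) q.1.1.2).2 ⟨q.1.2.2.2, rfl⟩
        · exact (mem_fam2 q.1.2.1 rfl).2 ⟨q.1.2.2.2, rfl⟩
      have h6 : ¬ 0 < (D ω).answer (fam N (zeta (cx q.1) q.2)) (ix hk q.1.1)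
          (jx hk q.1.2.1) := by
        intro hcon
        obtain ⟨u, hu⟩ := h4.1 hcon
        rw [mem_inter] at hu
        obtain ⟨hu1, hu2⟩ := hu
        obtain ⟨h7, h8⟩ := (mem_fam1 (l := ix hk q.1.1) q.1.1.2).1 hu1
        obtain ⟨h9, h10⟩ := (mem_fam2 q.1.2.1 rfl).1 hu2
        have h11 : (q.1.1, q.1.2.1, (⟨u, h7⟩ : Fin r)) ∉ q.2 := h8 _ rfl rfl
        have h12 : (q.1.1, q.1.2.1, (⟨u, h9⟩ : Fin r)) ∈ q.2 := h10 _ rfl rfl
        exact h11 h12
      exact lt_of_le_of_lt (not_lt.1 h6) h5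
    have h3 : ((G ω).card : ℝ) ≤ ((univ.filter fun q : Q =>
        (D ω).val (ix hk (cx q.1).1) (jx hk (cx q.1).2)
          (fun i => V (cx q.1) i (zeta (cx q.1) q.2)) <
        (D ω).val (ix hk (cx q.1).1) (jx hk (cx q.1).2)
          (fun i => V (cx q.1) i (tau q.1))).card : ℝ) := by
      exact_mod_cast h2
    refine h3.trans (h1.trans (add_le_add ?_ (le_refl _)))
    refine mul_le_mul_of_nonneg_left ?_ (by positivity)
    exact mul_le_mul_of_nonneg_left (card_image_cx _) (by positivity)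
  -- lower bound
  have hlow : (k : ℝ) ^ 2 * r * M * (2 * δ) ≤ ∑ ω, p ω * ((G ω).card : ℝ) := by
    have h1 : ∀ q : Q, 2 * δ ≤ ∑ ω, p ω * (if q ∈ G ω then (1 : ℝ) else 0) := by
      intro q
      have ha := hprob (fam N (tau q.1)) (fam_le_uni _) _ _ (ix_ne_jx hk q.1.1 q.1.2.1)
      have hb := hprob (fam N (zeta (cx q.1) q.2)) (fam_le_uni _) _ _
        (ix_ne_jx hk q.1.1 q.1.2.1)
      rw [sum_filter] at ha hb
      have h2 : ∀ ω, (if (D ω).Correct (fam N (tau q.1)) (ix hk q.1.1) (jx hk q.1.2.1)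
            then p ω else 0) +
          (if (D ω).Correct (fam N (zeta (cx q.1) q.2)) (ix hk q.1.1) (jx hk q.1.2.1)
            then p ω else 0) - p ω ≤ p ω * (if q ∈ G ω then (1 : ℝ) else 0) := by
        intro ω
        have hpω := hp ω
        by_cases hA : (D ω).Correct (fam N (tau q.1)) (ix hk q.1.1) (jx hk q.1.2.1)
        · by_cases hC : (D ω).Correct (fam N (zeta (cx q.1) q.2)) (ix hk q.1.1)
              (jx hk q.1.2.1)
          · have : q ∈ G ω := by
              simp only [G, mem_filter, mem_univ, true_and]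
              exact ⟨hA, hC⟩
            simp only [hA, hC, this, if_true]
            linarith
          · simp only [hA, hC, if_true, if_false]
            split_ifs <;> linarith
        · simp only [hA, if_false]
          by_cases hC : (D ω).Correct (fam N (zeta (cx q.1) q.2)) (ix hk q.1.1)
              (jx hk q.1.2.1)
          · simp only [hC, if_true]
            split_ifs <;> linarith
          · simp only [hC, if_false]
            split_ifs <;> linarith
      have h3 := sum_le_sum fun ω (_ : ω ∈ (univ : Finset Ω)) => h2 ω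
      rw [sum_sub_distrib, sum_add_distrib, hp1] at h3
      linarith
    have h5 : ∀ ω, ((G ω).card : ℝ) = ∑ x : Q, (if x ∈ G ω then (1 : ℝ) else 0) := by
      intro ω
      simp
    calc (k : ℝ) ^ 2 * r * M * (2 * δ) = ∑ x : Q, 2 * δ := by
          rw [sum_const, nsmul_eq_mul, card_univ, hQ]
      _ ≤ ∑ x : Q, ∑ ω, p ω * (if x ∈ G ω then (1 : ℝ) else 0) :=
          sum_le_sum fun x _ => h1 x
      _ = ∑ ω, ∑ x : Q, p ω * (if x ∈ G ω then (1 : ℝ) else 0) := sum_comm
      _ = ∑ ω, p ω * ((G ω).card : ℝ) := by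
          refine sum_congr rfl fun ω _ => ?_
          rw [h5, mul_sum]
  have hfin : (2 * δ * ((k : ℝ) ^ 2 * r)) * M ≤
      (120 * (t * (k : ℝ) ^ 2) + s * (600 + 11 * r)) * M := by
    calc (2 * δ * ((k : ℝ) ^ 2 * r)) * M = (k : ℝ) ^ 2 * r * M * (2 * δ) := by ring
      _ ≤ ∑ ω, p ω * ((G ω).card : ℝ) := hlow
      _ ≤ ∑ ω, p ω * (120 * M * (t * (k : ℝ) ^ 2) + s * ((600 + 11 * r) * M)) :=
          sum_le_sum fun ω _ => mul_le_mul_of_nonneg_left (hup ω) (hp ω)
      _ = 120 * M * (t * (k : ℝ) ^ 2) + s * ((600 + 11 * r) * M) := by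
          rw [← sum_mul, hp1, one_mul]
      _ = _ := by ring
  exact le_of_mul_le_mul_right hfin hMpos

/-- The space-time tradeoff. -/
theorem ds_bound {N t : ℕ} {δ : ℝ} (hδ : 0 < δ) (hδ2 : δ ≤ 1 / 2) (ht : 1 ≤ t)
    (hn : 482 * (t : ℝ) ≤ δ * N) :
    ∃ U : Fin N → Finset ℕ, ∑ l, (U l).card ≤ N ∧ (∀ l, U l ⊆ range N) ∧
      ∀ (s : ℕ) (Ω : Type) [Fintype Ω] (p : Ω → ℝ) (D : Ω → DS N s t), DSSolves U δ p D →
        δ ^ 3 * (N : ℝ) ^ 2 ≤ 3200000 * (s * (t : ℝ) ^ 2) := by
  have ht' : (1 : ℝ) ≤ t := by exact_mod_cast ht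
  set r : ℕ := ⌈120 * (t : ℝ) / δ⌉₊ with hr
  have hr1 : 120 * (t : ℝ) / δ ≤ r := Nat.le_ceil _
  have hr1' : 120 * (t : ℝ) ≤ δ * r := by
    have := (div_le_iff₀ hδ).1 hr1
    linarith
  have hr240 : (240 : ℝ) ≤ r := by
    have h1 : (0 : ℝ) ≤ r := by positivity
    nlinarith
  have hr2 : δ * r ≤ 241 / 2 * t := by
    have h0 : (r : ℝ) ≤ 120 * (t : ℝ) / δ + 1 :=
      (Nat.ceil_lt_add_one (show 0 ≤ 120 * (t : ℝ) / δ by positivity)).le
    have h1 : δ * (120 * (t : ℝ) / δ + 1) = 120 * t + δ := by field_simp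
    have h2 := mul_le_mul_of_nonneg_left h0 hδ.le
    linarith
  have hrpos : (0 : ℝ) < r := by linarith
  have hrpos' : 0 < r := by exact_mod_cast hrpos
  have hn4r : 4 * (r : ℝ) ≤ N := by
    have h1 : δ * (4 * r) ≤ δ * N := by nlinarith
    exact le_of_mul_le_mul_left h1 hδ
  set k : ℕ := N / (2 * r) with hk
  have hkr : 2 * k * r ≤ N := by
    have := Nat.div_mul_le_self N (2 * r)
    calc 2 * k * r = k * (2 * r) := by ring
      _ ≤ N := this
  have hkr2 : (N : ℝ) ≤ 4 * (k * r) := by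
    have h1 : (N : ℝ) < 2 * r * (k + 1) := by
      exact_mod_cast Nat.lt_mul_div_succ N (show 0 < 2 * r by omega)
    nlinarith
  have hk2 : 2 * k ≤ N := by
    calc 2 * k = 2 * k * 1 := by ring
      _ ≤ 2 * k * r := Nat.mul_le_mul_left _ hrpos'
      _ ≤ N := hkr
  have hrN : r ≤ N := by
    have : (r : ℝ) ≤ N := by linarith
    exact_mod_cast this
  refine ⟨uni N k r, (sum_card_fam _).trans hkr, fun l u hu => ?_, ?_⟩
  · unfold uni at hu
    rw [mem_fam] at hu
    rw [mem_range]
    rcases hu with ⟨-, h2, -⟩ | ⟨-, h2, -⟩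
    · omega
    · omega
  intro s Ω _ p D hS
  have h := ds_param (k := k) (r := r) hk2 p D hS
  have hs0 : (0 : ℝ) ≤ s := by positivity
  have h1 : 120 * ((t : ℝ) * k ^ 2) ≤ δ * (k ^ 2 * r) := by
    have : (0 : ℝ) ≤ (k : ℝ) ^ 2 := by positivity
    calc 120 * ((t : ℝ) * k ^ 2) = (120 * t) * k ^ 2 := by ring
      _ ≤ (δ * r) * k ^ 2 := mul_le_mul_of_nonneg_right hr1' this
      _ = δ * (k ^ 2 * r) := by ring
  have h2 : (s : ℝ) * (600 + 11 * r) ≤ s * (27 / 2 * r) :=
    mul_le_mul_of_nonneg_left (by linarith) hs0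
  have h3 : δ * (k : ℝ) ^ 2 ≤ 27 / 2 * s := by
    have h4 : (δ * (k : ℝ) ^ 2) * r ≤ (27 / 2 * s) * r := by linarith
    exact le_of_mul_le_mul_right h4 hrpos
  have h4 : (N : ℝ) ^ 2 ≤ 16 * (k * r) ^ 2 := by
    have : (N : ℝ) ^ 2 ≤ (4 * (k * r)) ^ 2 := pow_le_pow_left₀ (by positivity) hkr2 2
    linarith
  have h5 : (δ * r) ^ 2 ≤ (241 / 2 * (t : ℝ)) ^ 2 := pow_le_pow_left₀ (by positivity) hr2 2
  calc δ ^ 3 * (N : ℝ) ^ 2 ≤ δ ^ 3 * (16 * (k * r) ^ 2) :=
        mul_le_mul_of_nonneg_left h4 (by positivity)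
    _ = 16 * (δ * r) ^ 2 * (δ * (k : ℝ) ^ 2) := by ring
    _ ≤ 16 * (δ * r) ^ 2 * (27 / 2 * s) := mul_le_mul_of_nonneg_left h3 (by positivity)
    _ ≤ 16 * (241 / 2 * (t : ℝ)) ^ 2 * (27 / 2 * s) := by
        refine mul_le_mul_of_nonneg_right ?_ (by positivity)
        exact mul_le_mul_of_nonneg_left h5 (by norm_num)
    _ ≤ 3200000 * (s * (t : ℝ) ^ 2) := by
        have : (0 : ℝ) ≤ (s : ℝ) * (t : ℝ) ^ 2 := by positivity
        nlinarith

end SI

end Pool.Agent.H587R2.MRC
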