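import Pool.Agent.H587R2.MRC.SIDefs

/-!
# Monotone data structures for set intersection queries: the upper bound
-/

namespace Pool.Agent.H587R2.MRC.SI

open Finset

variable {N t : ℕ}

open Classical in
/-- The indices of the large sets. -/
noncomputable def Lg (U : Fin N → Finset ℕ) (t : ℕ) : Finset (Fin N) :=
  univ.filter fun l => t < 2 * (U l).card

open Classical in
/-- The `n`-th element of the list `L` belongs to the set `A`. -/
noncomputable def bit (L : List ℕ) (n : ℕ) (A : Finset ℕ) : ℝ :=
  if ∃ u ∈ A, L[n]? = some u then 1 else 0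

theorem bit_mono (L : List ℕ) (n : ℕ) {A B : Finset ℕ} (h : A ⊆ B) : bit L n A ≤ bit L n B := by
  unfold bit
  split_ifs with h1 h2
  · exact le_refl _
  · obtain ⟨u, hu, hL⟩ := h1
    exact absurd ⟨u, h hu, hL⟩ h2
  · exact zero_le_one
  · exact le_refl _

theorem bit_nonneg (L : List ℕ) (n : ℕ) (A : Finset ℕ) : 0 ≤ bit L n A := by
  unfold bit
  split_ifs
  · exact zero_le_one
  · exact le_refl _

theorem bit_pos {L : List ℕ} {n : ℕ} {A : Finset ℕ} : 0 < bit L n A ↔ ∃ u ∈ A, L[n]? = some u := by
  unfold bit
  split_ifs with h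
  · simp [h]
  · simp [h]

open Classical in
/-- The list of elements which are looked up by a query. -/
noncomputable def look (U : Fin N → Finset ℕ) (t : ℕ) (i j : Fin N) : List ℕ :=
  if 2 * (U i).card ≤ t then (U i).toList else (U j).toList

open Classical in
/-- The value of a query with a small set. -/
noncomputable def sval (t : ℕ) (v : Fin t → ℝ) : ℝ :=
  ∑ x : Fin t × Fin t, if x.1.val + 1 = x.2.val ∧ x.1.val % 2 = 0 then
    max 0 (min (v x.1) (v x.2)) else 0

theorem sval_mono (t : ℕ) : Monotone (sval t) := by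
  intro v w h
  unfold sval
  refine sum_le_sum fun x _ => ?_
  split_ifs
  · exact max_le_max (le_refl _) (min_le_min (h _) (h _))
  · exact le_refl _

theorem sval_pos {t : ℕ} {v : Fin t → ℝ} : 0 < sval t v ↔
    ∃ x y : Fin t, x.val + 1 = y.val ∧ x.val % 2 = 0 ∧ 0 < v x ∧ 0 < v y := by
  classical
  constructor
  · intro h
    by_contra hcon
    push Not at hcon
    refine absurd h (not_lt.2 ?_)
    unfold sval
    refine sum_nonpos fun x _ => ?_
    split_ifs with h1
    · by_cases h2 : 0 < v x.1
      · have h3 := hcon x.1 x.2 h1.1 h1.2 h2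
        exact max_le (le_refl _) ((min_le_right _ _).trans h3)
      · exact max_le (le_refl _) ((min_le_left _ _).trans (not_lt.1 h2))
    · exact le_refl _
  · rintro ⟨x, y, h1, h2, h3, h4⟩
    unfold sval
    refine sum_pos' (fun z _ => ?_) ⟨(x, y), mem_univ _, ?_⟩
    · split_ifs
      · exact le_max_left _ _
      · exact le_refl _
    · rw [if_pos ⟨h1, h2⟩]
      exact lt_max_of_lt_right (lt_min h3 h4)

open Classical in
/-- The probe of a query with a small set. -/
noncomputable def sprobe (s : ℕ) (L : List ℕ) (i j : Fin N) (hij : i ≠ j) (l : ℕ) :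
    Source N s i j :=
  if l % 2 = 0 then
    Source.free (fun F => bit L (l / 2) (F i)) (fun _ _ h => bit_mono _ _ (h i))
      (Or.inr fun F F' h => by simp only [h i hij])
  else
    Source.free (fun F => bit L (l / 2) (F j)) (fun _ _ h => bit_mono _ _ (h j))
      (Or.inl fun F F' h => by simp only [h j hij.symm])

open Classical in
/-- The bound for the number of pairs of large sets. -/
theorem card_Lg (U : Fin N → Finset ℕ) (hU : ∑ l, (U l).card ≤ N) (t : ℕ) :
    ((Lg U t).card * (Lg U t).card) * t ^ 2 ≤ 4 * N ^ 2 := by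
  have h1 : (Lg U t).card * t ≤ 2 * N := by
    calc (Lg U t).card * t = ∑ _l ∈ Lg U t, t := by rw [sum_const, smul_eq_mul]
      _ ≤ ∑ l ∈ Lg U t, 2 * (U l).card := by
          refine sum_le_sum fun l hl => ?_
          exact (mem_filter.1 hl).2.le
      _ ≤ ∑ l, 2 * (U l).card := sum_le_sum_of_subset (subset_univ _)
      _ = 2 * ∑ l, (U l).card := by rw [mul_sum]
      _ ≤ 2 * N := Nat.mul_le_mul_left _ hU
  calc ((Lg U t).card * (Lg U t).card) * t ^ 2 = ((Lg U t).card * t) ^ 2 := by ring
    _ ≤ (2 * N) ^ 2 := Nat.pow_le_pow_left h1 2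
    _ = 4 * N ^ 2 := by ring

open Classical in
/-- The upper bound. -/
theorem ds_upper (ht : 1 ≤ t) (U : Fin N → Finset ℕ) (hU : ∑ l, (U l).card ≤ N) :
    ∃ s : ℕ, s * t ^ 2 ≤ 4 * N ^ 2 ∧ ∃ D : DS N s t, D.AlwaysCorrect U := by
  refine ⟨(Lg U t).card * (Lg U t).card, card_Lg U hU t, ?_⟩
  have hcard : Fintype.card ((Lg U t) × (Lg U t)) = (Lg U t).card * (Lg U t).card := by
    rw [Fintype.card_prod, Fintype.card_coe]
  let e : (Lg U t) × (Lg U t) ≃ Fin ((Lg U t).card * (Lg U t).card) :=
    Fintype.equivFinOfCardEq hcard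
  let D : DS N ((Lg U t).card * (Lg U t).card) t :=
    { store := fun c F => if (F (e.symm c).1 ∩ F (e.symm c).2).Nonempty then 1 else 0
      store_mono := by
        intro c F F' h
        dsimp only
        split_ifs with h1 h2
        · exact le_refl _
        · exact absurd (h1.mono (inter_subset_inter (h _) (h _))) h2
        · exact zero_le_one
        · exact le_refl _
      probe := fun i j l =>
        if hij : i ≠ j then
          if h : i ∈ Lg U t ∧ j ∈ Lg U t then Source.stored (e (⟨i, h.1⟩, ⟨j, h.2⟩))
          else sprobe _ (look U t i j) i j hij l.val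
        else Source.free (fun _ => 0) (fun _ _ _ => le_refl _) (Or.inl fun _ _ _ => rfl)
      val := fun i j v => if i ∈ Lg U t ∧ j ∈ Lg U t then v ⟨0, ht⟩ else sval t v
      val_mono := by
        intro i j v w h
        dsimp only
        split_ifs
        · exact h _
        · exact sval_mono t h }
  refine ⟨D, fun F hF i j hij => ?_⟩
  unfold DS.Correct DS.answer
  by_cases h : i ∈ Lg U t ∧ j ∈ Lg U t
  · have h1 : (D.val i j fun l => D.read F (D.probe i j l)) =
        if (F i ∩ F j).Nonempty then 1 else 0 := by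
      simp only [D, h, hij, and_self, if_true, ne_eq, not_false_eq_true, dif_pos, DS.read,
        Equiv.symm_apply_apply]
    rw [h1]
    split_ifs with h2
    · simp [h2]
    · simp [h2]
  · have h1 : (D.val i j fun l => D.read F (D.probe i j l)) =
        sval t fun l => D.read F (sprobe _ (look U t i j) i j hij l.val) := by
      simp only [D, h, hij, if_false, ne_eq, not_false_eq_true, dif_pos, dif_neg]
    rw [h1, sval_pos]
    have hread : ∀ l : ℕ, D.read F (sprobe _ (look U t i j) i j hij l) =
        if l % 2 = 0 then bit (look U t i j) (l / 2) (F i)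
        else bit (look U t i j) (l / 2) (F j) := by
      intro l
      unfold sprobe
      split_ifs
      · rfl
      · rfl
    constructor
    · rintro ⟨x, y, h2, h3, h4, h5⟩
      rw [hread] at h4 h5
      rw [if_pos h3] at h4
      rw [if_neg (by omega)] at h5
      obtain ⟨u, hu, hL⟩ := bit_pos.1 h4
      obtain ⟨u', hu', hL'⟩ := bit_pos.1 h5
      have h6 : y.val / 2 = x.val / 2 := by omega
      rw [h6, hL] at hL'
      have h7 : u = u' := Option.some.inj hL'
      exact ⟨u, mem_inter.2 ⟨hu, h7 ▸ hu'⟩⟩
    · rintro ⟨u, hu⟩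
      rw [mem_inter] at hu
      -- the position of `u` in the list
      obtain ⟨n, hn, hL⟩ : ∃ n, 2 * n + 2 ≤ t ∧ (look U t i j)[n]? = some u := by
        unfold look
        by_cases h2 : 2 * (U i).card ≤ t
        · rw [if_pos h2]
          have h3 : u ∈ (U i).toList := mem_toList.2 (hF i hu.1)
          obtain ⟨n, hn, hnu⟩ := List.mem_iff_getElem.1 h3
          refine ⟨n, ?_, ?_⟩
          · rw [length_toList] at hn
            omega
          · rw [List.getElem?_eq_getElem hn, hnu]
        · rw [if_neg h2]
          have h4 : 2 * (U j).card ≤ t := by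
            by_contra hcon
            apply h
            exact ⟨mem_filter.2 ⟨mem_univ _, not_le.1 h2⟩, mem_filter.2 ⟨mem_univ _, not_le.1 hcon⟩⟩
          have h3 : u ∈ (U j).toList := mem_toList.2 (hF j hu.2)
          obtain ⟨n, hn, hnu⟩ := List.mem_iff_getElem.1 h3
          refine ⟨n, ?_, ?_⟩
          · rw [length_toList] at hn
            omega
          · rw [List.getElem?_eq_getElem hn, hnu]
      refine ⟨⟨2 * n, by omega⟩, ⟨2 * n + 1, by omega⟩, rfl, by simp, ?_, ?_⟩
      · rw [hread, if_pos (by simp)]
        have h5 : 2 * n / 2 = n := by omega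
        rw [bit_pos]
        simp only [h5]
        exact ⟨u, hu.1, hL⟩
      · rw [hread, if_neg (by simp only; omega)]
        have h5 : (2 * n + 1) / 2 = n := by omega
        rw [bit_pos]
        simp only [h5]
        exact ⟨u, hu.2, hL⟩

end Pool.Agent.H587R2.MRC.SI
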