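import Pool.Agent.H587R2.MRC.Run

/-!
# The number of pairs which are mixed for one function
-/

set_option linter.unusedSectionVars false

namespace Pool.Agent.H587R2.MRC

open Finset

open Classical

variable {E A B C X : Type} [Fintype E] {a : E → A} {b : E → B} {c : E → C}
variable {τ : E → X} {ζ : C → Finset E → X} [Preorder X]

theorem Points.dom_total (h : Points a b c τ ζ) {W : X → ℝ} (hW : Monotone W)
    {ρ : E → ℕ} (hρ : Function.Injective ρ) (hρW : ∀ p q, ρ p ≤ ρ q → W (τ q) ≤ W (τ p))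
    (U : Finset E) (hU : ∀ p ∈ U, oth a b c ρ p < own a b c ρ p) {r : ℕ}
    (hr : ∀ γ, (univ.filter fun p => c p = γ).card ≤ r) :
    ∑ p ∈ U, ((dset c τ ζ W p).card : ℝ) ≤ 11 * r * 2 ^ Fintype.card E := by
  set M : ℝ := 2 ^ Fintype.card E with hM
  have hMpos : 0 < M := by positivity
  rcases U.eq_empty_or_nonempty with hUe | ⟨p₁, hp₁⟩
  · rw [hUe, sum_empty]; positivity
  have : Nonempty E := ⟨p₁⟩
  -- the first product of every output
  have hfirst : ∀ γ ∈ U.image c, ∃ p ∈ U, c p = γ ∧ ∀ q ∈ U, c q = γ → ρ p ≤ ρ q := by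
    intro γ hγ
    obtain ⟨p, hp, hpγ⟩ := mem_image.1 hγ
    obtain ⟨p₀, hp₀, hmin⟩ := exists_min_image (U.filter fun q => c q = γ) ρ
      ⟨p, mem_filter.2 ⟨hp, hpγ⟩⟩
    obtain ⟨h1, h2⟩ := mem_filter.1 hp₀
    exact ⟨p₀, h1, h2, fun q hq hqγ => hmin q (mem_filter.2 ⟨hq, hqγ⟩)⟩
  choose! f hf1 hf2 hf3 using hfirst
  have hinner : ∀ γ ∈ U.image c, ∑ p ∈ U.filter (fun p => c p = γ),
      ((dset c τ ζ W p).card : ℝ) ≤ r * M * (10 / 11) ^ oth a b c ρ (f γ) := by
    intro γ hγ
    set o := oth a b c ρ (f γ) with ho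
    calc ∑ p ∈ U.filter (fun p => c p = γ), ((dset c τ ζ W p).card : ℝ)
        ≤ ∑ _p ∈ U.filter (fun p => c p = γ), (10 / 11) ^ o * M := by
          refine sum_le_sum fun p hp => ?_
          obtain ⟨h5, h6⟩ := mem_filter.1 hp
          have hoo : o ≤ oth a b c ρ p := by
            rw [ho]
            unfold oth
            rw [hf2 γ hγ, h6]
            exact card_le_card (filter_subset_filter _
              (gr_mono (Nat.succ_le_succ (hf3 γ hγ p h5 h6))))
          calc ((dset c τ ζ W p).card : ℝ) ≤ (10 / 11) ^ oth a b c ρ p * M :=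
                h.dset_le_oth hW hρ hρW p
            _ ≤ (10 / 11) ^ o * M := mul_le_mul_of_nonneg_right
                (pow_le_pow_of_le_one (by norm_num) (by norm_num) hoo) hMpos.le
      _ = ((U.filter fun p => c p = γ).card : ℝ) * ((10 / 11) ^ o * M) := by
          rw [sum_const, nsmul_eq_mul]
      _ ≤ r * ((10 / 11) ^ o * M) := by
          refine mul_le_mul_of_nonneg_right ?_ (by positivity)
          have : (U.filter fun p => c p = γ).card ≤ r :=
            (card_le_card (filter_subset_filter _ (subset_univ _))).trans (hr γ)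
          exact_mod_cast this
      _ = _ := by ring
  have hinj : Set.InjOn (fun γ => oth a b c ρ (f γ)) (U.image c : Set C) := by
    have key : ∀ γ ∈ U.image c, ∀ γ' ∈ U.image c, γ ≠ γ' → ρ (f γ) < ρ (f γ') →
        oth a b c ρ (f γ) < oth a b c ρ (f γ') := by
      intro γ hγ γ' hγ' hne hlt
      refine lt_of_lt_of_le (hU _ (hf1 γ hγ)) ?_
      unfold own oth
      refine card_le_card fun q hq => ?_
      obtain ⟨h1, h2⟩ := mem_filter.1 hq
      refine mem_filter.2 ⟨gr_mono (by omega) h1, ?_⟩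
      rw [h2, hf2 γ hγ, hf2 γ' hγ']
      exact hne
    intro γ hγ γ' hγ' heq
    rw [mem_coe] at hγ hγ'
    simp only at heq
    by_contra hne
    rcases lt_trichotomy (ρ (f γ)) (ρ (f γ')) with h1 | h1 | h1
    · have := key γ hγ γ' hγ' hne h1; omega
    · have h2 := hρ h1
      exact hne (by rw [← hf2 γ hγ, ← hf2 γ' hγ', h2])
    · have := key γ' hγ' γ hγ (Ne.symm hne) h1; omega
  have hsum := sum_inj_le (U.image c) (fun γ => oth a b c ρ (f γ)) hinj (10 / 11)
    (by norm_num) (by norm_num)
  rw [← sum_fiberwise_of_maps_to (fun p hp => mem_image_of_mem c hp)]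
  calc ∑ γ ∈ U.image c, ∑ p ∈ U.filter (fun p => c p = γ), ((dset c τ ζ W p).card : ℝ)
      ≤ ∑ γ ∈ U.image c, r * M * (10 / 11) ^ oth a b c ρ (f γ) := sum_le_sum hinner
    _ = r * M * ∑ γ ∈ U.image c, ((10 : ℝ) / 11) ^ oth a b c ρ (f γ) := by
        rw [mul_sum]
    _ ≤ r * M * (1 - 10 / 11)⁻¹ := mul_le_mul_of_nonneg_left hsum (by positivity)
    _ = 11 * r * M := by norm_num; ring

/-- The number of all pairs which are mixed for one function. -/
theorem Points.mixed_total (h : Points a b c τ ζ) {W : X → ℝ} (hW : Monotone W) {r : ℕ}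
    (hr : ∀ γ, (univ.filter fun p => c p = γ).card ≤ r) :
    ∑ p ∈ univ.filter (fun p => Mixed c τ ζ W p), ((dset c τ ζ W p).card : ℝ) ≤
      (600 + 11 * r) * 2 ^ Fintype.card E := by
  obtain ⟨ρ, hρ, hρW⟩ := exists_rank fun p => W (τ p)
  set U := univ.filter (fun p => Mixed c τ ζ W p) with hU
  rw [← sum_filter_add_sum_filter_not U (fun p => oth a b c ρ p < own a b c ρ p)]
  have h1 := h.dom_total hW hρ hρW (U.filter fun p => oth a b c ρ p < own a b c ρ p)
    (fun p hp => (mem_filter.1 hp).2) hr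
  have h2 := h.side_bound hW hρ hρW (U.filter fun p => ¬ oth a b c ρ p < own a b c ρ p)
    (fun p hp => by
      obtain ⟨h1, h2⟩ := mem_filter.1 hp
      refine ⟨(mem_filter.1 h1).2, ?_⟩
      have h3 := own_add_oth (a := a) (b := b) (c := c) ρ p
      change lev a b ρ p ≤ 2 * oth a b c ρ p
      omega)
  linarith

/-- The number of pairs which are distinguished by the answers of a data structure with the cells
`W`, where the query `γ` evaluates a nondecreasing function of the `t` numbers `V γ i`, which are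
contents of cells or not mixed at all. -/
theorem Points.count_ds (h : Points a b c τ ζ) {s t r : ℕ}
    (hr : ∀ γ, (univ.filter fun p => c p = γ).card ≤ r) (W : Fin s → X → ℝ)
    (hW : ∀ j, Monotone (W j)) (V : C → Fin t → X → ℝ)
    (hV : ∀ γ i, (∃ j, V γ i = W j) ∨ ∀ p, ¬ Mixed c τ ζ (V γ i) p)
    (g : C → (Fin t → ℝ) → ℝ) (hg : ∀ γ, Monotone (g γ)) :
    ((univ.filter fun q : Σ _ : E, Finset E =>
      g (c q.1) (fun i => V (c q.1) i (ζ (c q.1) q.2)) <
        g (c q.1) (fun i => V (c q.1) i (τ q.1))).card : ℝ) ≤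
      120 * 2 ^ Fintype.card E * (t * ((univ : Finset E).image c).card) +
        s * ((600 + 11 * r) * 2 ^ Fintype.card E) := by
  set M : ℝ := 2 ^ Fintype.card E with hM
  have hMpos : 0 < M := by positivity
  -- the pairs of the cells
  let F : Finset (Σ _ : E, Finset E) := univ.biUnion fun j : Fin s =>
    (univ.filter fun p => Mixed c τ ζ (W j) p).sigma fun p => dset c τ ζ (W j) p
  -- the pairs of the probes
  let G : Finset (Σ _ : E, Finset E) := ((univ : Finset E).image c).biUnion fun γ =>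
    univ.biUnion fun i : Fin t =>
      (univ.filter fun p => c p = γ ∧ ¬ Mixed c τ ζ (V γ i) p).sigma fun p =>
        dset c τ ζ (V γ i) p
  have hF : (F.card : ℝ) ≤ s * ((600 + 11 * r) * M) := by
    calc (F.card : ℝ) ≤ ∑ j : Fin s, (((univ.filter fun p => Mixed c τ ζ (W j) p).sigma fun p =>
          dset c τ ζ (W j) p).card : ℝ) := by exact_mod_cast card_biUnion_le
      _ ≤ ∑ _j : Fin s, (600 + 11 * r) * M := by
          refine sum_le_sum fun j _ => ?_
          rw [card_sigma]
          push_cast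
          exact h.mixed_total (hW j) hr
      _ = _ := by rw [sum_const, card_univ, Fintype.card_fin, nsmul_eq_mul]
  have hG : (G.card : ℝ) ≤ 120 * M * (t * ((univ : Finset E).image c).card) := by
    calc (G.card : ℝ) ≤ ∑ γ ∈ (univ : Finset E).image c, ((univ.biUnion fun i : Fin t =>
          (univ.filter fun p => c p = γ ∧ ¬ Mixed c τ ζ (V γ i) p).sigma fun p =>
            dset c τ ζ (V γ i) p).card : ℝ) := by exact_mod_cast card_biUnion_le
      _ ≤ ∑ _γ ∈ (univ : Finset E).image c, t * (120 * M) := by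
          refine sum_le_sum fun γ _ => ?_
          calc ((univ.biUnion fun i : Fin t =>
                (univ.filter fun p => c p = γ ∧ ¬ Mixed c τ ζ (V γ i) p).sigma fun p =>
                dset c τ ζ (V γ i) p).card : ℝ)
              ≤ ∑ i : Fin t, (((univ.filter fun p => c p = γ ∧
                  ¬ Mixed c τ ζ (V γ i) p).sigma fun p =>
                  dset c τ ζ (V γ i) p).card : ℝ) := by exact_mod_cast card_biUnion_le
            _ ≤ ∑ _i : Fin t, 120 * M := by
                refine sum_le_sum fun i _ => ?_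
                rw [card_sigma]
                exact card_unmixed (V γ i) γ _ fun p hp => (mem_filter.1 hp).2
            _ = _ := by rw [sum_const, card_univ, Fintype.card_fin, nsmul_eq_mul]
      _ = _ := by rw [sum_const, nsmul_eq_mul]; ring
  have hsub : (univ.filter fun q : Σ _ : E, Finset E =>
      g (c q.1) (fun i => V (c q.1) i (ζ (c q.1) q.2)) <
        g (c q.1) (fun i => V (c q.1) i (τ q.1))) ⊆ F ∪ G := by
    rintro ⟨p, T⟩ hq
    rw [mem_filter] at hq
    obtain ⟨i, hi⟩ := MRB.Prog.gate_D (hg (c p)) hq.2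
    have hT : T ∈ dset c τ ζ (V (c p) i) p := mem_dset.2 hi
    by_cases hm : Mixed c τ ζ (V (c p) i) p
    · rcases hV (c p) i with ⟨j, hj⟩ | hj
      · refine mem_union_left _ (mem_biUnion.2 ⟨j, mem_univ _, ?_⟩)
        rw [hj] at hm hT
        rw [mem_sigma]
        exact ⟨mem_filter.2 ⟨mem_univ _, hm⟩, hT⟩
      · exact absurd hm (hj p)
    · refine mem_union_right _ (mem_biUnion.2 ⟨c p, mem_image_of_mem c (mem_univ _), ?_⟩)
      refine mem_biUnion.2 ⟨i, mem_univ _, ?_⟩
      rw [mem_sigma]
      exact ⟨mem_filter.2 ⟨mem_univ _, rfl, hm⟩, hT⟩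
  have h1 : ((univ.filter fun q : Σ _ : E, Finset E =>
      g (c q.1) (fun i => V (c q.1) i (ζ (c q.1) q.2)) <
        g (c q.1) (fun i => V (c q.1) i (τ q.1))).card : ℝ) ≤ (F.card : ℝ) + G.card := by
    exact_mod_cast (card_le_card hsub).trans (card_union_le _ _)
  linarith

end Pool.Agent.H587R2.MRC
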