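import Pool.Agent.H587R2.MRB.Defs

/-!
# All-numbers 3SUM for monotone real programs
-/

namespace Pool.Agent.H587R2.MRC

open Finset

open Pool.Agent.H587R2.MRB (Prog initial)

open Classical in
/-- The registers at the start: the presence bits of all integers. -/
noncomputable def input (S : Finset ℤ) : ℤ ⊕ ℕ → ℝ :=
  initial fun z => if z ∈ S then 1 else 0

/-- There are elements `x` and `y` of `S` such that `x`, `y` and `z` are three distinct integers
with the sum `0`. -/
def InTriple (S : Finset ℤ) (z : ℤ) : Prop :=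
  ∃ x ∈ S, ∃ y ∈ S, x ≠ y ∧ x ≠ z ∧ y ≠ z ∧ x + y + z = 0

/-- The answer of the program for the element `z` of `S` is correct: the number in the output
register `z` is positive if and only if `z` is in a triple. -/
def Correct (P : Prog ℤ ℤ) (S : Finset ℤ) (z : ℤ) : Prop :=
  0 < P.answer (input S) z ↔ InTriple S z

open Classical in
/-- The randomised program `P ω`, where `ω` has probability `p ω`, solves all-numbers 3SUM with
advantage `δ`: for all sets `S` of at most `n` integers between `-N` and `N` and for all elements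
`z` of `S` the answer for `z` is correct with probability at least `1 / 2 + δ`. -/
def Solves (n N : ℕ) (δ : ℝ) {Ω : Type} [Fintype Ω] (p : Ω → ℝ) (P : Ω → Prog ℤ ℤ) : Prop :=
  (∀ ω, 0 ≤ p ω) ∧ ∑ ω, p ω = 1 ∧
    ∀ S : Finset ℤ, S.card ≤ n → (∀ x ∈ S, |x| ≤ (N : ℤ)) → ∀ z ∈ S,
      1 / 2 + δ ≤ ∑ ω ∈ univ.filter (fun ω => Correct (P ω) S z), p ω

/-- The expected cost of the randomised program for the set `S`. -/
noncomputable def expCost {Ω : Type} [Fintype Ω] (p : Ω → ℝ) (P : Ω → Prog ℤ ℤ)
    (S : Finset ℤ) : ℝ :=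
  ∑ ω, p ω * (P ω).cost (input S)

end Pool.Agent.H587R2.MRC
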