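import Pool.Agent.H587R2.MRC.Block
import Pool.Agent.H587R2.MRC.TripleDefs

/-!
# All-numbers 3SUM for monotone real programs: the proof
-/

namespace Pool.Agent.H587R2.MRC

open Finset

open Pool.Agent.H587R2.MRB (Prog initial)

variable {R a : ℕ}

/-- The elements of the first set. -/
def xv (R a : ℕ) (x : Fin R × Fin a) : ℤ := 2 * a * x.1.val + x.2.val

/-- The elements of the second set. -/
def yv (R a : ℕ) (y : Fin R × Fin a) : ℤ := 4 * a * R ^ 2 + 2 * a * R * y.1.val + y.2.val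

/-- The elements of the third set. -/
def zv (R a : ℕ) (r : Fin R) (γ : ℕ) : ℤ := -(4 * a * R ^ 2 + 2 * a * (R + 1) * r.val + γ)

theorem xv_bounds (x : Fin R × Fin a) : 0 ≤ xv R a x ∧ xv R a x < 2 * a * R := by
  have h1 : ((x.1.val : ℤ)) + 1 ≤ R := by exact_mod_cast x.1.2
  have h2 : ((x.2.val : ℤ)) + 1 ≤ a := by exact_mod_cast x.2.2
  have h3 : (0 : ℤ) ≤ x.1.val := by positivity
  have h4 : (0 : ℤ) ≤ x.2.val := by positivity
  unfold xv
  constructor
  · positivity
  · nlinarith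

theorem yv_bounds (y : Fin R × Fin a) :
    4 * a * R ^ 2 ≤ yv R a y ∧ yv R a y < 6 * a * R ^ 2 := by
  have h1 : ((y.1.val : ℤ)) + 1 ≤ R := by exact_mod_cast y.1.2
  have h2 : ((y.2.val : ℤ)) + 1 ≤ a := by exact_mod_cast y.2.2
  have h3 : (0 : ℤ) ≤ y.1.val := by positivity
  have h4 : (0 : ℤ) ≤ y.2.val := by positivity
  have h5 : (0 : ℤ) ≤ a * R := by positivity
  unfold yv
  constructor
  · nlinarith [mul_nonneg h5 h3]
  · have h6 : (a : ℤ) * R * (y.1.val + 1) ≤ a * R * R := mul_le_mul_of_nonneg_left h1 h5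
    have h7 : (a : ℤ) * 1 ≤ a * R := mul_le_mul_of_nonneg_left (by linarith) (by positivity)
    nlinarith

theorem zv_bounds (r : Fin R) {γ : ℕ} (hγ : γ < 2 * a) :
    4 * a * R ^ 2 ≤ -zv R a r γ ∧ -zv R a r γ < 6 * a * R ^ 2 := by
  have h1 : ((r.val : ℤ)) + 1 ≤ R := by exact_mod_cast r.2
  have h2 : (γ : ℤ) + 1 ≤ 2 * a := by exact_mod_cast hγ
  have h3 : (0 : ℤ) ≤ r.val := by positivity
  have h4 : (0 : ℤ) ≤ γ := by positivity
  have h5 : (0 : ℤ) ≤ a * (R + 1) := by positivity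
  unfold zv
  constructor
  · nlinarith [mul_nonneg h5 h3]
  · have h6 : (a : ℤ) * (R + 1) * (r.val + 1) ≤ a * (R + 1) * R := mul_le_mul_of_nonneg_left h1 h5
    nlinarith

theorem key_sum (x y : Fin R × Fin a) (r : Fin R) {γ : ℕ} (hγ : γ < 2 * a)
    (h : xv R a x + yv R a y + zv R a r γ = 0) :
    x.1 = r ∧ y.1 = r ∧ x.2.val + y.2.val = γ := by
  have h1 : (2 * a) * (x.1.val + R * y.1.val) + (x.2.val + y.2.val) =
      (2 * a) * (r.val + R * r.val) + γ := by
    unfold xv yv zv at h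
    have : (((2 * a) * (x.1.val + R * y.1.val) + (x.2.val + y.2.val) : ℕ) : ℤ) =
      (((2 * a) * (r.val + R * r.val) + γ : ℕ) : ℤ) := by
      push_cast
      linarith
    exact_mod_cast this
  have h2 : x.2.val + y.2.val < 2 * a := by have := x.2.2; have := y.2.2; omega
  have ha : 0 < 2 * a := by omega
  have h3 := congrArg (· % (2 * a)) h1
  have h4 := congrArg (· / (2 * a)) h1
  simp only [Nat.mul_add_mod, Nat.mod_eq_of_lt h2, Nat.mod_eq_of_lt hγ] at h3
  simp only [Nat.mul_add_div ha, Nat.div_eq_of_lt h2, Nat.div_eq_of_lt hγ, add_zero] at h4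
  have hR : 0 < R := by have := r.2; omega
  have h5 := congrArg (· % R) h4
  have h6 := congrArg (· / R) h4
  simp only [Nat.add_mul_mod_self_left, Nat.mod_eq_of_lt x.1.2, Nat.mod_eq_of_lt r.2] at h5
  simp only [Nat.add_mul_div_left _ _ hR, Nat.div_eq_of_lt x.1.2, Nat.div_eq_of_lt r.2,
    zero_add] at h6
  exact ⟨Fin.ext h5, Fin.ext h6, h3⟩

open Classical in
/-- The set of a pair of sets of indices. -/
noncomputable def setOf' (x : Pt R a) : Finset ℤ :=
  ((univ.filter fun i => x.1 i).image (xv R a) ∪ (univ.filter fun j => x.2 j).image (yv R a)) ∪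
    (univ : Finset (Fin R × Fin (2 * a))).image fun q => zv R a q.1 q.2.val

theorem mem_setOf' {x : Pt R a} {v : ℤ} : v ∈ setOf' x ↔
    ((∃ i, x.1 i ∧ xv R a i = v) ∨ ∃ j, x.2 j ∧ yv R a j = v) ∨
      ∃ q : Fin R × Fin (2 * a), zv R a q.1 q.2.val = v := by
  simp [setOf', or_assoc]

open Classical in
theorem card_setOf' (x : Pt R a) : (setOf' x).card ≤ 4 * R * a := by
  have h2 : ((univ.filter fun i => x.1 i).image (xv R a)).card ≤ R * a := by
    refine card_image_le.trans ((card_filter_le _ _).trans ?_)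
    simp
  have h3 : ((univ.filter fun j => x.2 j).image (yv R a)).card ≤ R * a := by
    refine card_image_le.trans ((card_filter_le _ _).trans ?_)
    simp
  have h4 : ((univ : Finset (Fin R × Fin (2 * a))).image fun q => zv R a q.1 q.2.val).card ≤
      R * (2 * a) := by
    refine card_image_le.trans ?_
    simp
  refine (card_union_le _ _).trans ?_
  refine (add_le_add ((card_union_le _ _).trans (add_le_add h2 h3)) h4).trans (le_of_eq ?_)
  ring

theorem abs_setOf' (x : Pt R a) {v : ℤ} (hv : v ∈ setOf' x) : |v| ≤ 6 * a * R ^ 2 := by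
  rw [mem_setOf'] at hv
  rcases hv with (⟨i, -, rfl⟩ | ⟨j, -, rfl⟩) | ⟨q, rfl⟩
  · have h := xv_bounds i
    have h1 : (1 : ℤ) ≤ R := by have := i.1.2; exact_mod_cast (by omega : 1 ≤ R)
    rw [abs_le]
    have h2 : (a : ℤ) * R * 1 ≤ a * R * R := mul_le_mul_of_nonneg_left h1 (by positivity)
    constructor <;> nlinarith
  · have h := yv_bounds j
    rw [abs_le]
    have h2 : (0 : ℤ) ≤ a * R ^ 2 := by positivity
    constructor <;> nlinarith
  · have h := zv_bounds q.1 q.2.2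
    rw [abs_le]
    have h2 : (0 : ℤ) ≤ a * R ^ 2 := by positivity
    constructor <;> nlinarith

theorem setOf'_mono : Monotone (setOf' : Pt R a → Finset ℤ) := by
  intro x x' h v hv
  rw [mem_setOf'] at hv ⊢
  rcases hv with (⟨i, h1, h2⟩ | ⟨j, h1, h2⟩) | h1
  · exact Or.inl (Or.inl ⟨i, h.1 i h1, h2⟩)
  · exact Or.inl (Or.inr ⟨j, h.2 j h1, h2⟩)
  · exact Or.inr h1

theorem input_mono : Monotone fun x : Pt R a => input (setOf' x) := by
  intro x x' h Q
  rcases Q with z | q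
  · simp only [input, initial]
    by_cases hz : z ∈ setOf' x
    · simp [hz, setOf'_mono h hz]
    · simp only [hz, if_false]
      split_ifs <;> norm_num
  · simp [input, initial]

theorem input_dep (Q : ℤ ⊕ ℕ) :
    (∀ A B B', input (setOf' ((A, B) : Pt R a)) Q = input (setOf' ((A, B') : Pt R a)) Q) ∨
      (∀ A A' B, input (setOf' ((A, B) : Pt R a)) Q = input (setOf' ((A', B) : Pt R a)) Q) := by
  rcases Q with z | q
  · by_cases hz : ∃ i, xv R a i = z
    · left
      intro A B B'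
      obtain ⟨i, rfl⟩ := hz
      have h0 : ∀ j, yv R a j ≠ xv R a i := by
        intro j hj
        have h1 := xv_bounds i
        have h2 := yv_bounds j
        have h3 : (1 : ℤ) ≤ R := by have := i.1.2; exact_mod_cast (by omega : 1 ≤ R)
        have h4 : (a : ℤ) * R * 1 ≤ a * R * R := mul_le_mul_of_nonneg_left h3 (by positivity)
        have h5 : (0 : ℤ) ≤ a * R := by positivity
        nlinarith
      have h : xv R a i ∈ setOf' ((A, B) : Pt R a) ↔ xv R a i ∈ setOf' ((A, B') : Pt R a) := by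
        rw [mem_setOf', mem_setOf']
        simp [h0]
      simp only [input, initial, h]
    · right
      intro A A' B
      have h0 : ∀ i, xv R a i ≠ z := fun i hi => hz ⟨i, hi⟩
      have h : z ∈ setOf' ((A, B) : Pt R a) ↔ z ∈ setOf' ((A', B) : Pt R a) := by
        rw [mem_setOf', mem_setOf']
        simp [h0]
      simp only [input, initial, h]
  · left; intros; rfl

theorem inTriple_of {x : Pt R a} {r : Fin R} {γ : ℕ}
    (h : ∃ i j : Fin a, i.val + j.val = γ ∧ x.1 (r, i) ∧ x.2 (r, j)) :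
    InTriple (setOf' x) (zv R a r γ) := by
  obtain ⟨i, j, hij, hi, hj⟩ := h
  have hγ : γ < 2 * a := by have := i.2; have := j.2; omega
  have h1 := xv_bounds (R := R) (r, i)
  have h2 := yv_bounds (R := R) (r, j)
  have h3 := zv_bounds r hγ
  have h4 : (1 : ℤ) ≤ R := by have := r.2; exact_mod_cast (by omega : 1 ≤ R)
  have h5 : (1 : ℤ) ≤ a := by have := i.2; exact_mod_cast (by omega : 1 ≤ a)
  have h6 : (a : ℤ) * R * 1 ≤ a * R * R := mul_le_mul_of_nonneg_left h4 (by positivity)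
  have h7 : (0 : ℤ) < a * R ^ 2 := by positivity
  refine ⟨xv R a (r, i), mem_setOf'.2 (Or.inl (Or.inl ⟨_, hi, rfl⟩)),
    yv R a (r, j), mem_setOf'.2 (Or.inl (Or.inr ⟨_, hj, rfl⟩)), ?_, ?_, ?_, ?_⟩
  · intro hcon; nlinarith
  · intro hcon; nlinarith
  · intro hcon; nlinarith
  · unfold xv yv zv
    rw [← hij]
    push_cast
    ring

theorem not_inTriple_of {x : Pt R a} {r : Fin R} {γ : ℕ} (hγ : γ < 2 * a)
    (h : ∀ i j : Fin a, i.val + j.val = γ → x.1 (r, i) → x.2 (r, j) → False) :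
    ¬ InTriple (setOf' x) (zv R a r γ) := by
  have h3 := zv_bounds r hγ
  have h4 : (1 : ℤ) ≤ R := by have := r.2; exact_mod_cast (by omega : 1 ≤ R)
  have h5 : (1 : ℤ) ≤ a := by exact_mod_cast (by omega : 1 ≤ a)
  have h6 : (a : ℤ) * R * 1 ≤ a * R * R := mul_le_mul_of_nonneg_left h4 (by positivity)
  have h7 : (0 : ℤ) < a * R ^ 2 := by positivity
  have key : ∀ i j, x.1 i → x.2 j → xv R a i + yv R a j + zv R a r γ = 0 → False := by
    intro i j hi hj hs
    obtain ⟨e1, e2, e3⟩ := key_sum i j r hγ hs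
    refine h i.2 j.2 e3 ?_ ?_
    · rw [← e1]; exact hi
    · rw [← e2]; exact hj
  rintro ⟨u, hu, v, hv, -, -, -, hs⟩
  rw [mem_setOf'] at hu hv
  rcases hu with (⟨i, hi, rfl⟩ | ⟨i, hi, rfl⟩) | ⟨q, rfl⟩ <;>
    rcases hv with (⟨j, hj, rfl⟩ | ⟨j, hj, rfl⟩) | ⟨q', rfl⟩
  · have h1 := xv_bounds i
    have h2 := xv_bounds j
    nlinarith
  · exact key i j hi hj hs
  · have h1 := xv_bounds i
    have h2 := zv_bounds q'.1 q'.2.2
    nlinarith
  · exact key j i hj hi (by linarith)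
  · have h1 := yv_bounds i
    have h2 := yv_bounds j
    nlinarith
  · have h1 := yv_bounds i
    have h2 := zv_bounds q'.1 q'.2.2
    nlinarith
  · have h1 := xv_bounds j
    have h2 := zv_bounds q.1 q.2.2
    nlinarith
  · have h1 := yv_bounds j
    have h2 := zv_bounds q.1 q.2.2
    nlinarith
  · have h1 := zv_bounds q.1 q.2.2
    have h2 := zv_bounds q'.1 q'.2.2
    nlinarith

/-- The bound with parameters. -/
theorem triple_param {n N m : ℕ} {δ : ℝ} (hn : 4 * R * a ≤ n) (hN : 6 * a * R ^ 2 ≤ N)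
    {Ω : Type} [Fintype Ω] (p : Ω → ℝ) (P : Ω → Prog ℤ ℤ) (hS : Solves n N δ p P)
    (hm : ∀ ω, (P ω).leaves ≤ m) :
    ∃ S : Finset ℤ, S.card ≤ n ∧ (∀ x ∈ S, |x| ≤ (N : ℤ)) ∧
      2 * δ * (R * (a : ℝ) ^ 2) ≤
        2580 * (R * expCost p P S) + 240 * (R * a) + (m - 1) * (a : ℝ) ^ 2 := by
  classical
  obtain ⟨hp, hp1, hprob⟩ := hS
  have hcard : ∀ x : Pt R a, (setOf' x).card ≤ n := fun x => (card_setOf' x).trans hn
  have habs : ∀ x : Pt R a, ∀ v ∈ setOf' x, |v| ≤ (N : ℤ) := by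
    intro x v hv
    refine (abs_setOf' x hv).trans ?_
    exact_mod_cast hN
  obtain ⟨x₀, -, hx₀⟩ := exists_max_image (univ : Finset (Pt R a))
    (fun x => expCost p P (setOf' x)) ⟨base R a 0, mem_univ _⟩
  refine ⟨setOf' x₀, hcard x₀, habs x₀, ?_⟩
  refine avg_bound p hp hp1 P hm (fun x => input (setOf' x)) input_mono input_dep
    (fun r γ => zv R a r γ) (fun ω x r γ => Correct (P ω) (setOf' x) (zv R a r γ)) ?_ ?_
    (fun x => hx₀ x (mem_univ _))
  · intro ω x x' r γ h1 h2 h3 h4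
    have hγ : γ < 2 * a := by
      obtain ⟨i, j, hij, -⟩ := h3
      have := i.2
      have := j.2
      omega
    have h5 := h1.2 (inTriple_of h3)
    have h6 : ¬ 0 < (P ω).answer (input (setOf' x')) (zv R a r γ) := fun hcon =>
      not_inTriple_of hγ h4 (h2.1 hcon)
    exact lt_of_le_of_lt (not_lt.1 h6) h5
  · intro x r γ hγ
    have h1 : zv R a r γ ∈ setOf' x := mem_setOf'.2 (Or.inr ⟨(r, ⟨γ, hγ⟩), rfl⟩)
    have h2 := hprob (setOf' x) (hcard x) (habs x) _ h1
    refine h2.trans (le_of_eq ?_)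
    refine sum_congr ?_ fun _ _ => rfl
    ext ω
    simp

end Pool.Agent.H587R2.MRC
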