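import Pool.Agent.H587R2.MRC.Triple

/-!
# All-numbers 3SUM for monotone real programs: the bound
-/

namespace Pool.Agent.H587R2.MRC

open Finset

open Pool.Agent.H587R2.MRB (Prog initial)

theorem triple_bound {n N m : ℕ} {δ : ℝ} (hδ : 0 < δ) (hδ2 : δ ≤ 1 / 2)
    (hn : 7680 * (m : ℝ) ≤ δ ^ 2 * n) (hN : n ^ 2 ≤ N)
    {Ω : Type} [Fintype Ω] (p : Ω → ℝ) (P : Ω → Prog ℤ ℤ) (hS : Solves n N δ p P)
    (hm : ∀ ω, (P ω).leaves ≤ m) :
    ∃ S : Finset ℤ, S.card ≤ n ∧ (∀ x ∈ S, |x| ≤ (N : ℤ)) ∧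
      δ ^ 3 * (n : ℝ) ^ 2 ≤ 516000 * (m : ℝ) ^ 2 * expCost p P S := by
  -- there is a program, so `1 ≤ m`
  have hm1 : 1 ≤ m := by
    by_contra hcon
    have hE : IsEmpty Ω := ⟨fun ω => by
      have h1 := (P ω).leaves_pos
      have h2 := hm ω
      omega⟩
    have := hS.2.1
    simp at this
  have hm1' : (1 : ℝ) ≤ m := by exact_mod_cast hm1
  set R : ℕ := ⌈(m : ℝ) / δ⌉₊ with hR
  have hmδ : (2 : ℝ) ≤ m / δ := by
    rw [le_div_iff₀ hδ]; linarith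
  have hR1 : (m : ℝ) / δ ≤ R := Nat.le_ceil _
  have hR2 : (R : ℝ) ≤ 2 * (m / δ) := by
    have := (Nat.ceil_lt_add_one (show 0 ≤ (m : ℝ) / δ by positivity)).le
    linarith
  have hRpos : (0 : ℝ) < R := by linarith
  have hRpos' : 0 < R := by exact_mod_cast hRpos
  have hmR : (m : ℝ) ≤ δ * R := by
    have := (div_le_iff₀ hδ).1 hR1
    linarith
  have hRm : δ * R ≤ 2 * m := by
    have h1 : δ * (2 * (m / δ)) = 2 * m := by field_simp
    have h2 : δ * R ≤ δ * (2 * (m / δ)) := mul_le_mul_of_nonneg_left hR2 hδ.le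
    linarith
  -- `3840 * R ≤ δ * n`
  have hnR : 3840 * (R : ℝ) ≤ δ * n := by
    have h1 : δ * (3840 * R) ≤ δ * (δ * n) := by nlinarith
    exact le_of_mul_le_mul_left h1 hδ
  set a : ℕ := n / (4 * R) with ha
  have h4Ra : 4 * R * a ≤ n := Nat.mul_div_le n (4 * R)
  have ha1 : (n : ℝ) < 4 * R * (a + 1) := by
    have h1 : n < 4 * R * (n / (4 * R) + 1) := by
      have := Nat.lt_mul_div_succ n (show 0 < 4 * R by omega)
      exact this
    exact_mod_cast h1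
  have hδn : δ * n ≤ n := by
    have : (0 : ℝ) ≤ n := by positivity
    nlinarith
  have ha2 : (n : ℝ) ≤ 5 * R * a := by nlinarith
  have ha3 : 768 ≤ δ * a := by
    have h1 : R * 768 ≤ R * (δ * a) := by nlinarith
    exact le_of_mul_le_mul_left h1 hRpos
  have hapos : (0 : ℝ) < a := by
    by_contra hcon
    rw [not_lt] at hcon
    nlinarith
  have hN' : 6 * a * R ^ 2 ≤ N := by
    refine le_trans ?_ hN
    have h1 : 1 ≤ a := by
      by_contra hcon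
      have : a = 0 := Nat.lt_one_iff.1 (not_le.1 hcon)
      rw [this] at hapos
      simp at hapos
    have h2 : (4 * R * a) ^ 2 ≤ n ^ 2 := Nat.pow_le_pow_left h4Ra 2
    nlinarith [Nat.mul_le_mul_left (6 * a * R ^ 2) h1]
  obtain ⟨S, hS1, hS2, hS3⟩ := triple_param (R := R) (a := a) h4Ra hN' p P hS hm
  refine ⟨S, hS1, hS2, ?_⟩
  set c := expCost p P S with hc
  have h1 : ((m : ℝ) - 1) * (a : ℝ) ^ 2 ≤ δ * R * (a : ℝ) ^ 2 :=
    mul_le_mul_of_nonneg_right (by linarith) (by positivity)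
  have h2 : 240 * ((R : ℝ) * a) ≤ δ / 2 * (R * (a : ℝ) ^ 2) := by
    have h3 : (R : ℝ) * a * 480 ≤ R * a * (δ * a) :=
      mul_le_mul_of_nonneg_left (by linarith) (by positivity)
    nlinarith
  have h3 : (R : ℝ) * (δ * (a : ℝ) ^ 2) ≤ R * (5160 * c) := by nlinarith
  have h4 : δ * (a : ℝ) ^ 2 ≤ 5160 * c := le_of_mul_le_mul_left h3 hRpos
  have h5 : δ * n ≤ 10 * m * a := by
    calc δ * n ≤ δ * (5 * R * a) := mul_le_mul_of_nonneg_left ha2 hδ.le
      _ = 5 * (δ * R) * a := by ring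
      _ ≤ 5 * (2 * m) * a := by
          refine mul_le_mul_of_nonneg_right ?_ hapos.le
          linarith
      _ = 10 * m * a := by ring
  have h6 : (δ * n) ^ 2 ≤ (10 * m * a) ^ 2 := pow_le_pow_left₀ (by positivity) h5 2
  calc δ ^ 3 * (n : ℝ) ^ 2 = δ * (δ * n) ^ 2 := by ring
    _ ≤ δ * (10 * m * a) ^ 2 := mul_le_mul_of_nonneg_left h6 hδ.le
    _ = 100 * (m : ℝ) ^ 2 * (δ * (a : ℝ) ^ 2) := by ring
    _ ≤ 100 * (m : ℝ) ^ 2 * (5160 * c) := mul_le_mul_of_nonneg_left h4 (by positivity)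
    _ = 516000 * (m : ℝ) ^ 2 * c := by ring

end Pool.Agent.H587R2.MRC
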