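import Pool.Agent.H587R2.MRC.Charge

/-!
# The charge of a wire is bounded (2)
-/

namespace Pool.Agent.H587R2.MRC

open Finset

open Classical

variable {E A B C X : Type} [Fintype E] {a : E → A} {b : E → B} {c : E → C}
variable {τ : E → X} {ζ : C → Finset E → X} [Preorder X]

/-- The number of products of other outputs in the greedy matching up to `p`. -/
noncomputable def oth (a : E → A) (b : E → B) (c : E → C) (ρ : E → ℕ) (p : E) : ℕ :=
  ((gr a b ρ (ρ p + 1)).filter fun q => c q ≠ c p).card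

/-- The number of products of the same output in the greedy matching up to `p`. -/
noncomputable def own (a : E → A) (b : E → B) (c : E → C) (ρ : E → ℕ) (p : E) : ℕ :=
  ((gr a b ρ (ρ p + 1)).filter fun q => c q = c p).card

omit [Fintype E] in
theorem own_add_oth [Fintype E] (ρ : E → ℕ) (p : E) :
    own a b c ρ p + oth a b c ρ p = lev a b ρ p := by
  unfold own oth lev
  exact card_filter_add_card_filter_not (s := gr a b ρ (ρ p + 1)) (fun q => c q = c p)

theorem Points.dset_le_oth (h : Points a b c τ ζ) {W : X → ℝ} (hW : Monotone W) {ρ : E → ℕ}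
    (hρ : Function.Injective ρ) (hρW : ∀ p q, ρ p ≤ ρ q → W (τ q) ≤ W (τ p)) (p : E) :
    ((dset c τ ζ W p).card : ℝ) ≤ (10 / 11) ^ oth a b c ρ p * 2 ^ Fintype.card E := by
  refine h.dset_le_cover hW _ ?_ (fun q hq => (mem_filter.1 hq).2) ?_
  · intro q hq
    have := gr_lt (mem_filter.1 hq).1
    exact hρW _ _ (by omega)
  · intro x hx y hy hne
    exact gr_match hρ (mem_filter.1 hx).1 (mem_filter.1 hy).1 hne

/-- The part of the charge of a wire in the dominating outputs. -/
theorem Points.dom_bound (h : Points a b c τ ζ) {W : X → ℝ} (hW : Monotone W) (W' : X → ℝ)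
    {ρ : E → ℕ} (hρ : Function.Injective ρ) (hρW : ∀ p q, ρ p ≤ ρ q → W (τ q) ≤ W (τ p))
    (U : Finset E)
    (hU : ∀ p ∈ U, ¬ Mixed c τ ζ W' p ∧ oth a b c ρ p < own a b c ρ p) :
    ∑ p ∈ U, ((dset c τ ζ W p ∩ dset c τ ζ W' p).card : ℝ) ≤ 1980 * 2 ^ Fintype.card E := by
  set M : ℝ := 2 ^ Fintype.card E with hM
  have hMpos : 0 < M := by positivity
  rcases U.eq_empty_or_nonempty with hUe | ⟨p₁, hp₁⟩
  · rw [hUe, sum_empty]; positivity
  have : Nonempty E := ⟨p₁⟩
  -- the first product of every output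
  have hfirst : ∀ γ ∈ U.image c, ∃ p ∈ U, c p = γ ∧ ∀ q ∈ U, c q = γ → ρ p ≤ ρ q := by
    intro γ hγ
    obtain ⟨p, hp, hpγ⟩ := mem_image.1 hγ
    obtain ⟨p₀, hp₀, hmin⟩ := exists_min_image (U.filter fun q => c q = γ) ρ
      ⟨p, mem_filter.2 ⟨hp, hpγ⟩⟩
    obtain ⟨h1, h2⟩ := mem_filter.1 hp₀
    exact ⟨p₀, h1, h2, fun q hq hqγ => hmin q (mem_filter.2 ⟨hq, hqγ⟩)⟩
  choose! f hf1 hf2 hf3 using hfirst
  have hinner : ∀ γ ∈ U.image c, ∑ p ∈ U.filter (fun p => c p = γ),
      ((dset c τ ζ W p ∩ dset c τ ζ W' p).card : ℝ) ≤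
        90 * M * (954529 / 1000000) ^ oth a b c ρ (f γ) := by
    intro γ hγ
    set o := oth a b c ρ (f γ) with ho
    set V := (U.filter fun p => c p = γ).filter fun p => (dset c τ ζ W' p).Nonempty with hV
    have h1 : ∑ p ∈ U.filter (fun p => c p = γ),
        ((dset c τ ζ W p ∩ dset c τ ζ W' p).card : ℝ) =
        ∑ p ∈ V, ((dset c τ ζ W p ∩ dset c τ ζ W' p).card : ℝ) := by
      rw [hV, sum_filter (s := U.filter fun p => c p = γ)]
      refine sum_congr rfl fun p _ => ?_
      split_ifs with hp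
      · rfl
      · rw [not_nonempty_iff_eq_empty] at hp
        rw [hp, inter_empty, card_empty, Nat.cast_zero]
    have h2 := sum_unmixed (τ := τ) (ζ := ζ) (c := c) W' γ V (fun p hp => by
      obtain ⟨h3, h4⟩ := mem_filter.1 hp
      obtain ⟨h5, h6⟩ := mem_filter.1 h3
      exact ⟨h6, (hU p h5).1, h4⟩)
    rw [h1]
    calc ∑ p ∈ V, ((dset c τ ζ W p ∩ dset c τ ζ W' p).card : ℝ)
        ≤ ∑ p ∈ V, 3 / 2 * M * (954529 / 1000000) ^ o * (71 / 100) ^ level (dset c τ ζ W' p) := by
          refine sum_le_sum fun p hp => ?_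
          obtain ⟨h3, h4⟩ := mem_filter.1 hp
          obtain ⟨h5, h6⟩ := mem_filter.1 h3
          set d : ℝ := ((dset c τ ζ W p ∩ dset c τ ζ W' p).card : ℝ) with hd
          set n := level (dset c τ ζ W' p) with hn
          have hd0 : 0 ≤ d := by positivity
          have hoo : o ≤ oth a b c ρ p := by
            rw [ho]
            unfold oth
            rw [hf2 γ hγ, h6]
            exact card_le_card (filter_subset_filter _
              (gr_mono (Nat.succ_le_succ (hf3 γ hγ p h5 h6))))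
          have h7 : d ≤ (10 / 11) ^ o * M := by
            calc d ≤ ((dset c τ ζ W p).card : ℝ) := by
                  rw [hd]; exact_mod_cast card_le_card inter_subset_left
              _ ≤ (10 / 11) ^ oth a b c ρ p * M := h.dset_le_oth hW hρ hρW p
              _ ≤ (10 / 11) ^ o * M := mul_le_mul_of_nonneg_right
                  (pow_le_pow_of_le_one (by norm_num) (by norm_num) hoo) hMpos.le
          have h8 : 2 ^ n * d ≤ 2 * M := by
            refine le_trans (mul_le_mul_of_nonneg_left ?_ (by positivity)) (level_bounds h4).2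
            rw [hd]; exact_mod_cast card_le_card inter_subset_right
          have h9 : (1 : ℝ) ≤ 2 ^ n * ((71 / 100) ^ n) ^ 2 := by
            rw [← pow_mul, mul_comm n 2, pow_mul, ← mul_pow]
            exact one_le_pow₀ (by norm_num)
          have h10 : d ≤ 2 * M * ((71 / 100) ^ n) ^ 2 := by
            calc d = d * 1 := (mul_one d).symm
              _ ≤ d * (2 ^ n * ((71 / 100) ^ n) ^ 2) := mul_le_mul_of_nonneg_left h9 hd0
              _ = (2 ^ n * d) * ((71 / 100) ^ n) ^ 2 := by ring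
              _ ≤ (2 * M) * ((71 / 100) ^ n) ^ 2 :=
                  mul_le_mul_of_nonneg_right h8 (by positivity)
          have h11 : ((10 : ℝ) / 11) ^ o ≤ ((954529 / 1000000) ^ o) ^ 2 := by
            rw [← pow_mul, mul_comm o 2, pow_mul]
            exact pow_le_pow_left₀ (by norm_num) (by norm_num) _
          have h12 : d ≤ ((954529 / 1000000) ^ o) ^ 2 * M :=
            h7.trans (mul_le_mul_of_nonneg_right h11 hMpos.le)
          refine (pow_le_pow_iff_left₀ hd0 (by positivity) two_ne_zero).1 ?_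
          calc d ^ 2 = d * d := sq d
            _ ≤ (((954529 / 1000000) ^ o) ^ 2 * M) * (2 * M * ((71 / 100) ^ n) ^ 2) :=
                mul_le_mul h12 h10 hd0 (by positivity)
            _ = 2 * (M * (954529 / 1000000) ^ o * (71 / 100) ^ n) ^ 2 := by ring
            _ ≤ (9 / 4) * (M * (954529 / 1000000) ^ o * (71 / 100) ^ n) ^ 2 :=
                mul_le_mul_of_nonneg_right (by norm_num) (by positivity)
            _ = _ := by ring
      _ = 3 / 2 * M * (954529 / 1000000) ^ o *
            ∑ p ∈ V, ((71 : ℝ) / 100) ^ level (dset c τ ζ W' p) := by rw [mul_sum]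
      _ ≤ 3 / 2 * M * (954529 / 1000000) ^ o * 60 :=
          mul_le_mul_of_nonneg_left h2 (by positivity)
      _ = _ := by ring
  have hinj : Set.InjOn (fun γ => oth a b c ρ (f γ)) (U.image c : Set C) := by
    have key : ∀ γ ∈ U.image c, ∀ γ' ∈ U.image c, γ ≠ γ' → ρ (f γ) < ρ (f γ') →
        oth a b c ρ (f γ) < oth a b c ρ (f γ') := by
      intro γ hγ γ' hγ' hne hlt
      refine lt_of_lt_of_le (hU _ (hf1 γ hγ)).2 ?_
      unfold own oth
      refine card_le_card fun q hq => ?_
      obtain ⟨h1, h2⟩ := mem_filter.1 hq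
      refine mem_filter.2 ⟨gr_mono (by omega) h1, ?_⟩
      rw [h2, hf2 γ hγ, hf2 γ' hγ']
      exact hne
    intro γ hγ γ' hγ' heq
    rw [mem_coe] at hγ hγ'
    simp only at heq
    by_contra hne
    rcases lt_trichotomy (ρ (f γ)) (ρ (f γ')) with h1 | h1 | h1
    · have := key γ hγ γ' hγ' hne h1; omega
    · have h2 := hρ h1
      exact hne (by rw [← hf2 γ hγ, ← hf2 γ' hγ', h2])
    · have := key γ' hγ' γ hγ (Ne.symm hne) h1; omega
  have hsum := sum_inj_le (U.image c) (fun γ => oth a b c ρ (f γ)) hinj (954529 / 1000000)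
    (by norm_num) (by norm_num)
  rw [← sum_fiberwise_of_maps_to (fun p hp => mem_image_of_mem c hp)]
  calc ∑ γ ∈ U.image c, ∑ p ∈ U.filter (fun p => c p = γ),
        ((dset c τ ζ W p ∩ dset c τ ζ W' p).card : ℝ)
      ≤ ∑ γ ∈ U.image c, 90 * M * (954529 / 1000000) ^ oth a b c ρ (f γ) := sum_le_sum hinner
    _ = 90 * M * ∑ γ ∈ U.image c, ((954529 : ℝ) / 1000000) ^ oth a b c ρ (f γ) := by
        rw [mul_sum]
    _ ≤ 90 * M * (1 - 954529 / 1000000)⁻¹ := mul_le_mul_of_nonneg_left hsum (by positivity)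
    _ ≤ 1980 * M := by
        have : (90 : ℝ) * (1 - 954529 / 1000000)⁻¹ ≤ 1980 := by norm_num
        nlinarith

/-- The charge of a wire is bounded. -/
theorem Points.wire_bound (h : Points a b c τ ζ) {W : X → ℝ} (hW : Monotone W) (W' : X → ℝ) :
    ∑ p ∈ univ.filter (fun p => Mixed c τ ζ W p ∧ ¬ Mixed c τ ζ W' p),
      ((dset c τ ζ W p ∩ dset c τ ζ W' p).card : ℝ) ≤ 2580 * 2 ^ Fintype.card E := by
  obtain ⟨ρ, hρ, hρW⟩ := exists_rank fun p => W (τ p)
  set U := univ.filter (fun p => Mixed c τ ζ W p ∧ ¬ Mixed c τ ζ W' p) with hU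
  rw [← sum_filter_add_sum_filter_not U (fun p => oth a b c ρ p < own a b c ρ p)]
  have h1 := h.dom_bound hW W' hρ hρW (U.filter fun p => oth a b c ρ p < own a b c ρ p)
    (fun p hp => by
      obtain ⟨h1, h2⟩ := mem_filter.1 hp
      exact ⟨(mem_filter.1 h1).2.2, h2⟩)
  have h2 := h.side_bound hW hρ hρW (U.filter fun p => ¬ oth a b c ρ p < own a b c ρ p)
    (fun p hp => by
      obtain ⟨h1, h2⟩ := mem_filter.1 hp
      refine ⟨(mem_filter.1 h1).2.1, ?_⟩
      have h3 := own_add_oth (a := a) (b := b) (c := c) ρ p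
      change lev a b ρ p ≤ 2 * oth a b c ρ p
      omega)
  have h3 : ∑ p ∈ U.filter (fun p => ¬ oth a b c ρ p < own a b c ρ p),
      ((dset c τ ζ W p ∩ dset c τ ζ W' p).card : ℝ) ≤
      ∑ p ∈ U.filter (fun p => ¬ oth a b c ρ p < own a b c ρ p), ((dset c τ ζ W p).card : ℝ) :=
    sum_le_sum fun p _ => by exact_mod_cast card_le_card inter_subset_left
  have h4 : (0 : ℝ) < 2 ^ Fintype.card E := by positivity
  linarith

end Pool.Agent.H587R2.MRC
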